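import Pool.Agent.StrG.Ntf
import Pool.Agent.PolD.Out

/-! STRUCTURE ON GROUPS (helper37): two primes among `R` linear forms, from `dhlg4`. -/

set_option autoImplicit false

namespace Pool.Agent.StrG

open Finset Filter Topology

theorem tp_of_dhlg (k : ℕ) (hk : 1 ≤ k) (hD : SL.DHLG 4 (4 * k)) : TP (4 * k) := by
  intro s h hs hnd hadm x
  obtain ⟨n, hn, i, j, hij, h1, h2⟩ := hD s h (fun i => ⟨i.1 / k, (Nat.div_lt_iff_lt_mul (by omega)).2 i.2⟩) (fun g => by
      refine Nat.mul_le_mul_left 4 ?_
      calc (univ.filter fun i : Fin (4 * k) => (⟨i.1 / k, (Nat.div_lt_iff_lt_mul (by omega)).2 i.2⟩ : Fin 4) = g).card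
          ≤ (range k).card := by
            refine Finset.card_le_card_of_injOn (fun i => i.1 % k) ?_ ?_
            · intro i _
              exact Finset.mem_coe.2 (Finset.mem_range.2 (Nat.mod_lt _ (by omega)))
            · intro i hi j hj hij
              rw [Finset.coe_filter] at hi hj
              have h3 : i.1 / k = j.1 / k := by
                have := hi.2.trans hj.2.symm
                exact congrArg Fin.val this
              have h4 : i.1 % k = j.1 % k := hij
              apply Fin.ext
              rw [← Nat.div_add_mod i.1 k, ← Nat.div_add_mod j.1 k, h3, h4]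
        _ = k := Finset.card_range k) hs hnd hadm x
  exact ⟨n, hn, i, j, fun h => hij (by rw [h]), h1, h2⟩

theorem exists_tp : ∃ R : ℕ, TP R := by
  obtain ⟨k, hk, hD⟩ := PolD.dhlg4
  exact ⟨4 * k, tp_of_dhlg k hk hD⟩

end Pool.Agent.StrG
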