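import Pool.Agent.StrG.Defs

/-! STRUCTURE ON GROUPS (helper37): the group of the maps `x ↦ a + d x`, `a, d` rational, `d > 0`. -/

set_option autoImplicit false

namespace Pool.Agent.StrG

open Finset Filter Topology

/-- the map `x ↦ a + d x` -/
@[ext] structure Af where
  /-- constant term -/
  a : ℚ
  /-- slope -/
  d : ℚ
  pos : 0 < d

namespace Af

instance : One Af := ⟨⟨0, 1, one_pos⟩⟩

instance : Mul Af := ⟨fun x y => ⟨x.a + x.d * y.a, x.d * y.d, mul_pos x.pos y.pos⟩⟩

instance : Inv Af := ⟨fun x => ⟨-(x.d⁻¹ * x.a), x.d⁻¹, inv_pos.2 x.pos⟩⟩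

@[simp] theorem one_a : (1 : Af).a = 0 := rfl
@[simp] theorem one_d : (1 : Af).d = 1 := rfl
@[simp] theorem mul_a (x y : Af) : (x * y).a = x.a + x.d * y.a := rfl
@[simp] theorem mul_d (x y : Af) : (x * y).d = x.d * y.d := rfl
@[simp] theorem inv_a (x : Af) : (x⁻¹).a = -(x.d⁻¹ * x.a) := rfl
@[simp] theorem inv_d (x : Af) : (x⁻¹).d = x.d⁻¹ := rfl

instance : Group Af :=
  Group.ofLeftAxioms
    (fun x y z => by
      ext
      · simp only [mul_a, mul_d]; ring
      · simp only [mul_d]; ring)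
    (fun x => by
      ext
      · simp
      · simp)
    (fun x => by
      have h := x.pos.ne'
      ext
      · simp only [mul_a, inv_a, inv_d, one_a]; ring
      · simp only [mul_d, inv_d, one_d]; exact inv_mul_cancel₀ h)

end Af

/-- the pair `(a, d)` as a map -/
def mp (a : ℤ) (d : ℕ) (hd : 0 < d) : Af := ⟨a, d, by exact_mod_cast hd⟩

/-- the translation by one -/
def tau : Af := ⟨1, 1, one_pos⟩

/-- multiplication by `s` -/
def dil (s : ℕ) (hs : 0 < s) : Af := ⟨0, s, by exact_mod_cast hs⟩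

theorem mp_mul (a a' : ℤ) (d d' : ℕ) (hd : 0 < d) (hd' : 0 < d') :
    mp a d hd * mp a' d' hd' = mp (a + d * a') (d * d') (Nat.mul_pos hd hd') := by
  ext
  · simp [mp]
  · simp [mp]

theorem mp_mul_tau (a : ℤ) (d : ℕ) (hd : 0 < d) : mp a d hd * tau = mp (a + d) d hd := by
  ext
  · simp [mp, tau]
  · simp [mp, tau]

theorem mp_mul_dil (a : ℤ) (d s : ℕ) (hd : 0 < d) (hs : 0 < s) :
    mp a d hd * dil s hs = mp a (d * s) (Nat.mul_pos hd hs) := by
  ext
  · simp [mp, dil]
  · simp [mp, dil]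

theorem mp_inj {a a' : ℤ} {d d' : ℕ} {hd : 0 < d} {hd' : 0 < d'} (h : mp a d hd = mp a' d' hd') : a = a' ∧ d = d' := by
  have h1 := congrArg Af.a h
  have h2 := congrArg Af.d h
  simp only [mp] at h1 h2
  exact ⟨by exact_mod_cast h1, by exact_mod_cast h2⟩

/-- powers of the translation by one -/
theorem tau_pow (n : ℕ) : tau ^ n = ⟨n, 1, one_pos⟩ := by
  induction n with
  | zero =>
    ext
    · simp
    · simp
  | succ n ih =>
    rw [pow_succ, ih]
    ext
    · simp [tau]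
    · simp [tau]

/-- AFF1.  The translation by one and the multiplications by positive integers generate the group. -/
theorem closure_top : Subgroup.closure (insert tau {x : Af | ∃ (s : ℕ) (hs : 0 < s), x = dil s hs}) = ⊤ := by
  set K := Subgroup.closure (insert tau {x : Af | ∃ (s : ℕ) (hs : 0 < s), x = dil s hs}) with hK
  have h1 : tau ∈ K := Subgroup.subset_closure (Set.mem_insert _ _)
  have h2 : ∀ (s : ℕ) (hs : 0 < s), dil s hs ∈ K := fun s hs =>
    Subgroup.subset_closure (Set.mem_insert_of_mem _ ⟨s, hs, rfl⟩)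
  -- dilations by rationals
  have h3 : ∀ (r : ℚ) (hr : 0 < r), (⟨0, r, hr⟩ : Af) ∈ K := by
    intro r hr
    have hn : 0 < r.num := Rat.num_pos.2 hr
    obtain ⟨n, hn'⟩ : ∃ n : ℕ, (n : ℤ) = r.num := ⟨r.num.toNat, Int.toNat_of_nonneg hn.le⟩
    have hn0 : 0 < n := by
      have : (0 : ℤ) < n := by rw [hn']; exact hn
      exact_mod_cast this
    have h4 := K.mul_mem (K.inv_mem (h2 r.den r.den_pos)) (h2 n hn0)
    have h5 : (⟨0, r, hr⟩ : Af) = (dil r.den r.den_pos)⁻¹ * dil n hn0 := by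
      ext
      · simp [dil]
      · simp only [dil, Af.mul_d, Af.inv_d]
        have h6 : (n : ℚ) = r.num := by exact_mod_cast hn'
        rw [h6]
        have h7 := Rat.num_div_den r
        field_simp at h7 ⊢
        linarith
    rw [h5]
    exact h4
  -- translations
  have h4 : ∀ n : ℕ, (⟨(n : ℚ), 1, one_pos⟩ : Af) ∈ K := fun n => by
    rw [← tau_pow]
    exact K.pow_mem h1 n
  have h5 : ∀ r : ℚ, 0 < r → (⟨r, 1, one_pos⟩ : Af) ∈ K := by
    intro r hr
    have h6 := K.mul_mem (K.mul_mem (h3 r hr) h1) (K.inv_mem (h3 r hr))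
    have h7 : (⟨r, 1, one_pos⟩ : Af) = ⟨0, r, hr⟩ * tau * (⟨0, r, hr⟩ : Af)⁻¹ := by
      ext
      · simp [tau]
      · simp only [tau, Af.mul_d, Af.inv_d, mul_one]
        exact (mul_inv_cancel₀ hr.ne').symm
    rw [h7]
    exact h6
  rw [eq_top_iff]
  intro x _
  have hx : x = ⟨x.a, 1, one_pos⟩ * ⟨0, x.d, x.pos⟩ := by
    ext
    · simp
    · simp
  rw [hx]
  refine K.mul_mem ?_ (h3 x.d x.pos)
  rcases lt_trichotomy x.a 0 with h | h | h
  · have h6 := K.inv_mem (h5 (-x.a) (by linarith))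
    have h7 : (⟨x.a, 1, one_pos⟩ : Af) = (⟨-x.a, 1, one_pos⟩ : Af)⁻¹ := by
      ext
      · simp
      · simp
    rw [h7]
    exact h6
  · rw [h]
    exact h4 0 |> fun h => by simpa using h
  · exact h5 x.a h

end Pool.Agent.StrG
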