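import Pool.Agent.StrG.Defs

/-! STRUCTURE ON GROUPS (helper37): module ALG (functions with finite dimensional orbit span). -/

set_option autoImplicit false

namespace Pool.Agent.StrG

open Finset Filter Topology

variable {G : Type} [Group G] {κ : Type} [Fintype κ] [DecidableEq κ] (π : G →* Matrix.unitaryGroup κ ℂ)

/-- ALG1.  Functions with finite dimensional orbit span: the translates `f (x y)` lie in a finite dimensional space of functions. -/
def FDf (f : G → ℂ) : Prop := ∃ W : Submodule ℂ (G → ℂ), FiniteDimensional ℂ W ∧ ∀ y : G, (fun x => f (x * y)) ∈ W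

/-- ALG2 -/
theorem FDf.add {f g : G → ℂ} (hf : FDf f) (hg : FDf g) : FDf fun x => f x + g x := by
  obtain ⟨W, hW1, hW2⟩ := hf
  obtain ⟨V, hV1, hV2⟩ := hg
  exact ⟨W ⊔ V, inferInstance, fun y => Submodule.add_mem_sup (hW2 y) (hV2 y)⟩

/-- ALG3.  PROOF: the products of a basis of `W_f` and a basis of `W_g` span a finite dimensional space
(image of `W_f ⊗ W_g`, or `Submodule.span` of a finite set of products). -/
theorem FDf.mul {f g : G → ℂ} (hf : FDf f) (hg : FDf g) : FDf fun x => f x * g x := by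
  obtain ⟨W, hW1, hW2⟩ := hf
  obtain ⟨V, hV1, hV2⟩ := hg
  have h1 : W.FG := Module.Finite.iff_fg.mp hW1
  have h2 : V.FG := Module.Finite.iff_fg.mp hV1
  exact ⟨W * V, Module.Finite.iff_fg.mpr (h1.mul h2), fun y => Submodule.mul_mem_mul (hW2 y) (hV2 y)⟩

/-- ALG4 -/
theorem FDf.const (c : ℂ) : FDf fun _ : G => c := by
  exact ⟨Submodule.span ℂ {fun _ => c}, inferInstance, fun y => Submodule.mem_span_singleton_self _⟩

/-- ALG5.  PROOF: `π (x y) i j = ∑_k π x i k * π y k j`. -/
theorem FDf.entry (i j : κ) : FDf fun x => (π x : Matrix κ κ ℂ) i j := by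
  refine ⟨Submodule.span ℂ (Set.range fun k : κ => fun x : G => (π x : Matrix κ κ ℂ) i k),
    FiniteDimensional.span_of_finite ℂ (Set.finite_range _), fun y => ?_⟩
  have h1 : (fun x => (π (x * y) : Matrix κ κ ℂ) i j) =
      ∑ k : κ, (π y : Matrix κ κ ℂ) k j • (fun x : G => (π x : Matrix κ κ ℂ) i k) := by
    funext x
    rw [map_mul, Submonoid.coe_mul, Matrix.mul_apply, Finset.sum_apply]
    refine Finset.sum_congr rfl fun k _ => ?_
    rw [Pi.smul_apply, smul_eq_mul, mul_comm]
  rw [h1]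
  exact Submodule.sum_mem _ fun k _ => Submodule.smul_mem _ _ (Submodule.subset_span ⟨k, rfl⟩)

/-- ALG6.  PROOF: `conj (π (x y) i j) = ∑_k conj (π x i k) * conj (π y k j)`. -/
theorem FDf.entry_conj (i j : κ) : FDf fun x => (starRingEnd ℂ) ((π x : Matrix κ κ ℂ) i j) := by
  refine ⟨Submodule.span ℂ (Set.range fun k : κ => fun x : G => (starRingEnd ℂ) ((π x : Matrix κ κ ℂ) i k)),
    FiniteDimensional.span_of_finite ℂ (Set.finite_range _), fun y => ?_⟩
  have h1 : (fun x => (starRingEnd ℂ) ((π (x * y) : Matrix κ κ ℂ) i j)) =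
      ∑ k : κ, (starRingEnd ℂ) ((π y : Matrix κ κ ℂ) k j) •
        (fun x : G => (starRingEnd ℂ) ((π x : Matrix κ κ ℂ) i k)) := by
    funext x
    rw [map_mul, Submonoid.coe_mul, Matrix.mul_apply, Finset.sum_apply, map_sum]
    refine Finset.sum_congr rfl fun k _ => ?_
    rw [Pi.smul_apply, smul_eq_mul, map_mul, mul_comm]
  rw [h1]
  exact Submodule.sum_mem _ fun k _ => Submodule.smul_mem _ _ (Submodule.subset_span ⟨k, rfl⟩)

private theorem alg_sum {ι : Type*} (s : Finset ι) (f : ι → G → ℂ) (hf : ∀ i ∈ s, FDf (f i)) :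
    FDf fun x => ∑ i ∈ s, f i x := by
  classical
  induction s using Finset.induction_on with
  | empty => simpa using FDf.const (G := G) 0
  | insert i s hi ih =>
    have h1 := (hf i (mem_insert_self i s)).add (ih fun j hj => hf j (mem_insert_of_mem hj))
    have h2 : (fun x => ∑ j ∈ insert i s, f j x) = fun x => f i x + ∑ j ∈ s, f j x := by
      funext x
      rw [sum_insert hi]
    rw [h2]
    exact h1

private theorem alg_pow {f : G → ℂ} (hf : FDf f) (n : ℕ) : FDf fun x => f x ^ n := by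
  induction n with
  | zero => simpa using FDf.const (G := G) 1
  | succ n ih =>
    have h2 : (fun x => f x ^ (n + 1)) = fun x => f x ^ n * f x := by
      funext x
      rw [pow_succ]
    rw [h2]
    exact ih.mul hf

/-- ALG7.  PROOF: `‖z‖² = z * conj z`, ALG2 - ALG6. -/
theorem FDf.hs : FDf fun x => ((hs π x : ℝ) : ℂ) := by
  have h1 : (fun x => ((StrG.hs π x : ℝ) : ℂ)) = fun x => ∑ i : κ, ∑ j : κ,
      (((π x : Matrix κ κ ℂ) i j + -(1 : Matrix κ κ ℂ) i j) *
        ((starRingEnd ℂ) ((π x : Matrix κ κ ℂ) i j) + (starRingEnd ℂ) (-(1 : Matrix κ κ ℂ) i j))) := by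
    funext x
    unfold StrG.hs
    rw [Complex.ofReal_sum]
    refine Finset.sum_congr rfl fun i _ => ?_
    rw [Complex.ofReal_sum]
    refine Finset.sum_congr rfl fun j _ => ?_
    rw [← map_add, ← sub_eq_add_neg, Complex.mul_conj', Complex.ofReal_pow]
  rw [h1]
  refine alg_sum _ _ fun i _ => alg_sum _ _ fun j _ => ?_
  exact ((FDf.entry π i j).add (FDf.const _)).mul ((FDf.entry_conj π i j).add (FDf.const _))

/-- ALG8.  PROOF: powers and sums (ALG2, 3, 4, 7). -/
theorem FDf.poly (P : Polynomial ℝ) : FDf fun x => ((P.eval (StrG.hs π x) : ℝ) : ℂ) := by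
  have h1 : (fun x => ((P.eval (StrG.hs π x) : ℝ) : ℂ)) = fun x => ∑ i ∈ Finset.range (P.natDegree + 1),
      ((P.coeff i : ℝ) : ℂ) * ((StrG.hs π x : ℝ) : ℂ) ^ i := by
    funext x
    rw [Polynomial.eval_eq_sum_range, Complex.ofReal_sum]
    refine Finset.sum_congr rfl fun i _ => ?_
    rw [Complex.ofReal_mul, Complex.ofReal_pow]
  rw [h1]
  exact alg_sum _ _ fun i _ => (FDf.const _).mul (alg_pow (FDf.hs π) i)

end Pool.Agent.StrG
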