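import Pool.Agent.StrG.Defs

/-! STRUCTURE ON GROUPS (helper37): module DEC (the almost periodic part). -/

set_option autoImplicit false

namespace Pool.Agent.StrG

open Finset Filter Topology

variable {G : Type} [Group G] {H : Type} [NormedAddCommGroup H] [InnerProductSpace ℂ H]

private theorem dec_map (T : G →* (H ≃ₗᵢ[ℂ] H)) (v : H) (y : G) (w : H)
    (hw : w ∈ Submodule.span ℂ (Set.range fun y : G => T y v)) :
    T y w ∈ Submodule.span ℂ (Set.range fun y : G => T y v) := by
  induction hw using Submodule.span_induction with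
  | mem x hx =>
    obtain ⟨z, rfl⟩ := hx
    refine Submodule.subset_span ⟨y * z, ?_⟩
    simp only [map_mul]
    rfl
  | zero => rw [map_zero]; exact Submodule.zero_mem _
  | add a b _ _ ha hb => rw [map_add]; exact Submodule.add_mem _ ha hb
  | smul c a _ ha => rw [map_smul]; exact Submodule.smul_mem _ _ ha

private theorem dec_self (T : G →* (H ≃ₗᵢ[ℂ] H)) (v : H) :
    v ∈ Submodule.span ℂ (Set.range fun y : G => T y v) := by
  refine Submodule.subset_span ⟨1, ?_⟩
  simp only [map_one]
  rfl

/-- DEC1.  PROOF: `v` in a finite dimensional invariant subspace `W`: the orbit span is contained in `W`. -/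
theorem FDv.of_mem (T : G →* (H ≃ₗᵢ[ℂ] H)) (W : Submodule ℂ H) [FiniteDimensional ℂ W] (hW : ∀ y, ∀ v ∈ W, T y v ∈ W)
    {v : H} (hv : v ∈ W) : FDv T v := by
  have h : Submodule.span ℂ (Set.range fun y : G => T y v) ≤ W := by
    rw [Submodule.span_le]
    rintro _ ⟨y, rfl⟩
    exact hW y v hv
  exact Submodule.finiteDimensional_of_le h

/-- DEC2.  PROOF: the sum of the two orbit spans is finite dimensional and invariant. -/
theorem FDv.add {T : G →* (H ≃ₗᵢ[ℂ] H)} {v w : H} (hv : FDv T v) (hw : FDv T w) : FDv T (v + w) := by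
  haveI h1 : FiniteDimensional ℂ (Submodule.span ℂ (Set.range fun y : G => T y v)) := hv
  haveI h2 : FiniteDimensional ℂ (Submodule.span ℂ (Set.range fun y : G => T y w)) := hw
  refine FDv.of_mem T (Submodule.span ℂ (Set.range fun y : G => T y v) ⊔
    Submodule.span ℂ (Set.range fun y : G => T y w)) ?_ ?_
  · intro y u hu
    rw [Submodule.mem_sup] at hu
    obtain ⟨a, ha, b, hb, rfl⟩ := hu
    rw [map_add]
    exact Submodule.add_mem_sup (dec_map T v y a ha) (dec_map T w y b hb)
  · exact Submodule.add_mem_sup (dec_self T v) (dec_self T w)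

/-- DEC3 -/
theorem FDv.smul {T : G →* (H ≃ₗᵢ[ℂ] H)} (c : ℂ) {v : H} (hv : FDv T v) : FDv T (c • v) := by
  haveI h1 : FiniteDimensional ℂ (Submodule.span ℂ (Set.range fun y : G => T y v)) := hv
  exact FDv.of_mem T (Submodule.span ℂ (Set.range fun y : G => T y v))
    (fun y u hu => dec_map T v y u hu) (Submodule.smul_mem _ c (dec_self T v))

/-- DEC4.  The orbit span is invariant. -/
theorem span_orbit_map (T : G →* (H ≃ₗᵢ[ℂ] H)) (v : H) (y : G) (w : H)
    (hw : w ∈ Submodule.span ℂ (Set.range fun y : G => T y v)) :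
    T y w ∈ Submodule.span ℂ (Set.range fun y : G => T y v) := by
  exact dec_map T v y w hw

/-- DEC5.  PROOF: DEC2, DEC3: the FD vectors form a subspace. -/
theorem mem_span_fd {T : G →* (H ≃ₗᵢ[ℂ] H)} {v : H} : v ∈ Submodule.span ℂ {v : H | FDv T v} ↔ FDv T v := by
  constructor
  · intro h
    induction h using Submodule.span_induction with
    | mem x hx => exact hx
    | zero =>
      refine FDv.of_mem T (⊥ : Submodule ℂ H) (fun y u hu => ?_) (Submodule.zero_mem _)
      rw [Submodule.mem_bot] at hu ⊢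
      rw [hu, map_zero]
    | add a b _ _ ha hb => exact ha.add hb
    | smul c a _ ha => exact ha.smul c
  · intro h
    exact Submodule.subset_span h

/-- DEC6 -/
theorem mem_EG_of_fd {T : G →* (H ≃ₗᵢ[ℂ] H)} {v : H} (hv : FDv T v) : v ∈ EG T := by
  exact Submodule.le_topologicalClosure _ (Submodule.subset_span hv)

/-- DEC7.  PROOF: DEC5 and `Metric.mem_closure_iff`. -/
theorem exists_fd_near {T : G →* (H ≃ₗᵢ[ℂ] H)} {φ : H} (hφ : φ ∈ EG T) (ε : ℝ) (hε : 0 < ε) :
    ∃ v, FDv T v ∧ ‖φ - v‖ < ε := by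
  have h1 : φ ∈ closure ((Submodule.span ℂ {v : H | FDv T v} : Submodule ℂ H) : Set H) := hφ
  obtain ⟨v, hv, hd⟩ := Metric.mem_closure_iff.1 h1 ε hε
  refine ⟨v, mem_span_fd.1 hv, ?_⟩
  rw [← dist_eq_norm]
  exact hd

/-- DEC8.  PROOF: `T y` maps FD vectors to FD vectors (DEC1 with the orbit span, DEC4) and is continuous. -/
theorem EG_map {T : G →* (H ≃ₗᵢ[ℂ] H)} {φ : H} (hφ : φ ∈ EG T) (y : G) : T y φ ∈ EG T := by
  have h1 : φ ∈ closure ((Submodule.span ℂ {v : H | FDv T v} : Submodule ℂ H) : Set H) := hφ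
  have h2 : T y φ ∈ closure ((Submodule.span ℂ {v : H | FDv T v} : Submodule ℂ H) : Set H) := by
    refine map_mem_closure (T y).continuous h1 ?_
    intro v hv
    have hv' : FDv T v := mem_span_fd.1 hv
    haveI h3 : FiniteDimensional ℂ (Submodule.span ℂ (Set.range fun y : G => T y v)) := hv'
    exact mem_span_fd.2 (FDv.of_mem T (Submodule.span ℂ (Set.range fun y : G => T y v))
      (fun z u hu => dec_map T v z u hu) (dec_map T v y v (dec_self T v)))
  exact h2

/-- DEC9.  PROOF: orthogonal projection on the closed subspace `EG T`. -/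
theorem decomp [CompleteSpace H] (T : G →* (H ≃ₗᵢ[ℂ] H)) (f : H) :
    ∃ φ ∈ EG T, ∃ w : H, f = φ + w ∧ ∀ v ∈ EG T, (inner ℂ v w : ℂ) = 0 := by
  haveI : CompleteSpace (EG T) := by
    have hc : IsClosed ((EG T : Submodule ℂ H) : Set H) := Submodule.isClosed_topologicalClosure _
    exact hc.completeSpace_coe
  refine ⟨(EG T).starProjection f, Submodule.starProjection_apply_mem _ _, f - (EG T).starProjection f, ?_, ?_⟩
  · abel
  · intro v hv
    exact (Submodule.mem_orthogonal _ _).1 (Submodule.sub_starProjection_mem_orthogonal f) v hv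

end Pool.Agent.StrG
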