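import Pool.Agent.StrG.MeanB

/-! STRUCTURE ON GROUPS (helper37): module GNR.  Port of the second half of StrA/Gns.lean. -/

set_option autoImplicit false

namespace Pool.Agent.StrG

open Finset Filter Topology

variable {G : Type} [Group G]

variable {M : GMean G} {H : Type} [NormedAddCommGroup H] [InnerProductSpace ℂ H] (R : GRep M H)

/-- GNR1 -/
theorem GRep.sub (f g : G → ℂ) (hf : BdC f) (hg : BdC g) : R.ι (fun x => f x - g x) = R.ι f - R.ι g := by
  have h1 : (fun x => f x - g x) = fun x => f x + (-1 : ℂ) * g x := by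
    funext x; ring
  rw [h1, R.add f (fun x => (-1 : ℂ) * g x) hf (BdC.smul _ hg), R.smul _ g hg, neg_one_smul, sub_eq_add_neg]

/-- GNR2 -/
theorem GRep.norm_le (f : G → ℂ) (C : ℝ) (hC : 0 ≤ C) (hf : ∀ x, ‖f x‖ ≤ C) : ‖R.ι f‖ ≤ C := by
  have h1 : (inner ℂ (R.ι f) (R.ι f) : ℂ) = M.c (fun x => (starRingEnd ℂ) (f x) * f x) := R.inn f f ⟨C, hf⟩ ⟨C, hf⟩
  have h2 : ‖R.ι f‖ ^ 2 = M.m (fun x => ‖f x‖ ^ 2) := by
    have h3 : ((‖R.ι f‖ : ℂ)) ^ 2 = M.c (fun x => (starRingEnd ℂ) (f x) * f x) := by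
      rw [← h1, inner_self_eq_norm_sq_to_K]; rfl
    have h4 : (fun x => ((starRingEnd ℂ) (f x) * f x).re) = fun x => ‖f x‖ ^ 2 := by
      funext x
      rw [mul_comm, Complex.mul_conj, Complex.normSq_eq_norm_sq]
      exact Complex.ofReal_re _
    have h5 := congrArg Complex.re h3
    rw [M.c_re, h4] at h5
    have h6 : ((‖R.ι f‖ : ℂ) ^ 2).re = ‖R.ι f‖ ^ 2 := by
      rw [← Complex.ofReal_pow]; exact Complex.ofReal_re _
    rw [h6] at h5
    exact h5
  have h7 : M.m (fun x => ‖f x‖ ^ 2) ≤ C ^ 2 := by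
    have := M.abs_le (f := fun x => ‖f x‖ ^ 2) (C := C ^ 2) (fun x => by
      rw [abs_of_nonneg (by positivity)]
      exact pow_le_pow_left₀ (norm_nonneg _) (hf x) 2)
    exact (le_abs_self _).trans this
  rw [← h2] at h7
  exact le_of_sq_le_sq h7 hC

/-- GNR4 -/
theorem GRep.re_inner (f g : G → ℝ) (hf : Bd f) (hg : Bd g) :
    (inner ℂ (R.ι fun x => (f x : ℂ)) (R.ι fun x => (g x : ℂ))) = ((M.m fun x => f x * g x : ℝ) : ℂ) := by
  rw [R.inn _ _ (bdC_of hf) (bdC_of hg), ← M.c_ofReal]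
  congr 1
  funext x
  rw [Complex.conj_ofReal, ← Complex.ofReal_mul]

/-- GNR5 -/
theorem GRep.sum {ι' : Type*} (s : Finset ι') (f : ι' → G → ℂ) (hf : ∀ i ∈ s, BdC (f i)) :
    R.ι (fun x => ∑ i ∈ s, f i x) = ∑ i ∈ s, R.ι (f i) := by
  classical
  have key : BdC (fun x => ∑ i ∈ s, f i x) ∧ R.ι (fun x => ∑ i ∈ s, f i x) = ∑ i ∈ s, R.ι (f i) := by
    induction s using Finset.induction_on with
    | empty =>
      refine ⟨⟨0, fun x => by simp⟩, ?_⟩
      have := R.smul 0 (fun _ => (0 : ℂ)) ⟨0, fun x => by simp⟩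
      simpa using this
    | insert a s ha ih =>
      have ih' := ih (fun i hi => hf i (Finset.mem_insert_of_mem hi))
      have hfa := hf a (Finset.mem_insert_self a s)
      have h1 : (fun x => ∑ i ∈ insert a s, f i x) = fun x => f a x + ∑ i ∈ s, f i x := by
        funext x
        rw [Finset.sum_insert ha]
      rw [h1, Finset.sum_insert ha]
      exact ⟨BdC.add hfa ih'.1, by rw [R.add _ _ hfa ih'.1, ih'.2]⟩
  exact key.2

end Pool.Agent.StrG
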