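import Pool.Agent.StrG.Defs

/-! STRUCTURE ON GROUPS (helper37): basic properties of means. -/

set_option autoImplicit false

namespace Pool.Agent.StrG

open Finset Filter Topology

section basic
variable {X : Type}

theorem bd01 {f : X → ℝ} (hf : ∀ x, 0 ≤ f x ∧ f x ≤ 1) : Bd f :=
  ⟨1, fun x => by rw [abs_of_nonneg (hf x).1]; exact (hf x).2⟩

theorem ind01 (E : Set X) (x : X) : 0 ≤ ind E x ∧ ind E x ≤ 1 := by
  unfold ind
  by_cases h : x ∈ E <;> simp [h]

theorem bd_ind (E : Set X) : Bd (ind E) := bd01 (ind01 E)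

theorem Bd.add {f g : X → ℝ} (hf : Bd f) (hg : Bd g) : Bd fun x => f x + g x := by
  obtain ⟨C, hC⟩ := hf
  obtain ⟨D, hD⟩ := hg
  exact ⟨C + D, fun x => (abs_add_le _ _).trans (add_le_add (hC x) (hD x))⟩

theorem Bd.mul {f g : X → ℝ} (hf : Bd f) (hg : Bd g) : Bd fun x => f x * g x := by
  obtain ⟨C, hC⟩ := hf
  obtain ⟨D, hD⟩ := hg
  exact ⟨C * D, fun x => by
    rw [abs_mul]
    exact mul_le_mul (hC x) (hD x) (abs_nonneg _) ((abs_nonneg _).trans (hC x))⟩

theorem Bd.const (c : ℝ) : Bd fun _ : X => c := ⟨|c|, fun _ => le_rfl⟩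

theorem Bd.smul {f : X → ℝ} (c : ℝ) (hf : Bd f) : Bd fun x => c * f x := (Bd.const c).mul hf

theorem Bd.comp {Y : Type} {f : X → ℝ} (hf : Bd f) (g : Y → X) : Bd fun x => f (g x) := by
  obtain ⟨C, hC⟩ := hf
  exact ⟨C, fun x => hC _⟩

theorem Bd.sub {f g : X → ℝ} (hf : Bd f) (hg : Bd g) : Bd fun x => f x - g x := by
  have h1 := hf.add (hg.smul (-1))
  have h2 : (fun x => f x - g x) = fun x => f x + (-1) * g x := by
    funext x
    ring
  rw [h2]
  exact h1

theorem Bd.sum {ι : Type*} (s : Finset ι) (f : ι → X → ℝ) (hf : ∀ i ∈ s, Bd (f i)) :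
    Bd fun x => ∑ i ∈ s, f i x := by
  classical
  induction s using Finset.induction_on with
  | empty => simpa using Bd.const 0
  | insert i s hi ih =>
    have h1 := (hf i (mem_insert_self i s)).add (ih fun j hj => hf j (mem_insert_of_mem hj))
    have h2 : (fun x => ∑ j ∈ insert i s, f j x) = fun x => f i x + ∑ j ∈ s, f j x := by
      funext x
      rw [sum_insert hi]
    rw [h2]
    exact h1

theorem GMean.sub (M : GMean X) {f g : X → ℝ} (hf : Bd f) (hg : Bd g) :
    M.m (fun x => f x - g x) = M.m f - M.m g := by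
  have h1 := M.add' f (fun x => (-1) * g x) hf (hg.smul (-1))
  rw [M.smul' (-1) g hg] at h1
  have h2 : (fun x => f x - g x) = fun x => f x + (-1) * g x := by
    funext x
    ring
  rw [h2, h1]
  ring

theorem GMean.mono (M : GMean X) {f g : X → ℝ} (hf : Bd f) (hg : Bd g) (h : ∀ x, f x ≤ g x) : M.m f ≤ M.m g := by
  have h1 := M.sub hg hf
  have h2 := M.nonneg' _ (hg.sub hf) fun x => sub_nonneg.2 (h x)
  linarith

theorem GMean.zero (M : GMean X) : M.m (fun _ => 0) = 0 := by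
  have h1 := M.smul' 0 (fun _ => 1) (Bd.const 1)
  simpa using h1

theorem GMean.const (M : GMean X) (c : ℝ) : M.m (fun _ => c) = c := by
  have h1 := M.smul' c (fun _ => 1) (Bd.const 1)
  rw [M.one', mul_one] at h1
  simpa using h1

theorem GMean.sum (M : GMean X) {ι : Type*} (s : Finset ι) (f : ι → X → ℝ) (hf : ∀ i ∈ s, Bd (f i)) :
    M.m (fun x => ∑ i ∈ s, f i x) = ∑ i ∈ s, M.m (f i) := by
  classical
  induction s using Finset.induction_on with
  | empty => simpa using M.zero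
  | insert i s hi ih =>
    have h1 : (fun x => ∑ j ∈ insert i s, f j x) = fun x => f i x + ∑ j ∈ s, f j x := by
      funext x
      rw [sum_insert hi]
    rw [h1, sum_insert hi, M.add' _ _ (hf i (mem_insert_self i s))
      (Bd.sum s f fun j hj => hf j (mem_insert_of_mem hj)),
      ih fun j hj => hf j (mem_insert_of_mem hj)]

theorem GMean.abs_le (M : GMean X) {f : X → ℝ} {C : ℝ} (hf : ∀ x, |f x| ≤ C) : |M.m f| ≤ C := by
  have hb : Bd f := ⟨C, hf⟩
  rw [_root_.abs_le]
  constructor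
  · have h1 := M.mono (Bd.const (-C)) hb fun x => (_root_.abs_le.1 (hf x)).1
    rwa [M.const] at h1
  · have h1 := M.mono hb (Bd.const C) fun x => (_root_.abs_le.1 (hf x)).2
    rwa [M.const] at h1

/-- Jensen for a positive functional -/
theorem GMean.jensen (M : GMean X) {ω g : X → ℝ} (hω : ∀ x, 0 ≤ ω x ∧ ω x ≤ 1) (hg : ∀ x, 0 ≤ g x ∧ g x ≤ 1)
    (k : ℕ) (hk : 0 < k) : (M.m fun x => ω x * g x) ^ k ≤ M.m fun x => ω x * g x ^ k := by
  have hωb : Bd ω := bd01 hω
  have hgb : Bd g := bd01 hg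
  obtain ⟨j, rfl⟩ : ∃ j, k = j + 1 := ⟨k - 1, by omega⟩
  have hgk : Bd fun x => g x ^ (j + 1) := ⟨1, fun x => by
    rw [abs_of_nonneg (pow_nonneg (hg x).1 _)]
    exact pow_le_one₀ (hg x).1 (hg x).2⟩
  set t := M.m fun x => ω x * g x with ht
  have ht0 : 0 ≤ t := M.nonneg' _ (hωb.mul hgb) fun x => mul_nonneg (hω x).1 (hg x).1
  have key : ∀ (j : ℕ) (y : ℝ), 0 ≤ y → (j + 1) * t ^ j * y - j * t ^ (j + 1) ≤ y ^ (j + 1) := by
    intro j y hy
    induction j with
    | zero => simp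
    | succ j ih =>
      have h1 : y ^ (j + 1 + 1) - ((((j + 1 : ℕ) : ℝ) + 1) * t ^ (j + 1) * y
          - ((j + 1 : ℕ) : ℝ) * t ^ (j + 1 + 1))
          = y * (y ^ (j + 1) - ((j + 1) * t ^ j * y - j * t ^ (j + 1)))
            + (j + 1) * t ^ j * (y - t) ^ 2 := by
        push_cast
        ring
      have h2 : 0 ≤ y * (y ^ (j + 1) - ((j + 1) * t ^ j * y - j * t ^ (j + 1))) :=
        mul_nonneg hy (sub_nonneg.2 ih)
      have h3 : 0 ≤ ((j : ℝ) + 1) * t ^ j * (y - t) ^ 2 := by positivity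
      linarith
  have hωone : M.m ω ≤ 1 := by
    have h1 := M.mono hωb (Bd.const 1) fun x => (hω x).2
    rwa [M.const] at h1
  have h1 : M.m (fun x => ((j + 1) * t ^ j) * (ω x * g x) - (j * t ^ (j + 1)) * ω x)
      ≤ M.m fun x => ω x * g x ^ (j + 1) := by
    refine M.mono (((hωb.mul hgb).smul _).sub (hωb.smul _)) (hωb.mul hgk) fun x => ?_
    have h2 := mul_le_mul_of_nonneg_left (key j (g x) (hg x).1) (hω x).1
    calc ((j : ℝ) + 1) * t ^ j * (ω x * g x) - j * t ^ (j + 1) * ω x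
        = ω x * ((j + 1) * t ^ j * g x - j * t ^ (j + 1)) := by ring
      _ ≤ _ := h2
  rw [M.sub ((hωb.mul hgb).smul _) (hωb.smul _), M.smul' _ _ (hωb.mul hgb), M.smul' _ _ hωb,
    ← ht] at h1
  have h4 : (j : ℝ) * t ^ (j + 1) * M.m ω ≤ j * t ^ (j + 1) * 1 :=
    mul_le_mul_of_nonneg_left hωone (by positivity)
  have h5 : ((j : ℝ) + 1) * t ^ j * t = j * t ^ (j + 1) + t ^ (j + 1) := by ring
  linarith

theorem mul01 {f g : X → ℝ} (hf : ∀ x, 0 ≤ f x ∧ f x ≤ 1) (hg : ∀ x, 0 ≤ g x ∧ g x ≤ 1) (x : X) :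
    0 ≤ f x * g x ∧ f x * g x ≤ 1 :=
  ⟨mul_nonneg (hf x).1 (hg x).1, mul_le_one₀ (hf x).2 (hg x).1 (hg x).2⟩

theorem pow01 {g : X → ℝ} (hg : ∀ x, 0 ≤ g x ∧ g x ≤ 1) (k : ℕ) (x : X) : 0 ≤ g x ^ k ∧ g x ^ k ≤ 1 :=
  ⟨pow_nonneg (hg x).1 _, pow_le_one₀ (hg x).1 (hg x).2⟩

/-! complex functions -/

theorem BdC.add {f g : X → ℂ} (hf : BdC f) (hg : BdC g) : BdC fun x => f x + g x := by
  obtain ⟨C, hC⟩ := hf
  obtain ⟨D, hD⟩ := hg
  exact ⟨C + D, fun x => (norm_add_le _ _).trans (add_le_add (hC x) (hD x))⟩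

theorem BdC.mul {f g : X → ℂ} (hf : BdC f) (hg : BdC g) : BdC fun x => f x * g x := by
  obtain ⟨C, hC⟩ := hf
  obtain ⟨D, hD⟩ := hg
  exact ⟨C * D, fun x => by
    rw [norm_mul]
    exact mul_le_mul (hC x) (hD x) (norm_nonneg _) ((norm_nonneg _).trans (hC x))⟩

theorem BdC.conj {f : X → ℂ} (hf : BdC f) : BdC fun x => (starRingEnd ℂ) (f x) := by
  obtain ⟨C, hC⟩ := hf
  exact ⟨C, fun x => by rw [RCLike.norm_conj]; exact hC x⟩

theorem BdC.const (c : ℂ) : BdC fun _ : X => c := ⟨‖c‖, fun _ => le_rfl⟩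

theorem BdC.smul {f : X → ℂ} (c : ℂ) (hf : BdC f) : BdC fun x => c * f x := (BdC.const c).mul hf

theorem BdC.comp {Y : Type} {f : X → ℂ} (hf : BdC f) (g : Y → X) : BdC fun x => f (g x) := by
  obtain ⟨C, hC⟩ := hf
  exact ⟨C, fun x => hC _⟩

theorem BdC.re {f : X → ℂ} (hf : BdC f) : Bd fun x => (f x).re := by
  obtain ⟨C, hC⟩ := hf
  exact ⟨C, fun x => (Complex.abs_re_le_norm _).trans (hC x)⟩

theorem BdC.im {f : X → ℂ} (hf : BdC f) : Bd fun x => (f x).im := by
  obtain ⟨C, hC⟩ := hf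
  exact ⟨C, fun x => (Complex.abs_im_le_norm _).trans (hC x)⟩

theorem BdC.sum {ι : Type*} (s : Finset ι) (f : ι → X → ℂ) (hf : ∀ i ∈ s, BdC (f i)) :
    BdC fun x => ∑ i ∈ s, f i x := by
  classical
  induction s using Finset.induction_on with
  | empty => simpa using BdC.const 0
  | insert i s hi ih =>
    have h1 := (hf i (mem_insert_self i s)).add (ih fun j hj => hf j (mem_insert_of_mem hj))
    have h2 : (fun x => ∑ j ∈ insert i s, f j x) = fun x => f i x + ∑ j ∈ s, f j x := by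
      funext x
      rw [sum_insert hi]
    rw [h2]
    exact h1

theorem bdC_of {f : X → ℝ} (hf : Bd f) : BdC fun x => (f x : ℂ) := by
  obtain ⟨C, hC⟩ := hf
  exact ⟨C, fun x => by simpa using hC x⟩

theorem GMean.c_add (M : GMean X) {f g : X → ℂ} (hf : BdC f) (hg : BdC g) :
    M.c (fun x => f x + g x) = M.c f + M.c g := by
  unfold GMean.c
  have h1 : (fun x => (f x + g x).re) = fun x => (f x).re + (g x).re := rfl
  have h2 : (fun x => (f x + g x).im) = fun x => (f x).im + (g x).im := rfl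
  rw [h1, h2, M.add' _ _ hf.re hg.re, M.add' _ _ hf.im hg.im]
  push_cast
  ring

theorem GMean.c_smul (M : GMean X) (c : ℂ) {f : X → ℂ} (hf : BdC f) :
    M.c (fun x => c * f x) = c * M.c f := by
  unfold GMean.c
  have h1 : (fun x => (c * f x).re) = fun x => c.re * (f x).re + (-c.im) * (f x).im := by
    funext x; rw [Complex.mul_re]; ring
  have h2 : (fun x => (c * f x).im) = fun x => c.re * (f x).im + c.im * (f x).re := by
    funext x; rw [Complex.mul_im]
  rw [h1, h2, M.add' _ _ (hf.re.smul _) (hf.im.smul _), M.add' _ _ (hf.im.smul _) (hf.re.smul _),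
    M.smul' _ _ hf.re, M.smul' _ _ hf.im, M.smul' _ _ hf.im, M.smul' _ _ hf.re]
  apply Complex.ext
  · simp
    ring
  · simp

theorem GMean.c_conj (M : GMean X) {f : X → ℂ} (hf : BdC f) :
    M.c (fun x => (starRingEnd ℂ) (f x)) = (starRingEnd ℂ) (M.c f) := by
  unfold GMean.c
  have h1 : (fun x => ((starRingEnd ℂ) (f x)).re) = fun x => (f x).re := rfl
  have h2 : (fun x => ((starRingEnd ℂ) (f x)).im) = fun x => (-1) * (f x).im := by
    funext x; rw [Complex.conj_im]; ring
  rw [h1, h2, M.smul' _ _ hf.im]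
  apply Complex.ext
  · simp
  · simp

theorem GMean.c_re (M : GMean X) (f : X → ℂ) : (M.c f).re = M.m fun x => (f x).re := by
  unfold GMean.c
  simp

/-- a real function as a complex function -/
theorem GMean.c_ofReal (M : GMean X) (f : X → ℝ) : M.c (fun x => (f x : ℂ)) = (M.m f : ℂ) := by
  unfold GMean.c
  have h1 : (fun x => ((f x : ℂ)).re) = f := by funext x; exact Complex.ofReal_re _
  have h2 : (fun x => ((f x : ℂ)).im) = fun _ => 0 := by funext x; exact Complex.ofReal_im _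
  rw [h1, h2, M.zero]
  simp

/-- `‖M.c f‖ ≤ M ‖f‖` -/
theorem GMean.c_norm_le (M : GMean X) {f : X → ℂ} (hf : BdC f) : ‖M.c f‖ ≤ M.m fun x => ‖f x‖ := by
  have hbn : Bd fun x => ‖f x‖ := by
    obtain ⟨C, hC⟩ := hf
    exact ⟨C, fun x => by rw [abs_of_nonneg (norm_nonneg _)]; exact hC x⟩
  rcases eq_or_ne (M.c f) 0 with h0 | h0
  · rw [h0, norm_zero]
    exact M.nonneg' _ hbn fun x => norm_nonneg _
  · have hn : (0 : ℝ) < ‖M.c f‖ := norm_pos_iff.2 h0
    obtain ⟨u, hu⟩ : ∃ u : ℂ, u = (starRingEnd ℂ) (M.c f) / ‖M.c f‖ := ⟨_, rfl⟩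
    have hu1 : ‖u‖ = 1 := by
      rw [hu, norm_div, RCLike.norm_conj, Complex.norm_real, Real.norm_eq_abs, abs_of_pos hn, div_self hn.ne']
    have hu2 : u * M.c f = ‖M.c f‖ := by
      rw [hu, div_mul_eq_mul_div, mul_comm, Complex.mul_conj, Complex.normSq_eq_norm_sq]
      have : (‖M.c f‖ : ℂ) ≠ 0 := by exact_mod_cast hn.ne'
      push_cast
      field_simp
    have h1 : M.m (fun x => (u * f x).re) = ‖M.c f‖ := by
      rw [← M.c_re, M.c_smul u hf, hu2]
      exact Complex.ofReal_re _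
    rw [← h1]
    refine M.mono (hf.smul u).re hbn fun x => ?_
    calc (u * f x).re ≤ ‖u * f x‖ := Complex.re_le_norm _
      _ = ‖f x‖ := by rw [norm_mul, hu1, one_mul]

end basic

section group
variable {G : Type} [Group G]

/-- the mean `f ↦ M (f (x⁻¹))` -/
def GMean.inv (M : GMean G) : GMean G where
  m f := M.m fun x => f x⁻¹
  add' f g hf hg := M.add' _ _ (hf.comp _) (hg.comp _)
  smul' c f hf := M.smul' c _ (hf.comp _)
  nonneg' f hf h := M.nonneg' _ (hf.comp _) fun x => h _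
  one' := M.one'

theorem RInv.inv {M : GMean G} (h : RInv M) : LInv M.inv := by
  intro y f hf
  have h1 := h y⁻¹ (fun x => f x⁻¹) (hf.comp _)
  show M.m (fun x => f (y * x⁻¹)) = M.m fun x => f x⁻¹
  rw [← h1]
  congr 1
  funext x
  congr 1
  group

theorem LInv.inv {M : GMean G} (h : LInv M) : RInv M.inv := by
  intro y f hf
  have h1 := h y⁻¹ (fun x => f x⁻¹) (hf.comp _)
  show M.m (fun x => f (x⁻¹ * y)) = M.m fun x => f x⁻¹
  rw [← h1]
  congr 1
  funext x
  congr 1
  group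

/-- a positive mean, and a null set for left invariant means -/
theorem exists_point {M : GMean G} (hM : RInv M) {f : G → ℝ} (hf : ∀ x, 0 ≤ f x ∧ f x ≤ 1) (hpos : 0 < M.m f)
    {E : Set G} (hE : NullL E) : ∃ x, 0 < f x ∧ x⁻¹ ∉ E := by
  by_contra hcon
  push Not at hcon
  have h1 := M.mono (bd01 hf) ((bd_ind E).comp fun x => x⁻¹) fun x => by
    by_cases hx : x⁻¹ ∈ E
    · have : ind E x⁻¹ = 1 := by unfold ind; simp [hx]
      rw [this]
      exact (hf x).2
    · have h2 : ¬ 0 < f x := fun h => hx (hcon x h)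
      exact (not_lt.1 h2).trans (ind01 E _).1
  have h2 : M.m (fun x => ind E x⁻¹) = 0 := hE M.inv hM.inv
  rw [h2] at h1
  linarith

theorem GMean.ind_union_le {X : Type} (M : GMean X) (E F : Set X) : M.m (ind (E ∪ F)) ≤ M.m (ind E) + M.m (ind F) := by
  rw [← M.add' _ _ (bd_ind E) (bd_ind F)]
  refine M.mono (bd_ind _) ((bd_ind E).add (bd_ind F)) fun x => ?_
  by_cases h : x ∈ E ∪ F
  · have h1 : ind (E ∪ F) x = 1 := by unfold ind; simp only [Set.indicator_of_mem h]
    rw [h1]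
    rcases h with h | h
    · have h2 : ind E x = 1 := by unfold ind; simp only [Set.indicator_of_mem h]
      have h3 := (ind01 F x).1
      linarith
    · have h2 : ind F x = 1 := by unfold ind; simp only [Set.indicator_of_mem h]
      have h3 := (ind01 E x).1
      linarith
  · have h1 : ind (E ∪ F) x = 0 := by unfold ind; simp only [Set.indicator_of_notMem h]
    rw [h1]
    have h2 := (ind01 E x).1
    have h3 := (ind01 F x).1
    linarith

theorem GMean.ind_mono {X : Type} (M : GMean X) {E F : Set X} (h : E ⊆ F) : M.m (ind E) ≤ M.m (ind F) := by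
  refine M.mono (bd_ind E) (bd_ind F) fun x => ?_
  by_cases hx : x ∈ E
  · have h1 : ind E x = 1 := by unfold ind; simp only [Set.indicator_of_mem hx]
    have h2 : ind F x = 1 := by unfold ind; simp only [Set.indicator_of_mem (h hx)]
    rw [h1, h2]
  · have h1 : ind E x = 0 := by unfold ind; simp only [Set.indicator_of_notMem hx]
    rw [h1]
    exact (ind01 F x).1

theorem NullL.union {E F : Set G} (hE : NullL E) (hF : NullL F) : NullL (E ∪ F) := by
  intro M hM
  refine le_antisymm ?_ (M.nonneg' _ (bd_ind _) fun x => (ind01 _ x).1)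
  have h := M.ind_union_le E F
  rw [hE M hM, hF M hM] at h
  linarith

theorem NullL.mono {E F : Set G} (hE : NullL E) (h : F ⊆ E) : NullL F := by
  intro M hM
  refine le_antisymm ?_ (M.nonneg' _ (bd_ind _) fun x => (ind01 _ x).1)
  have h1 := M.ind_mono h
  rw [hE M hM] at h1
  exact h1

theorem nullL_empty : NullL (∅ : Set G) := by
  intro M _
  have : ind (∅ : Set G) = fun _ => 0 := by funext x; unfold ind; simp
  rw [this]
  exact M.zero

/-- invariance under a generating set -/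
theorem rinv_of_closure (M : GMean G) (S : Set G) (hS : Subgroup.closure S = ⊤)
    (h : ∀ y ∈ S, ∀ f : G → ℝ, Bd f → M.m (fun x => f (x * y)) = M.m f) : RInv M := by
  intro y
  have hy : y ∈ Subgroup.closure S := by rw [hS]; exact Subgroup.mem_top y
  induction hy using Subgroup.closure_induction with
  | mem x hx => exact h x hx
  | one =>
    intro f _
    simp only [mul_one]
  | mul a b _ _ ha hb =>
    intro f hf
    have h1 := ha (fun x => f (x * b)) (hf.comp _)
    rw [hb f hf] at h1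
    rw [← h1]
    congr 1
    funext x
    rw [mul_assoc]
  | inv a _ ha =>
    intro f hf
    have h1 := ha (fun x => f (x * a⁻¹)) (hf.comp _)
    rw [← h1]
    congr 1
    funext x
    congr 1
    group

end group

end Pool.Agent.StrG
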