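import Pool.Agent.StrG.Defs

/-! STRUCTURE ON GROUPS (helper37): module TEN (tent functions). -/

set_option autoImplicit false

namespace Pool.Agent.StrG

open Finset Filter Topology

variable {G : Type} [Group G] {κ : Type} [Fintype κ] [DecidableEq κ] (π : G →* Matrix.unitaryGroup κ ℂ)

/-- TEN1 -/
theorem hs_nonneg (x : G) : 0 ≤ hs π x := by
  unfold hs
  exact sum_nonneg fun i _ => sum_nonneg fun j _ => sq_nonneg _

/-- TEN2.  Entries of a unitary matrix have norm `≤ 1`, so all terms are `≤ 4`. -/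
theorem hs_le (x : G) : hs π x ≤ 4 * (Fintype.card κ : ℝ) ^ 2 := by
  have h1 : ∀ i j, ‖(π x : Matrix κ κ ℂ) i j - (1 : Matrix κ κ ℂ) i j‖ ^ 2 ≤ 4 := by
    intro i j
    have h2 : ‖(π x : Matrix κ κ ℂ) i j‖ ≤ 1 := entry_norm_bound_of_unitary (π x).2 i j
    have h3 : ‖(1 : Matrix κ κ ℂ) i j‖ ≤ 1 := by
      rw [Matrix.one_apply]
      split_ifs <;> simp
    have h4 : ‖(π x : Matrix κ κ ℂ) i j - (1 : Matrix κ κ ℂ) i j‖ ≤ 2 :=
      (norm_sub_le _ _).trans (by linarith)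
    nlinarith [norm_nonneg ((π x : Matrix κ κ ℂ) i j - (1 : Matrix κ κ ℂ) i j)]
  unfold hs
  calc ∑ i, ∑ j, ‖(π x : Matrix κ κ ℂ) i j - (1 : Matrix κ κ ℂ) i j‖ ^ 2
      ≤ ∑ _i : κ, ∑ _j : κ, (4 : ℝ) := sum_le_sum fun i _ => sum_le_sum fun j _ => h1 i j
    _ = 4 * (Fintype.card κ : ℝ) ^ 2 := by
      simp only [sum_const, card_univ, nsmul_eq_mul]
      ring

/-- TEN3 -/
theorem tent01 (ρ : ℝ) (x : G) : 0 ≤ tent π ρ x ∧ tent π ρ x ≤ 1 := by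
  unfold tent
  refine ⟨le_max_left _ _, max_le zero_le_one ?_⟩
  have h1 : 0 ≤ hs π x / ρ ^ 2 := div_nonneg (hs_nonneg π x) (sq_nonneg _)
  linarith

/-- TEN4.  `tent > 0` gives `hs < ρ²`, so every entry of `π x - 1` has norm `< ρ`. -/
theorem tent_pos_mem (ρ : ℝ) (hρ : 0 < ρ) (x : G) (h : 0 < tent π ρ x) : x ∈ near π ρ := by
  unfold tent at h
  have h1 : 0 < 1 - hs π x / ρ ^ 2 := by
    rcases lt_max_iff.1 h with h2 | h2
    · exact absurd h2 (lt_irrefl _)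
    · exact h2
  have h2 : hs π x < ρ ^ 2 := by
    have h3 : hs π x / ρ ^ 2 < 1 := by linarith
    rwa [div_lt_one (by positivity)] at h3
  intro i j
  have h3 : ‖(π x : Matrix κ κ ℂ) i j - (1 : Matrix κ κ ℂ) i j‖ ^ 2 ≤ hs π x := by
    unfold hs
    calc ‖(π x : Matrix κ κ ℂ) i j - (1 : Matrix κ κ ℂ) i j‖ ^ 2
        ≤ ∑ j, ‖(π x : Matrix κ κ ℂ) i j - (1 : Matrix κ κ ℂ) i j‖ ^ 2 :=
          single_le_sum (f := fun j => ‖(π x : Matrix κ κ ℂ) i j - (1 : Matrix κ κ ℂ) i j‖ ^ 2)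
            (fun j _ => sq_nonneg _) (mem_univ j)
      _ ≤ _ := single_le_sum
          (f := fun i => ∑ j, ‖(π x : Matrix κ κ ℂ) i j - (1 : Matrix κ κ ℂ) i j‖ ^ 2)
            (fun i _ => sum_nonneg fun j _ => sq_nonneg _) (mem_univ i)
  exact lt_of_pow_lt_pow_left₀ 2 hρ.le (h3.trans_lt h2)

/-- TEN5.  `ρ' = ρ / (2 (card κ + 1))`: `hs ≤ card² ρ'² ≤ ρ² / 4`. -/
theorem le_tent (ρ : ℝ) (hρ : 0 < ρ) : ∃ ρ' : ℝ, 0 < ρ' ∧ ∀ x ∈ near π ρ', 1 / 2 ≤ tent π ρ x := by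
  have hc : (0 : ℝ) ≤ (Fintype.card κ : ℝ) := Nat.cast_nonneg _
  refine ⟨ρ / (2 * ((Fintype.card κ : ℝ) + 1)), by positivity, fun x hx => ?_⟩
  set ρ' := ρ / (2 * ((Fintype.card κ : ℝ) + 1)) with hρ'
  have hρ'0 : 0 < ρ' := by positivity
  have h1 : hs π x ≤ (Fintype.card κ : ℝ) ^ 2 * ρ' ^ 2 := by
    unfold hs
    calc ∑ i, ∑ j, ‖(π x : Matrix κ κ ℂ) i j - (1 : Matrix κ κ ℂ) i j‖ ^ 2
        ≤ ∑ _i : κ, ∑ _j : κ, ρ' ^ 2 := sum_le_sum fun i _ => sum_le_sum fun j _ =>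
          pow_le_pow_left₀ (norm_nonneg _) (hx i j).le 2
      _ = (Fintype.card κ : ℝ) ^ 2 * ρ' ^ 2 := by
        simp only [sum_const, card_univ, nsmul_eq_mul]
        ring
  have h2 : (Fintype.card κ : ℝ) ^ 2 * ρ' ^ 2 ≤ ρ ^ 2 / 4 := by
    have h3 : (Fintype.card κ : ℝ) * ρ' ≤ ρ / 2 := by
      rw [hρ', mul_div_assoc', div_le_iff₀ (by positivity)]
      nlinarith
    have h4 : 0 ≤ (Fintype.card κ : ℝ) * ρ' := by positivity
    nlinarith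
  have h3 : hs π x / ρ ^ 2 ≤ 1 / 2 := by
    rw [div_le_iff₀ (by positivity)]
    nlinarith [sq_nonneg ρ]
  unfold tent
  exact le_max_of_le_right (by linarith)

end Pool.Agent.StrG
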