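import Pool.Agent.StrG.Alg
import Pool.Agent.StrG.Ten
import Pool.Agent.StrG.Gnr
import Pool.Agent.StrG.Dec
import Pool.Agent.StrG.MeanB

/-! STRUCTURE ON GROUPS (helper37): module ALM (tent functions are almost periodic). -/

set_option autoImplicit false

namespace Pool.Agent.StrG

open Finset Filter Topology

variable {G : Type} [Group G] {κ : Type} [Fintype κ] [DecidableEq κ] (π : G →* Matrix.unitaryGroup κ ℂ)

variable {M : GMean G} {H : Type} [NormedAddCommGroup H] [InnerProductSpace ℂ H]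

/-- the bounded functions in a space of functions -/
private def almB (W : Submodule ℂ (G → ℂ)) : Submodule ℂ (G → ℂ) where
  carrier := {g | g ∈ W ∧ BdC g}
  add_mem' := fun ha hb => ⟨W.add_mem ha.1 hb.1, ha.2.add hb.2⟩
  zero_mem' := ⟨W.zero_mem, BdC.const 0⟩
  smul_mem' := fun c _ ha => ⟨W.smul_mem c ha.1, ha.2.smul c⟩

/-- `ι` on the bounded functions of `W` -/
private def almL (R : GRep M H) (W : Submodule ℂ (G → ℂ)) : almB W →ₗ[ℂ] H where
  toFun g := R.ι g
  map_add' f g := R.add f g f.2.2 g.2.2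
  map_smul' c f := R.smul c f f.2.2

/-- ALG9.  PROOF: let `W` be the finite dimensional space of ALG1; `W' = {g ∈ W : g bounded}` is a finite dimensional space and `ι` is linear
on it (`R.add`, `R.smul`), so `ι (W')` is finite dimensional; it contains all `T y (ι f) = ι (f (x y))`.  So `FDv R.T (ι f)`, and `mem_EG_of_fd`. -/
theorem FDf.mem (R : GRep M H) {f : G → ℂ} (hb : BdC f) (hf : FDf f) : R.ι f ∈ EG R.T := by
  obtain ⟨W, hW1, hW2⟩ := hf
  apply mem_EG_of_fd
  have h1 : almB W ≤ W := fun g hg => hg.1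
  have h2 : FiniteDimensional ℂ (almB W) := Submodule.finiteDimensional_of_le h1
  have h3 : FiniteDimensional ℂ (LinearMap.range (almL R W)) := inferInstance
  refine Submodule.finiteDimensional_of_le (S₂ := LinearMap.range (almL R W)) ?_
  rw [Submodule.span_le]
  rintro _ ⟨y, rfl⟩
  refine ⟨⟨fun x => f (x * y), hW2 y, hb.comp fun x => x * y⟩, ?_⟩
  exact (R.shift y f hb).symm

/-- ALG10.  PROOF: `u ↦ max 0 (1 - u / ρ²)` is continuous on `[0, 4 card²]`, so a uniform limit of polynomials (Weierstrass,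
`exists_polynomial_near_continuousOn`); by ALG8, ALG9 and `GRep.norm_le`, `GRep.sub` the vector is a limit of elements of the closed set `EG`. -/
theorem tent_mem (R : GRep M H) (ρ : ℝ) (hρ : 0 < ρ) : R.ι (fun x => ((tent π ρ x : ℝ) : ℂ)) ∈ EG R.T := by
  have hcl : IsClosed (EG R.T : Set H) := Submodule.isClosed_topologicalClosure _
  rw [← SetLike.mem_coe, ← hcl.closure_eq, Metric.mem_closure_iff]
  intro ε hε
  obtain ⟨P, hP⟩ := exists_polynomial_near_of_continuousOn 0 (4 * (Fintype.card κ : ℝ) ^ 2)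
    (fun u => max 0 (1 - u / ρ ^ 2)) (by fun_prop) (ε / 2) (by positivity)
  have h1 : ∀ x, |P.eval (hs π x) - tent π ρ x| < ε / 2 := fun x =>
    hP _ ⟨hs_nonneg π x, hs_le π x⟩
  have hbt : BdC (fun x => ((tent π ρ x : ℝ) : ℂ)) := bdC_of (bd01 (tent01 π ρ))
  have hbP : BdC (fun x => ((P.eval (hs π x) : ℝ) : ℂ)) := by
    refine bdC_of ⟨1 + ε / 2, fun x => ?_⟩
    have h2 := abs_lt.1 (h1 x)
    have h3 := tent01 π ρ x
    rw [abs_le]
    constructor <;> linarith
  refine ⟨_, FDf.mem R hbP (FDf.poly π P), ?_⟩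
  rw [dist_eq_norm, ← R.sub _ _ hbt hbP]
  refine lt_of_le_of_lt (R.norm_le _ (ε / 2) (by positivity) fun x => ?_) (by linarith)
  rw [← Complex.ofReal_sub, Complex.norm_real, Real.norm_eq_abs, abs_sub_comm]
  exact (h1 x).le

end Pool.Agent.StrG
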