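import Pool.Agent.StrG.Boh
import Pool.Agent.StrG.MeanB

/-! STRUCTURE ON GROUPS (helper37): module BOP (Bohr sets have positive measure). -/

set_option autoImplicit false

namespace Pool.Agent.StrG

open Finset Filter Topology

variable {G : Type} [Group G]

/-- the entries of `A - B` are small: then the entries of `Bᴴ A - 1` and `A Bᴴ - 1` are small. -/
private theorem BOP_small {n : ℕ} (A B : Matrix.unitaryGroup (Fin n) ℂ) (ρ : ℝ) (hρ : 0 < ρ)
    (h : ∀ i j, ‖(A : Matrix (Fin n) (Fin n) ℂ) i j - (B : Matrix (Fin n) (Fin n) ℂ) i j‖ < ρ / (n + 1)) :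
    (∀ i j, ‖((B⁻¹ * A : Matrix.unitaryGroup (Fin n) ℂ) : Matrix (Fin n) (Fin n) ℂ) i j -
      (1 : Matrix (Fin n) (Fin n) ℂ) i j‖ < ρ) ∧
    ∀ i j, ‖((A * B⁻¹ : Matrix.unitaryGroup (Fin n) ℂ) : Matrix (Fin n) (Fin n) ℂ) i j -
      (1 : Matrix (Fin n) (Fin n) ℂ) i j‖ < ρ := by
  have hlt : (n : ℝ) * (ρ / (n + 1)) < ρ := by
    rw [mul_div_assoc', div_lt_iff₀ (by positivity)]
    nlinarith
  have hB : ∀ i j, ‖((B⁻¹ : Matrix.unitaryGroup (Fin n) ℂ) : Matrix (Fin n) (Fin n) ℂ) i j‖ ≤ 1 :=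
    fun i j => entry_norm_bound_of_unitary (B⁻¹).2 i j
  constructor
  · intro i j
    have h1 : ((B⁻¹ * A : Matrix.unitaryGroup (Fin n) ℂ) : Matrix (Fin n) (Fin n) ℂ) -
        (1 : Matrix (Fin n) (Fin n) ℂ) = ((B⁻¹ : Matrix.unitaryGroup (Fin n) ℂ) : Matrix (Fin n) (Fin n) ℂ) *
          ((A : Matrix (Fin n) (Fin n) ℂ) - (B : Matrix (Fin n) (Fin n) ℂ)) := by
      rw [mul_sub]
      have h2 : ((B⁻¹ * B : Matrix.unitaryGroup (Fin n) ℂ) : Matrix (Fin n) (Fin n) ℂ) = 1 := by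
        rw [inv_mul_cancel]
        rfl
      rw [← h2]
      rfl
    rw [← Matrix.sub_apply, h1, Matrix.mul_apply]
    calc ‖∑ k, ((B⁻¹ : Matrix.unitaryGroup (Fin n) ℂ) : Matrix (Fin n) (Fin n) ℂ) i k *
          ((A : Matrix (Fin n) (Fin n) ℂ) - (B : Matrix (Fin n) (Fin n) ℂ)) k j‖
        ≤ ∑ _k : Fin n, ρ / (n + 1) := by
          refine (norm_sum_le _ _).trans (sum_le_sum fun k _ => ?_)
          rw [norm_mul]
          calc _ ≤ 1 * (ρ / (n + 1)) := mul_le_mul (hB i k) (h k j).le (norm_nonneg _) zero_le_one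
            _ = _ := one_mul _
      _ = (n : ℝ) * (ρ / (n + 1)) := by
          rw [sum_const, card_univ, Fintype.card_fin, nsmul_eq_mul]
      _ < ρ := hlt
  · intro i j
    have h1 : ((A * B⁻¹ : Matrix.unitaryGroup (Fin n) ℂ) : Matrix (Fin n) (Fin n) ℂ) -
        (1 : Matrix (Fin n) (Fin n) ℂ) =
          ((A : Matrix (Fin n) (Fin n) ℂ) - (B : Matrix (Fin n) (Fin n) ℂ)) *
          ((B⁻¹ : Matrix.unitaryGroup (Fin n) ℂ) : Matrix (Fin n) (Fin n) ℂ) := by
      rw [sub_mul]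
      have h2 : ((B * B⁻¹ : Matrix.unitaryGroup (Fin n) ℂ) : Matrix (Fin n) (Fin n) ℂ) = 1 := by
        rw [mul_inv_cancel]
        rfl
      rw [← h2]
      rfl
    rw [← Matrix.sub_apply, h1, Matrix.mul_apply]
    calc ‖∑ k, ((A : Matrix (Fin n) (Fin n) ℂ) - (B : Matrix (Fin n) (Fin n) ℂ)) i k *
          ((B⁻¹ : Matrix.unitaryGroup (Fin n) ℂ) : Matrix (Fin n) (Fin n) ℂ) k j‖
        ≤ ∑ _k : Fin n, ρ / (n + 1) := by
          refine (norm_sum_le _ _).trans (sum_le_sum fun k _ => ?_)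
          rw [norm_mul]
          calc _ ≤ (ρ / (n + 1)) * 1 := mul_le_mul (h i k).le (hB k j) (norm_nonneg _) (by positivity)
            _ = _ := mul_one _
      _ = (n : ℝ) * (ρ / (n + 1)) := by
          rw [sum_const, card_univ, Fintype.card_fin, nsmul_eq_mul]
      _ < ρ := hlt

/-- BOP1.  PROOF: let `V = near π ρ`, `π : G → U(n)`.  The entries of unitary matrices have norm `≤ 1`
(`entry_norm_bound_of_unitary`), the set of all `π x` is a bounded subset of the finite dimensional space of functions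
`Fin n → Fin n → ℂ`, so totally bounded: there are finitely many `y ∈ s ⊆ G` such that every `x` has a `y ∈ s` with all entries of
`π x - π y` of norm `< ρ / (n + 1)`.  Then `π (y⁻¹ x) - 1 = (π y)ᴴ (π x - π y)` has entries of norm `≤ n ρ / (n + 1) < ρ`, and
`π (x y⁻¹) - 1 = (π x - π y) (π y)ᴴ` too. -/
theorem exists_cover {V : Set G} (hV : IsBohr V) : ∃ s : Finset G, ∀ x : G, ∃ y ∈ s, y⁻¹ * x ∈ V ∧ x * y⁻¹ ∈ V := by
  classical
  obtain ⟨n, π, ρ, hρ, rfl⟩ := hV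
  obtain ⟨F, hF⟩ : ∃ F : G → Fin n → Fin n → ℂ, ∀ x i j, F x i j =
      ((π x : Matrix.unitaryGroup (Fin n) ℂ) : Matrix (Fin n) (Fin n) ℂ) i j := ⟨fun x i j => _, fun _ _ _ => rfl⟩
  have hb : Set.range F ⊆ Metric.closedBall 0 1 := by
    rintro _ ⟨x, rfl⟩
    rw [mem_closedBall_zero_iff]
    refine (pi_norm_le_iff_of_nonneg zero_le_one).2 fun i => (pi_norm_le_iff_of_nonneg zero_le_one).2 fun j => ?_
    rw [hF]
    exact entry_norm_bound_of_unitary (π x).2 i j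
  have htb : TotallyBounded (Set.range F) := (isCompact_closedBall 0 1).totallyBounded.subset hb
  have hε : 0 < ρ / (n + 1) := by positivity
  obtain ⟨t, hts, htf, ht⟩ := Metric.finite_approx_of_totallyBounded htb (ρ / (n + 1)) hε
  obtain ⟨g, hg⟩ : ∃ g : (Fin n → Fin n → ℂ) → G, ∀ y ∈ t, F (g y) = y := by
    refine ⟨fun y => if h : ∃ x, F x = y then h.choose else 1, fun y hy => ?_⟩
    have h : ∃ x, F x = y := hts hy
    show F (if h : ∃ x, F x = y then h.choose else 1) = y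
    rw [dif_pos h]
    exact h.choose_spec
  refine ⟨htf.toFinset.image g, fun x => ?_⟩
  have hx := ht ⟨x, rfl⟩
  rw [Set.mem_iUnion₂] at hx
  obtain ⟨y, hy, hxy⟩ := hx
  refine ⟨g y, mem_image_of_mem g (htf.mem_toFinset.2 hy), ?_⟩
  have hd : ∀ i j, ‖((π x : Matrix.unitaryGroup (Fin n) ℂ) : Matrix (Fin n) (Fin n) ℂ) i j -
      ((π (g y) : Matrix.unitaryGroup (Fin n) ℂ) : Matrix (Fin n) (Fin n) ℂ) i j‖ < ρ / (n + 1) := by
    intro i j
    rw [Metric.mem_ball] at hxy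
    have h1 := (dist_pi_lt_iff hε).1 ((dist_pi_lt_iff hε).1 hxy i) j
    rw [← hF, ← hF, hg y hy, ← dist_eq_norm]
    exact h1
  have hs := BOP_small (π x) (π (g y)) ρ hρ hd
  refine ⟨fun i j => ?_, fun i j => ?_⟩
  · rw [map_mul, map_inv]
    exact hs.1 i j
  · rw [map_mul, map_inv]
    exact hs.2 i j

/-- BOP2.  PROOF: `1 ≤ ∑_{y ∈ s} ind V (x y⁻¹)`, apply a right invariant mean: `1 ≤ #s * M (ind V)`; similarly
`1 ≤ ∑ ind V (y⁻¹ x)` for left invariant means; `c = 1 / (#s + 1)`. -/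
theorem bohr_pos {V : Set G} (hV : IsBohr V) :
    ∃ c : ℝ, 0 < c ∧ (∀ M : GMean G, RInv M → c ≤ M.m (ind V)) ∧ ∀ M : GMean G, LInv M → c ≤ M.m (ind V) := by
  obtain ⟨s, hs⟩ := exists_cover hV
  have key : ∀ (M : GMean G) (f : G → G → G), (∀ x : G, ∃ y ∈ s, f y x ∈ V) →
      (∀ y, M.m (fun x => ind V (f y x)) = M.m (ind V)) → 1 / ((s.card : ℝ) + 1) ≤ M.m (ind V) := by
    intro M f hf hM
    have h0 : 0 ≤ M.m (ind V) := M.nonneg' _ (bd_ind V) fun x => (ind01 V x).1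
    have h1 : (1 : ℝ) ≤ s.card * M.m (ind V) := by
      calc (1 : ℝ) = M.m (fun _ => 1) := M.one'.symm
        _ ≤ M.m (fun x => ∑ y ∈ s, ind V (f y x)) := by
          refine M.mono (Bd.const 1) (Bd.sum s _ fun y _ => (bd_ind V).comp _) fun x => ?_
          obtain ⟨y, hy, hyV⟩ := hf x
          calc (1 : ℝ) = ind V (f y x) := by
                unfold ind
                rw [Set.indicator_of_mem hyV]
            _ ≤ _ := single_le_sum (f := fun y => ind V (f y x)) (fun y _ => (ind01 V _).1) hy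
        _ = s.card * M.m (ind V) := by
          rw [M.sum s (fun y x => ind V (f y x)) fun y _ => (bd_ind V).comp _, sum_congr rfl fun y _ => hM y,
            sum_const, nsmul_eq_mul]
    rw [div_le_iff₀ (by positivity)]
    linarith
  refine ⟨1 / ((s.card : ℝ) + 1), by positivity, fun M hM => ?_, fun M hM => ?_⟩
  · refine key M (fun y x => x * y⁻¹) (fun x => ?_) fun y => hM y⁻¹ (ind V) (bd_ind V)
    obtain ⟨y, hy, -, h⟩ := hs x
    exact ⟨y, hy, h⟩
  · refine key M (fun y x => y⁻¹ * x) (fun x => ?_) fun y => hM y⁻¹ (ind V) (bd_ind V)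
    obtain ⟨y, hy, h, -⟩ := hs x
    exact ⟨y, hy, h⟩

end Pool.Agent.StrG
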