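import Pool.Agent.StrG.Kcp

/-! STRUCTURE ON GROUPS (helper37): module KCE (eigenspaces of operators with finite trace). -/

set_option autoImplicit false

namespace Pool.Agent.StrG

open Finset Filter Topology

variable {H : Type} [NormedAddCommGroup H] [InnerProductSpace ℂ H]

/-- KCP3.  PROOF: if the eigenspace `E_μ` (`μ /= 0`) is not 0, then `μ = ⟪e, K e⟫ > 0` is real; an orthonormal family of
length `n` in it gives `n μ ≤ C`, so `E_μ` is finite dimensional (an infinite dimensional space contains orthonormal families of every length). -/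
theorem eigen_fd (K : H →L[ℂ] H) (hs : ∀ u v : H, (inner ℂ (K u) v : ℂ) = inner ℂ u (K v))
    (hp : ∀ u : H, 0 ≤ (inner ℂ u (K u) : ℂ).re) (C : ℝ)
    (htr : ∀ (n : ℕ) (e : Fin n → H), Orthonormal ℂ e → ∑ i, (inner ℂ (e i) (K (e i)) : ℂ).re ≤ C)
    (μ : ℂ) (hμ : μ ≠ 0) : FiniteDimensional ℂ (Module.End.eigenspace (K : H →ₗ[ℂ] H) μ) := by
  by_contra hcon
  have hfam := kcp_families (fun v : H => v ∈ Module.End.eigenspace (K : H →ₗ[ℂ] H) μ)
    (fun c v _ hv => Submodule.smul_mem _ c hv) (by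
      intro m e he hpe
      have hle : Submodule.span ℂ (Set.range e) ≤ Module.End.eigenspace (K : H →ₗ[ℂ] H) μ := by
        rw [Submodule.span_le]
        rintro _ ⟨i, rfl⟩
        exact hpe i
      haveI hfd : FiniteDimensional ℂ (Submodule.span ℂ (Set.range e)) :=
        FiniteDimensional.span_of_finite ℂ (Set.finite_range e)
      have hne : ¬ Module.End.eigenspace (K : H →ₗ[ℂ] H) μ ≤ Submodule.span ℂ (Set.range e) := fun h =>
        hcon (Submodule.finiteDimensional_of_le h)
      obtain ⟨x, hx, hxL⟩ := SetLike.not_le_iff_exists.1 hne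
      refine ⟨x - (Submodule.span ℂ (Set.range e)).starProjection x, ?_, ?_, ?_⟩
      · intro i
        exact (Submodule.mem_orthogonal' _ _).1 (Submodule.sub_starProjection_mem_orthogonal x) (e i)
          (Submodule.subset_span ⟨i, rfl⟩)
      · intro h0
        rw [sub_eq_zero] at h0
        apply hxL
        rw [h0]
        exact Submodule.starProjection_apply_mem _ _
      · exact Submodule.sub_mem _ hx (hle (Submodule.starProjection_apply_mem _ _)))
  have hinn : ∀ v : H, ‖v‖ = 1 → v ∈ Module.End.eigenspace (K : H →ₗ[ℂ] H) μ →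
      (inner ℂ v (K v) : ℂ) = μ := by
    intro v hv hvm
    have h1 : K v = μ • v := Module.End.mem_eigenspace_iff.1 hvm
    rw [h1, inner_smul_right, inner_self_eq_norm_sq_to_K, hv]
    norm_num
  have hpos : 0 < μ.re := by
    obtain ⟨e, he, hpe⟩ := hfam 1
    have h1 := hinn (e 0) (he.1 0) (hpe 0)
    have h2 : (inner ℂ (K (e 0)) (e 0) : ℂ) = (starRingEnd ℂ) μ := by
      rw [← h1, inner_conj_symm]
    have h3 := hs (e 0) (e 0)
    rw [h1, h2] at h3
    have h4 : μ.im = 0 := by
      have h5 := congrArg Complex.im h3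
      rw [Complex.conj_im] at h5
      linarith
    have h5 := hp (e 0)
    rw [h1] at h5
    rcases eq_or_lt_of_le h5 with h6 | h6
    · exact absurd (Complex.ext h6.symm h4) hμ
    · exact h6
  obtain ⟨n, hn⟩ := exists_nat_gt (C / μ.re)
  obtain ⟨e, he, hpe⟩ := hfam n
  have h1 := htr n e he
  have h2 : ∑ i, (inner ℂ (e i) (K (e i)) : ℂ).re = n * μ.re := by
    have h3 : ∀ i ∈ (Finset.univ : Finset (Fin n)), (inner ℂ (e i) (K (e i)) : ℂ).re = μ.re := by
      intro i _
      rw [hinn (e i) (he.1 i) (hpe i)]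
    rw [Finset.sum_congr rfl h3, Finset.sum_const, Finset.card_univ, Fintype.card_fin, nsmul_eq_mul]
  rw [div_lt_iff₀ hpos] at hn
  linarith

/-- KCP4.  PROOF: if all eigenspaces for `μ ≠ 0` are trivial, `ContinuousLinearMap.orthogonalComplement_iSup_eigenspaces_eq_bot`
(compact self-adjoint operators, `compact_of_trace`) gives `(ker K)ᗮ = 0`, so `K = 0`. -/
theorem eq_zero_of_eigen [CompleteSpace H] (K : H →L[ℂ] H) (hs : ∀ u v : H, (inner ℂ (K u) v : ℂ) = inner ℂ u (K v))
    (hp : ∀ u : H, 0 ≤ (inner ℂ u (K u) : ℂ).re) (C : ℝ)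
    (htr : ∀ (n : ℕ) (e : Fin n → H), Orthonormal ℂ e → ∑ i, (inner ℂ (e i) (K (e i)) : ℂ).re ≤ C)
    (h0 : ∀ μ : ℂ, μ ≠ 0 → Module.End.eigenspace (K : H →ₗ[ℂ] H) μ = ⊥) : K = 0 := by
  have hc := compact_of_trace K hs hp C htr
  have hsym : (K : H →ₗ[ℂ] H).IsSymmetric := fun u v => hs u v
  refine (ContinuousLinearMap.eq_zero_of_forall_hasEigenvalue_eq_zero hc hsym).1 fun μ hμ => ?_
  by_contra hne
  exact hμ (h0 μ hne)

end Pool.Agent.StrG
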