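import Pool.Agent.StrG.Kex
import Pool.Agent.StrG.Dec
import Pool.Agent.StrG.KcpE

/-! STRUCTURE ON GROUPS (helper37): module KFI (weak mixing). -/

set_option autoImplicit false

namespace Pool.Agent.StrG

open Finset Filter Topology

variable {G : Type} [Group G] {H : Type} [NormedAddCommGroup H] [InnerProductSpace ℂ H]

private theorem kfi_bd (T : G →* (H ≃ₗᵢ[ℂ] H)) (w u : H) :
    Bd fun y : G => ‖(inner ℂ u (T y w) : ℂ)‖ ^ 2 :=
  ⟨(‖u‖ * ‖w‖) ^ 2, fun y => by
    rw [abs_of_nonneg (by positivity)]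
    have h1 := norm_inner_le_norm (𝕜 := ℂ) u (T y w)
    rw [LinearIsometryEquiv.norm_map] at h1
    exact pow_le_pow_left₀ (norm_nonneg _) h1 2⟩

private theorem kfi_inv (T : G →* (H ≃ₗᵢ[ℂ] H)) (z : G) (x : H) : T z (T z⁻¹ x) = x := by
  have h1 : (T z * T z⁻¹) x = x := by
    rw [← map_mul, mul_inv_cancel, map_one]
    rfl
  exact h1

/-- KFI1.  PROOF: `K` from KEX1.  If `v` is in the eigenspace of `K` for `μ ≠ 0`: the eigenspace is finite dimensional (`eigen_fd`) and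
invariant under all `T z` (KEX5), so `v ∈ EG T` (`FDv.of_mem`, `mem_EG_of_fd`).  For `v ∈ EG T`: `⟪T y w, v⟫ = ⟪w, T y⁻¹ v⟫ = 0` (`EG_map`, `hw`), so
`⟪u, K v⟫ = 0` for all `u`, `K v = 0`, `μ v = 0`, `v = 0`.  By `eq_zero_of_eigen` `K = 0`, and KEX3. -/
theorem mean_sq_zero [CompleteSpace H] (N : GMean G) (hN : LInv N) (T : G →* (H ≃ₗᵢ[ℂ] H)) (b w : H)
    (hw : ∀ v ∈ EG T, (inner ℂ v w : ℂ) = 0) : (N.m fun y => ‖(inner ℂ b (T y w) : ℂ)‖ ^ 2) = 0 := by
  obtain ⟨K, hK⟩ := exists_K N T w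
  have hp : ∀ u : H, 0 ≤ (inner ℂ u (K u) : ℂ).re := by
    intro u
    rw [K_re N T w K hK u]
    exact N.nonneg' _ (kfi_bd T w u) fun y => by positivity
  have h0 : K = 0 := by
    refine eq_zero_of_eigen K (K_symm N T w K hK) hp (‖w‖ ^ 2) (K_trace N T w K hK) fun μ hμ => ?_
    haveI hfd := eigen_fd K (K_symm N T w K hK) hp (‖w‖ ^ 2) (K_trace N T w K hK) μ hμ
    rw [Submodule.eq_bot_iff]
    intro v hv
    have hinv : ∀ y : G, ∀ x ∈ Module.End.eigenspace (K : H →ₗ[ℂ] H) μ,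
        T y x ∈ Module.End.eigenspace (K : H →ₗ[ℂ] H) μ := by
      intro y x hx
      have h1 : K x = μ • x := Module.End.mem_eigenspace_iff.1 hx
      refine Module.End.mem_eigenspace_iff.2 ?_
      show K (T y x) = μ • T y x
      rw [← K_comm N hN T w K hK y x, h1, map_smul]
    have hEG : v ∈ EG T := mem_EG_of_fd (FDv.of_mem T _ hinv hv)
    have h1 : K v = μ • v := Module.End.mem_eigenspace_iff.1 hv
    have h2 : K v = 0 := by
      refine ext_inner_left ℂ fun u => ?_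
      rw [hK, inner_zero_right]
      have h3 : (fun y => (inner ℂ u (T y w) : ℂ) * inner ℂ (T y w) v) = fun _ : G => (0 : ℂ) := by
        funext y
        have h4 : (inner ℂ v (T y w) : ℂ) = 0 := by
          have h5 := LinearIsometryEquiv.inner_map_map (T y) (T y⁻¹ v) w
          rw [kfi_inv, hw _ (EG_map hEG y⁻¹)] at h5
          exact h5
        have h6 : (inner ℂ (T y w) v : ℂ) = 0 := by
          rw [← inner_conj_symm, h4, map_zero]
        rw [h6, mul_zero]
      rw [h3]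
      unfold GMean.c
      simp only [Complex.zero_re, Complex.zero_im]
      rw [N.zero]
      simp
    rw [h2] at h1
    rcases smul_eq_zero.1 h1.symm with h7 | h7
    · exact absurd h7 hμ
    · exact h7
  have h8 := K_re N T w K hK b
  rw [h0] at h8
  rw [← h8]
  simp

/-- KFI2.  PROOF: `η² * ind E y ≤ ‖⟪b, T y w⟫‖²` for the set `E`, KFI1. -/
theorem weak_null [CompleteSpace H] (T : G →* (H ≃ₗᵢ[ℂ] H)) (b w : H)
    (hw : ∀ v ∈ EG T, (inner ℂ v w : ℂ) = 0) (η : ℝ) (hη : 0 < η) :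
    NullL {y : G | η < ‖(inner ℂ b (T y w) : ℂ)‖} := by
  intro M hM
  refine le_antisymm ?_ (M.nonneg' _ (bd_ind _) fun x => (ind01 _ x).1)
  have h1 := M.mono ((bd_ind {y : G | η < ‖(inner ℂ b (T y w) : ℂ)‖}).smul (η ^ 2)) (kfi_bd T w b) fun y => by
    by_cases hy : y ∈ {y : G | η < ‖(inner ℂ b (T y w) : ℂ)‖}
    · have h2 : ind {y : G | η < ‖(inner ℂ b (T y w) : ℂ)‖} y = 1 := by
        unfold ind
        exact Set.indicator_of_mem hy _
      rw [h2, mul_one]
      exact pow_le_pow_left₀ hη.le (le_of_lt hy) 2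
    · have h2 : ind {y : G | η < ‖(inner ℂ b (T y w) : ℂ)‖} y = 0 := by
        unfold ind
        exact Set.indicator_of_notMem hy _
      rw [h2, mul_zero]
      positivity
  rw [M.smul' _ _ (bd_ind _), mean_sq_zero M hM T b w hw] at h1
  have h3 : 0 < η ^ 2 := by positivity
  by_contra hcon
  have h4 := mul_pos h3 (not_le.1 hcon)
  linarith

end Pool.Agent.StrG
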