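import Pool.Agent.StrG.Defs

/-! STRUCTURE ON GROUPS (helper37): module BOA (Bohr sets). -/

set_option autoImplicit false

namespace Pool.Agent.StrG

open Finset Filter Topology

variable {G : Type} [Group G]

private theorem BOA_sub {κ κ' : Type} [Fintype κ] [DecidableEq κ] [Fintype κ'] [DecidableEq κ'] (e : κ ≃ κ')
    (A : Matrix.unitaryGroup κ ℂ) :
    (A : Matrix κ κ ℂ).submatrix e.symm e.symm ∈ Matrix.unitaryGroup κ' ℂ := by
  rw [Matrix.mem_unitaryGroup_iff]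
  have h1 : star ((A : Matrix κ κ ℂ).submatrix e.symm e.symm) = (star (A : Matrix κ κ ℂ)).submatrix e.symm e.symm := rfl
  rw [h1, Matrix.submatrix_mul_equiv, Matrix.mem_unitaryGroup_iff.1 A.2, Matrix.submatrix_one_equiv]

/-- BOA1.  PROOF: reindex by `Fintype.equivFin κ`: `π' g i j = π g (e.symm i) (e.symm j)` is unitary and multiplicative
(`Matrix.submatrix`, `Matrix.submatrix_mul_equiv`, `Matrix.conjTranspose_submatrix`). -/
theorem near_fin {κ : Type} [Fintype κ] [DecidableEq κ] (π : G →* Matrix.unitaryGroup κ ℂ) :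
    ∃ π' : G →* Matrix.unitaryGroup (Fin (Fintype.card κ)) ℂ, ∀ ρ : ℝ, near π' ρ = near π ρ := by
  obtain ⟨e, -⟩ : ∃ e : κ ≃ Fin (Fintype.card κ), e = Fintype.equivFin κ := ⟨_, rfl⟩
  refine ⟨MonoidHom.mk' (fun g => ⟨((π g : Matrix.unitaryGroup κ ℂ) : Matrix κ κ ℂ).submatrix e.symm e.symm,
    BOA_sub e (π g)⟩) fun g h => Subtype.ext ?_, fun ρ => ?_⟩
  · show ((π (g * h) : Matrix.unitaryGroup κ ℂ) : Matrix κ κ ℂ).submatrix e.symm e.symm =
      ((π g : Matrix.unitaryGroup κ ℂ) : Matrix κ κ ℂ).submatrix e.symm e.symm *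
        ((π h : Matrix.unitaryGroup κ ℂ) : Matrix κ κ ℂ).submatrix e.symm e.symm
    rw [Matrix.submatrix_mul_equiv, map_mul]
    rfl
  · ext g
    have h1 : ∀ i j, (1 : Matrix (Fin (Fintype.card κ)) (Fin (Fintype.card κ)) ℂ) i j =
        (1 : Matrix κ κ ℂ) (e.symm i) (e.symm j) := by
      intro i j
      rw [Matrix.one_apply, Matrix.one_apply]
      simp only [EmbeddingLike.apply_eq_iff_eq]
    constructor
    · intro h i j
      have h2 := h (e i) (e j)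
      rw [h1, e.symm_apply_apply, e.symm_apply_apply] at h2
      have h3 : (((π g : Matrix.unitaryGroup κ ℂ) : Matrix κ κ ℂ).submatrix e.symm e.symm) (e i) (e j) =
          ((π g : Matrix.unitaryGroup κ ℂ) : Matrix κ κ ℂ) i j := by
        rw [Matrix.submatrix_apply, e.symm_apply_apply, e.symm_apply_apply]
      rw [← h3]
      exact h2
    · intro h i j
      rw [h1]
      exact h (e.symm i) (e.symm j)

/-- BOA2.  Immediate from BOA1. -/
theorem isBohr_near {κ : Type} [Fintype κ] [DecidableEq κ] (π : G →* Matrix.unitaryGroup κ ℂ) (ρ : ℝ) (hρ : 0 < ρ) :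
    IsBohr (near π ρ) := by
  obtain ⟨π', h⟩ := near_fin π
  exact ⟨_, π', ρ, hρ, (h ρ).symm⟩

private theorem BOA_blk {κ κ' : Type} [Fintype κ] [DecidableEq κ] [Fintype κ'] [DecidableEq κ']
    (A : Matrix.unitaryGroup κ ℂ) (B : Matrix.unitaryGroup κ' ℂ) :
    Matrix.fromBlocks (A : Matrix κ κ ℂ) 0 0 (B : Matrix κ' κ' ℂ) ∈ Matrix.unitaryGroup (κ ⊕ κ') ℂ := by
  rw [Matrix.mem_unitaryGroup_iff, Matrix.star_eq_conjTranspose, Matrix.fromBlocks_conjTranspose,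
    Matrix.fromBlocks_multiply]
  have h1 := Matrix.mem_unitaryGroup_iff.1 A.2
  have h2 := Matrix.mem_unitaryGroup_iff.1 B.2
  rw [Matrix.star_eq_conjTranspose] at h1 h2
  simp only [Matrix.conjTranspose_zero, Matrix.mul_zero, Matrix.zero_mul, add_zero, zero_add, h1, h2,
    Matrix.fromBlocks_one]

/-- BOA3.  PROOF: block diagonal sum `Matrix.fromBlocks (π g) 0 0 (π' g)` on `κ ⊕ κ'`; the identity is
`Matrix.fromBlocks 1 0 0 1`. -/
theorem near_sum {κ κ' : Type} [Fintype κ] [DecidableEq κ] [Fintype κ'] [DecidableEq κ']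
    (π : G →* Matrix.unitaryGroup κ ℂ) (π' : G →* Matrix.unitaryGroup κ' ℂ) :
    ∃ π'' : G →* Matrix.unitaryGroup (κ ⊕ κ') ℂ, ∀ ρ : ℝ, 0 < ρ → near π'' ρ = near π ρ ∩ near π' ρ := by
  refine ⟨MonoidHom.mk' (fun g => ⟨_, BOA_blk (π g) (π' g)⟩) fun g h => Subtype.ext ?_, fun ρ hρ => ?_⟩
  · show Matrix.fromBlocks ((π (g * h) : Matrix.unitaryGroup κ ℂ) : Matrix κ κ ℂ) 0 0
        ((π' (g * h) : Matrix.unitaryGroup κ' ℂ) : Matrix κ' κ' ℂ) =
      Matrix.fromBlocks ((π g : Matrix.unitaryGroup κ ℂ) : Matrix κ κ ℂ) 0 0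
        ((π' g : Matrix.unitaryGroup κ' ℂ) : Matrix κ' κ' ℂ) *
      Matrix.fromBlocks ((π h : Matrix.unitaryGroup κ ℂ) : Matrix κ κ ℂ) 0 0
        ((π' h : Matrix.unitaryGroup κ' ℂ) : Matrix κ' κ' ℂ)
    rw [Matrix.fromBlocks_multiply, map_mul, map_mul]
    simp only [Matrix.mul_zero, Matrix.zero_mul, add_zero, zero_add]
    rfl
  · ext g
    constructor
    · intro h
      refine ⟨fun i j => ?_, fun i j => ?_⟩
      · have h1 := h (Sum.inl i) (Sum.inl j)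
        rw [← Matrix.fromBlocks_one] at h1
        exact h1
      · have h1 := h (Sum.inr i) (Sum.inr j)
        rw [← Matrix.fromBlocks_one] at h1
        exact h1
    · rintro ⟨h, h'⟩
      rintro (i | i) (j | j)
      · rw [← Matrix.fromBlocks_one]
        exact h i j
      · rw [← Matrix.fromBlocks_one]
        show ‖(0 : ℂ) - 0‖ < ρ
        simpa using hρ
      · rw [← Matrix.fromBlocks_one]
        show ‖(0 : ℂ) - 0‖ < ρ
        simpa using hρ
      · rw [← Matrix.fromBlocks_one]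
        exact h' i j

/-- BOA4.  PROOF: BOA3 with the smaller radius, BOA2. -/
theorem IsBohr.inter {U V : Set G} (hU : IsBohr U) (hV : IsBohr V) : ∃ W, IsBohr W ∧ W ⊆ U ∧ W ⊆ V := by
  obtain ⟨n, π, ρ, hρ, rfl⟩ := hU
  obtain ⟨m, π', ρ', hρ', rfl⟩ := hV
  obtain ⟨π'', h⟩ := near_sum π π'
  have hr : 0 < min ρ ρ' := lt_min hρ hρ'
  refine ⟨near π'' (min ρ ρ'), isBohr_near π'' _ hr, ?_, ?_⟩
  · rw [h _ hr]
    rintro g ⟨hg, -⟩ i j
    exact (hg i j).trans_le (min_le_left _ _)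
  · rw [h _ hr]
    rintro g ⟨-, hg⟩ i j
    exact (hg i j).trans_le (min_le_right _ _)

/-- BOA5.  PROOF: `π x⁻¹ = (π x)ᴴ`, so `(π x⁻¹) i j - δ i j = conj ((π x) j i - δ j i)`. -/
theorem IsBohr.inv_mem {V : Set G} (hV : IsBohr V) {x : G} (hx : x ∈ V) : x⁻¹ ∈ V := by
  obtain ⟨n, π, ρ, hρ, rfl⟩ := hV
  intro i j
  have h1 : ((π x⁻¹ : Matrix.unitaryGroup (Fin n) ℂ) : Matrix (Fin n) (Fin n) ℂ) i j =
      (starRingEnd ℂ) (((π x : Matrix.unitaryGroup (Fin n) ℂ) : Matrix (Fin n) (Fin n) ℂ) j i) := by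
    rw [map_inv]
    rfl
  have h2 : (1 : Matrix (Fin n) (Fin n) ℂ) i j = (starRingEnd ℂ) ((1 : Matrix (Fin n) (Fin n) ℂ) j i) := by
    rw [Matrix.one_apply, Matrix.one_apply]
    by_cases h : i = j
    · rw [if_pos h, if_pos h.symm, map_one]
    · rw [if_neg h, if_neg (Ne.symm h), map_zero]
  rw [h1, h2, ← map_sub, RCLike.norm_conj]
  exact hx j i

/-- BOA6 -/
theorem isBohr_univ : IsBohr (Set.univ : Set G) := by
  refine ⟨0, 1, 1, one_pos, ?_⟩
  ext g
  refine ⟨fun _ i => i.elim0, fun _ => Set.mem_univ _⟩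

/-- BOA7.  PROOF: `π 1 = 1`. -/
theorem IsBohr.one_mem {V : Set G} (hV : IsBohr V) : (1 : G) ∈ V := by
  obtain ⟨n, π, ρ, hρ, rfl⟩ := hV
  intro i j
  rw [map_one]
  show ‖(1 : Matrix (Fin n) (Fin n) ℂ) i j - (1 : Matrix (Fin n) (Fin n) ℂ) i j‖ < ρ
  rw [sub_self, norm_zero]
  exact hρ

end Pool.Agent.StrG
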