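import Pool.Agent.StrG.Dec
import Pool.Agent.StrG.Boh

/-! STRUCTURE ON GROUPS (helper37): module RET (Bohr recurrence). -/

set_option autoImplicit false

namespace Pool.Agent.StrG

open Finset Filter Topology

variable {G : Type} [Group G] {H : Type} [NormedAddCommGroup H] [InnerProductSpace ℂ H]

private theorem ret_sum (W : Submodule ℂ H) {n : ℕ} (b : OrthonormalBasis (Fin n) ℂ W) (x : H) (hx : x ∈ W) :
    ∑ k, (inner ℂ (b k : H) x : ℂ) • (b k : H) = x := by
  have h1 := b.sum_repr' (⟨x, hx⟩ : W)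
  have h2 := congrArg (Subtype.val) h1
  rw [Submodule.coe_sum] at h2
  exact h2

/-- RET1.  PROOF: `b = stdOrthonormalBasis ℂ W`, `n = finrank`; `π y i j = ⟪b i, T y (b j)⟫`.  Multiplicative:
`T z (b j) = ∑_k ⟪b k, T z (b j)⟫ b k` (in `W`), unitary: `(π y)ᴴ = π y⁻¹` because `⟪b j, T y (b i)⟫` is the conjugate of
`⟪T y (b i), b j⟫ = ⟪b i, T y⁻¹ (b j)⟫`. -/
theorem matrix_rep (T : G →* (H ≃ₗᵢ[ℂ] H)) (W : Submodule ℂ H) [FiniteDimensional ℂ W]
    (hW : ∀ y, ∀ v ∈ W, T y v ∈ W) :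
    ∃ (n : ℕ) (b : OrthonormalBasis (Fin n) ℂ W) (π : G →* Matrix.unitaryGroup (Fin n) ℂ),
      ∀ y i j, (π y : Matrix (Fin n) (Fin n) ℂ) i j = inner ℂ (b i : H) (T y (b j : H)) := by
  obtain ⟨b, hb⟩ : ∃ b : OrthonormalBasis (Fin (Module.finrank ℂ W)) ℂ W, b = stdOrthonormalBasis ℂ W := ⟨_, rfl⟩
  obtain ⟨M, hM⟩ : ∃ M : G → Matrix (Fin (Module.finrank ℂ W)) (Fin (Module.finrank ℂ W)) ℂ,
      ∀ y i j, M y i j = inner ℂ (b i : H) (T y (b j : H)) :=
    ⟨fun y => Matrix.of fun i j => inner ℂ (b i : H) (T y (b j : H)), fun y i j => rfl⟩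
  have hmul : ∀ y z : G, M (y * z) = M y * M z := by
    intro y z
    ext i j
    rw [Matrix.mul_apply, hM]
    have h1 : T (y * z) (b j : H) = ∑ k, (inner ℂ (b k : H) (T z (b j : H)) : ℂ) • T y (b k : H) := by
      have h2 : T (y * z) (b j : H) = T y (T z (b j : H)) := by
        rw [map_mul]
        rfl
      have h3 := ret_sum W b (T z (b j : H)) (hW z _ (b j).2)
      rw [h2]
      conv_lhs => rw [← h3]
      rw [map_sum]
      exact Finset.sum_congr rfl fun k _ => map_smul _ _ _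
    rw [h1, inner_sum]
    refine Finset.sum_congr rfl fun k _ => ?_
    rw [inner_smul_right, hM, hM]
    ring
  have hone : M 1 = 1 := by
    ext i j
    rw [hM, map_one]
    have h1 := (orthonormal_iff_ite.1 b.orthonormal) i j
    rw [Matrix.one_apply]
    exact h1
  have hstar : ∀ y : G, star (M y) = M y⁻¹ := by
    intro y
    ext i j
    rw [Matrix.star_apply, hM, hM]
    show (starRingEnd ℂ) (inner ℂ (b j : H) (T y (b i : H))) = _
    rw [inner_conj_symm]
    have h1 := LinearIsometryEquiv.inner_map_map (T y) (b i : H) (T y⁻¹ (b j : H))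
    have h2 : T y (T y⁻¹ (b j : H)) = (b j : H) := by
      have h3 : (T y * T y⁻¹) (b j : H) = (b j : H) := by
        rw [← map_mul, mul_inv_cancel, map_one]
        rfl
      exact h3
    rw [h2] at h1
    exact h1
  refine ⟨Module.finrank ℂ W, b, MonoidHom.mk' (fun y => ⟨M y, ?_⟩) ?_, ?_⟩
  · rw [Matrix.mem_unitaryGroup_iff', hstar, ← hmul, inv_mul_cancel, hone]
  · intro y z
    exact Subtype.ext (hmul y z)
  · intro y i j
    exact hM y i j

/-- RET2.  PROOF: `v` FD with `‖φ - v‖ < η / 3` (DEC7), `W` = orbit span of `v`, `π` from RET1, `v = ∑ c_j b_j`;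
`T y v - v = ∑_i (∑_j (π y i j - δ i j) c_j) b_i`, of norm `≤ ρ * n * ∑ |c_j|` on `near π ρ`; `ρ` small.  `‖T y φ - φ‖ ≤ 2 ‖φ - v‖ + ..`. -/
theorem bohr_return (T : G →* (H ≃ₗᵢ[ℂ] H)) (φ : H) (hφ : φ ∈ EG T) (η : ℝ) (hη : 0 < η) :
    ∃ V : Set G, IsBohr V ∧ ∀ y ∈ V, ‖T y φ - φ‖ ≤ η := by
  obtain ⟨v, hv, hd⟩ := exists_fd_near hφ (η / 3) (by positivity)
  obtain ⟨W, hWd⟩ : ∃ W : Submodule ℂ H, W = Submodule.span ℂ (Set.range fun y : G => T y v) := ⟨_, rfl⟩
  haveI hfd : FiniteDimensional ℂ W := by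
    rw [hWd]
    exact hv
  have hW : ∀ y, ∀ x ∈ W, T y x ∈ W := by
    intro y x hx
    rw [hWd] at hx ⊢
    exact span_orbit_map T v y x hx
  have hvW : v ∈ W := by
    rw [hWd]
    refine Submodule.subset_span ⟨1, ?_⟩
    simp only [map_one]
    rfl
  obtain ⟨n, b, π, hπ⟩ := matrix_rep T W hW
  obtain ⟨S, hS⟩ : ∃ S : ℝ, S = ∑ j, ‖(inner ℂ (b j : H) v : ℂ)‖ := ⟨_, rfl⟩
  have hS0 : 0 ≤ S := by
    rw [hS]
    exact Finset.sum_nonneg fun j _ => norm_nonneg _
  have hρ : 0 < η / (3 * (n * S + 1)) := by positivity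
  refine ⟨near π (η / (3 * (n * S + 1))), ⟨n, π, _, hρ, rfl⟩, fun y hy => ?_⟩
  have h1 : ∀ j, ‖T y (b j : H) - (b j : H)‖ ≤ n * (η / (3 * (n * S + 1))) := by
    intro j
    have h2 : T y (b j : H) - (b j : H)
        = ∑ i, ((π y : Matrix (Fin n) (Fin n) ℂ) i j - (1 : Matrix (Fin n) (Fin n) ℂ) i j) • (b i : H) := by
      have h3 := ret_sum W b (T y (b j : H)) (hW y _ (b j).2)
      have h4 := ret_sum W b (b j : H) (b j).2
      have h5 : ∑ i, ((π y : Matrix (Fin n) (Fin n) ℂ) i j - (1 : Matrix (Fin n) (Fin n) ℂ) i j) • (b i : H)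
          = ∑ i, (inner ℂ (b i : H) (T y (b j : H)) : ℂ) • (b i : H)
            - ∑ i, (inner ℂ (b i : H) (b j : H) : ℂ) • (b i : H) := by
        rw [← Finset.sum_sub_distrib]
        refine Finset.sum_congr rfl fun i _ => ?_
        have h6 : (1 : Matrix (Fin n) (Fin n) ℂ) i j = inner ℂ (b i : H) (b j : H) := by
          rw [Matrix.one_apply]
          exact ((orthonormal_iff_ite.1 b.orthonormal) i j).symm
        rw [hπ y i j, h6, sub_smul]
      rw [h5, h3, h4]
    rw [h2]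
    calc ‖∑ i, ((π y : Matrix (Fin n) (Fin n) ℂ) i j - (1 : Matrix (Fin n) (Fin n) ℂ) i j) • (b i : H)‖
        ≤ ∑ i, ‖((π y : Matrix (Fin n) (Fin n) ℂ) i j - (1 : Matrix (Fin n) (Fin n) ℂ) i j) • (b i : H)‖ :=
          norm_sum_le _ _
      _ ≤ ∑ _i : Fin n, η / (3 * (n * S + 1)) := by
          refine Finset.sum_le_sum fun i _ => ?_
          have h7 : ‖(b i : H)‖ = 1 := b.orthonormal.1 i
          rw [norm_smul, h7, mul_one]
          exact (hy i j).le
      _ = n * (η / (3 * (n * S + 1))) := by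
          rw [Finset.sum_const, Finset.card_univ, Fintype.card_fin, nsmul_eq_mul]
  have h8 : ‖T y v - v‖ ≤ η / 3 := by
    have h9 := ret_sum W b v hvW
    have h10 : T y v - v = ∑ j, (inner ℂ (b j : H) v : ℂ) • (T y (b j : H) - (b j : H)) := by
      have h11 : ∑ j, (inner ℂ (b j : H) v : ℂ) • (T y (b j : H) - (b j : H))
          = T y (∑ j, (inner ℂ (b j : H) v : ℂ) • (b j : H)) - ∑ j, (inner ℂ (b j : H) v : ℂ) • (b j : H) := by
        rw [map_sum, ← Finset.sum_sub_distrib]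
        refine Finset.sum_congr rfl fun j _ => ?_
        rw [map_smul, smul_sub]
      rw [h11, h9]
    rw [h10]
    calc ‖∑ j, (inner ℂ (b j : H) v : ℂ) • (T y (b j : H) - (b j : H))‖
        ≤ ∑ j, ‖(inner ℂ (b j : H) v : ℂ) • (T y (b j : H) - (b j : H))‖ := norm_sum_le _ _
      _ ≤ ∑ j, ‖(inner ℂ (b j : H) v : ℂ)‖ * (n * (η / (3 * (n * S + 1)))) := by
          refine Finset.sum_le_sum fun j _ => ?_
          rw [norm_smul]
          exact mul_le_mul_of_nonneg_left (h1 j) (norm_nonneg _)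
      _ = S * (n * (η / (3 * (n * S + 1)))) := by
          rw [← Finset.sum_mul, hS]
      _ ≤ η / 3 := by
          have h12 : S * (n * (η / (3 * (n * S + 1)))) = (n * S) / (n * S + 1) * (η / 3) := by
            have h13 : (n : ℝ) * S + 1 ≠ 0 := by positivity
            field_simp
          rw [h12]
          have h14 : (n * S : ℝ) / (n * S + 1) ≤ 1 := by
            rw [div_le_one (by positivity)]
            linarith
          calc (n * S : ℝ) / (n * S + 1) * (η / 3) ≤ 1 * (η / 3) :=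
                mul_le_mul_of_nonneg_right h14 (by positivity)
            _ = η / 3 := one_mul _
  have h15 : T y φ - φ = T y (φ - v) + (T y v - v) - (φ - v) := by
    rw [map_sub]
    abel
  rw [h15]
  have h16 : ‖T y (φ - v)‖ = ‖φ - v‖ := LinearIsometryEquiv.norm_map _ _
  calc ‖T y (φ - v) + (T y v - v) - (φ - v)‖
      ≤ ‖T y (φ - v) + (T y v - v)‖ + ‖φ - v‖ := norm_sub_le _ _
    _ ≤ (‖T y (φ - v)‖ + ‖T y v - v‖) + ‖φ - v‖ := by
        have := norm_add_le (T y (φ - v)) (T y v - v)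
        linarith
    _ ≤ η := by
        rw [h16]
        linarith

end Pool.Agent.StrG
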