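import Pool.Agent.StrG.Gnr
import Pool.Agent.StrG.BohP
import Pool.Agent.StrG.Ret
import Pool.Agent.StrG.Kfi

/-! STRUCTURE ON GROUPS (helper37): module APX. -/

set_option autoImplicit false

namespace Pool.Agent.StrG

open Finset Filter Topology

variable {G : Type} [Group G] {M : GMean G} {H : Type} [NormedAddCommGroup H] [InnerProductSpace ℂ H]

private theorem apx_exc [CompleteSpace H] (T : G →* (H ≃ₗᵢ[ℂ] H)) (w : H)
    (hw : ∀ v ∈ EG T, (inner ℂ v w : ℂ) = 0) (η : ℝ) (hη : 0 < η) (k : ℕ) (v : ℕ → H) :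
    NullL {y : G | ∃ b < k, η < ‖(inner ℂ (v b) (T y w) : ℂ)‖} := by
  induction k with
  | zero => exact nullL_empty.mono (fun n hn => by simp at hn)
  | succ k ih =>
    refine (ih.union (weak_null T (v k) w hw η hη)).mono ?_
    rintro n ⟨b, hb, hbn⟩
    rcases Nat.lt_succ_iff_lt_or_eq.mp hb with h | h
    · exact Or.inl ⟨b, h, hbn⟩
    · subst h; exact Or.inr hbn

private theorem apx_next [CompleteSpace H] (hM : RInv M) (T : G →* (H ≃ₗᵢ[ℂ] H)) (w : H)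
    (hw : ∀ v ∈ EG T, (inner ℂ v w : ℂ) = 0) (η : ℝ) (hη : 0 < η) (k : ℕ) (v : ℕ → H)
    {V : Set G} (hV : IsBohr V) :
    ∃ y ∈ V, ∀ b < k, ‖(inner ℂ (v b) (T y w) : ℂ)‖ ≤ η := by
  obtain ⟨c, hc, -, hcL⟩ := bohr_pos hV
  by_contra hcon
  push Not at hcon
  have h1 := hcL M.inv hM.inv
  have h2 := apx_exc T w hw η hη k v M.inv hM.inv
  have h3 : M.inv.m (ind V) ≤ M.inv.m (ind {y : G | ∃ b < k, η < ‖(inner ℂ (v b) (T y w) : ℂ)‖}) :=
    M.inv.ind_mono fun y hy => hcon y hy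
  linarith

private theorem apx_seq [CompleteSpace H] (hM : RInv M) (T : G →* (H ≃ₗᵢ[ℂ] H)) (w : H)
    (hw : ∀ v ∈ EG T, (inner ℂ v w : ℂ) = 0) (η : ℝ) (hη : 0 < η)
    {V : Set G} (hV : IsBohr V) (k : ℕ) :
    ∃ n : ℕ → G, (∀ a < k, n a ∈ V) ∧
      ∀ a < k, ∀ b < a, ‖(inner ℂ (T (n b) w) (T (n a) w) : ℂ)‖ ≤ η := by
  induction k with
  | zero => exact ⟨fun _ => 1, fun a ha => absurd ha (Nat.not_lt_zero _), fun a ha => absurd ha (Nat.not_lt_zero _)⟩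
  | succ k ih =>
    obtain ⟨n, hn1, hn2⟩ := ih
    obtain ⟨t, ht1, ht2⟩ := apx_next hM T w hw η hη k (fun b => T (n b) w) hV
    refine ⟨Function.update n k t, fun a ha => ?_, fun a ha b hb => ?_⟩
    · rcases Nat.lt_succ_iff_lt_or_eq.mp ha with h | h
      · rw [Function.update_of_ne (by omega)]
        exact hn1 a h
      · subst h
        rw [Function.update_self]
        exact ht1
    · rcases Nat.lt_succ_iff_lt_or_eq.mp ha with h | h
      · rw [Function.update_of_ne (by omega), Function.update_of_ne (by omega)]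
        exact hn2 a h b hb
      · subst h
        rw [Function.update_self, Function.update_of_ne (by omega)]
        exact ht2 b hb

private theorem apx_norm_sq (u : ℕ → H) (L : ℕ) (C η : ℝ)
    (h1 : ∀ a < L, ‖u a‖ ^ 2 ≤ C) (hη : 0 ≤ η)
    (h2 : ∀ a < L, ∀ b < a, ‖(inner ℂ (u b) (u a) : ℂ)‖ ≤ η) :
    ‖∑ a ∈ range L, u a‖ ^ 2 ≤ L * C + L ^ 2 * η := by
  have h3 : ∀ a < L, ∀ b < L, a ≠ b → ‖(inner ℂ (u a) (u b) : ℂ)‖ ≤ η := by
    intro a ha b hb hab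
    rcases lt_or_gt_of_ne hab with h | h
    · exact h2 b hb a h
    · rw [norm_inner_symm]
      exact h2 a ha b h
  have h4 : (‖∑ a ∈ range L, u a‖ ^ 2 : ℝ) = ‖∑ a ∈ range L, ∑ b ∈ range L, (inner ℂ (u a) (u b) : ℂ)‖ := by
    rw [show (∑ a ∈ range L, ∑ b ∈ range L, (inner ℂ (u a) (u b) : ℂ)) =
      (inner ℂ (∑ a ∈ range L, u a) (∑ b ∈ range L, u b) : ℂ) by
        rw [sum_inner]
        refine Finset.sum_congr rfl fun a _ => ?_
        rw [inner_sum]]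
    rw [inner_self_eq_norm_sq_to_K]
    simp
  rw [h4]
  have h5 : ∀ a ∈ range L, ‖∑ b ∈ range L, (inner ℂ (u a) (u b) : ℂ)‖ ≤ C + L * η := by
    intro a ha
    have ha' := Finset.mem_range.mp ha
    rw [← Finset.add_sum_erase _ _ ha]
    refine (norm_add_le _ _).trans (add_le_add ?_ ?_)
    · rw [inner_self_eq_norm_sq_to_K]
      simpa using h1 a ha'
    · refine (norm_sum_le _ _).trans ?_
      refine (Finset.sum_le_card_nsmul _ _ η ?_).trans ?_
      · intro b hb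
        rw [Finset.mem_erase, Finset.mem_range] at hb
        exact h3 a ha' b hb.2 (Ne.symm hb.1)
      · rw [nsmul_eq_mul, Finset.card_erase_of_mem ha, Finset.card_range]
        refine mul_le_mul_of_nonneg_right ?_ hη
        exact_mod_cast Nat.sub_le _ _
  refine (norm_sum_le _ _).trans ((Finset.sum_le_card_nsmul _ _ _ h5).trans (le_of_eq ?_))
  rw [nsmul_eq_mul, Finset.card_range]
  ring

/-- APX (port of `approx` in StrA/Dec.lean).  PROOF: `V` Bohr with `‖T y φ - φ‖ ≤ η / 2` on `V` (RET2), `η' = η² / 8`.  Choose successively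
`y_1, .., y_L ∈ V` (`L ≥ 2 / η'`) with `‖⟪T y_b w, T y_a w⟫‖ ≤ η'` for `b < a`: the exceptional set is NullL (`weak_null`, `NullL.union`) and
`M.inv` is left invariant with `M.inv (ind V) > 0` (`bohr_pos`).  `g x = (1/L) ∑ f (x y_a)`,
`ι g = (1/L) ∑ T y_a φ + (1/L) ∑ T y_a w`, the first is within `η / 2` of `φ`, the second has norm² `≤ ‖w‖² / L + η'`; `‖w‖ ≤ ‖ι f‖ ≤ 1`. -/
theorem approx [CompleteSpace H] (hM : RInv M) (R : GRep M H) (f : G → ℝ) (hf : ∀ x, 0 ≤ f x ∧ f x ≤ 1) (φ w : H)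
    (hfw : R.ι (fun x => (f x : ℂ)) = φ + w) (hφ : φ ∈ EG R.T)
    (hw : ∀ v ∈ EG R.T, (inner ℂ v w : ℂ) = 0) (η : ℝ) (hη : 0 < η) :
    ∃ g : G → ℝ, (∀ x, 0 ≤ g x ∧ g x ≤ 1) ∧ ‖R.ι (fun x => (g x : ℂ)) - φ‖ ≤ η := by
  obtain ⟨V, hV, hret⟩ := bohr_return R.T φ hφ (η / 2) (by positivity)
  obtain ⟨L0, hL0⟩ := exists_nat_ge (‖w‖ ^ 2 / (η ^ 2 / 8))
  set L : ℕ := L0 + 1 with hL
  have hLpos : (0 : ℝ) < L := by rw [hL]; positivity
  obtain ⟨n, hn1, hn2⟩ := apx_seq hM R.T w hw (η ^ 2 / 8) (by positivity) hV L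
  have hbf : BdC (fun x => (f x : ℂ)) := bdC_of (bd01 hf)
  have hbfs : ∀ a, BdC (fun x => (f (x * n a) : ℂ)) := fun a => bdC_of ((bd01 hf).comp fun x => x * n a)
  refine ⟨fun x => (L : ℝ)⁻¹ * ∑ a ∈ range L, f (x * n a), fun x => ⟨?_, ?_⟩, ?_⟩
  · exact mul_nonneg (by positivity) (Finset.sum_nonneg fun a _ => (hf _).1)
  · rw [inv_mul_le_iff₀ hLpos, mul_one]
    refine (Finset.sum_le_card_nsmul _ _ 1 fun a _ => (hf _).2).trans (le_of_eq ?_)
    simp
  · have h1 : R.ι (fun x => (((L : ℝ)⁻¹ * ∑ a ∈ range L, f (x * n a) : ℝ) : ℂ)) =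
        (L : ℂ)⁻¹ • ∑ a ∈ range L, R.T (n a) (φ + w) := by
      have h2 : (fun x => (((L : ℝ)⁻¹ * ∑ a ∈ range L, f (x * n a) : ℝ) : ℂ)) =
          fun x => (L : ℂ)⁻¹ * (∑ a ∈ range L, (f (x * n a) : ℂ)) := by
        funext x; push_cast; rfl
      rw [h2, R.smul _ _ (BdC.sum (range L) (fun a x => (f (x * n a) : ℂ)) fun a _ => hbfs a),
        R.sum (range L) (fun a x => (f (x * n a) : ℂ)) (fun a _ => hbfs a)]
      congr 1
      refine Finset.sum_congr rfl fun a _ => ?_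
      rw [← hfw, R.shift (n a) _ hbf]
    have h3 : R.ι (fun x => (((L : ℝ)⁻¹ * ∑ a ∈ range L, f (x * n a) : ℝ) : ℂ)) - φ =
        (L : ℂ)⁻¹ • ∑ a ∈ range L, (R.T (n a) φ - φ) + (L : ℂ)⁻¹ • ∑ a ∈ range L, R.T (n a) w := by
      have hLc : (L : ℂ) ≠ 0 := by
        have : (L : ℝ) ≠ 0 := hLpos.ne'
        exact_mod_cast this
      rw [h1, Finset.sum_sub_distrib, ← smul_add, Finset.sum_const, Finset.card_range]
      have h4 : φ = (L : ℂ)⁻¹ • (L • φ) := by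
        rw [← Nat.cast_smul_eq_nsmul ℂ, smul_smul, inv_mul_cancel₀ hLc, one_smul]
      conv_lhs => rw [h4]
      rw [← smul_sub]
      congr 1
      rw [← h4]
      simp only [map_add, Finset.sum_add_distrib]
      abel
    have h5 : ‖(L : ℂ)⁻¹ • ∑ a ∈ range L, (R.T (n a) φ - φ)‖ ≤ η / 2 := by
      rw [norm_smul, norm_inv, Complex.norm_natCast, inv_mul_le_iff₀ hLpos]
      refine (norm_sum_le _ _).trans ((Finset.sum_le_card_nsmul _ _ (η / 2) fun a ha => ?_).trans (le_of_eq ?_))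
      · exact hret _ (hn1 a (Finset.mem_range.mp ha))
      · simp
    have h6 : ‖(L : ℂ)⁻¹ • ∑ a ∈ range L, R.T (n a) w‖ ≤ η / 2 := by
      rw [norm_smul, norm_inv, Complex.norm_natCast, inv_mul_le_iff₀ hLpos]
      have h7 := apx_norm_sq (fun a => R.T (n a) w) L (‖w‖ ^ 2) (η ^ 2 / 8)
        (fun a _ => by rw [LinearIsometryEquiv.norm_map]) (by positivity) hn2
      have h8 : ‖w‖ ^ 2 ≤ (η ^ 2 / 8) * L := by
        rw [div_le_iff₀ (by positivity)] at hL0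
        have : (L : ℝ) = L0 + 1 := by rw [hL]; push_cast; ring
        rw [this]
        nlinarith [sq_nonneg η]
      have h9 : ‖∑ a ∈ range L, R.T (n a) w‖ ^ 2 ≤ (L * (η / 2)) ^ 2 := by
        refine h7.trans ?_
        nlinarith [mul_le_mul_of_nonneg_left h8 hLpos.le]
      exact le_of_sq_le_sq h9 (by positivity)
    have h10 : (fun x => (((fun x => (L : ℝ)⁻¹ * ∑ a ∈ range L, f (x * n a)) x : ℝ) : ℂ)) =
        (fun x => (((L : ℝ)⁻¹ * ∑ a ∈ range L, f (x * n a) : ℝ) : ℂ)) := rfl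
    rw [h10, h3]
    refine (norm_add_le _ _).trans ?_
    linarith

end Pool.Agent.StrG
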