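import Pool.Agent.StrG.Step

/-! STRUCTURE ON GROUPS (helper37): modules CLQ, THMG. -/

set_option autoImplicit false

namespace Pool.Agent.StrG

open Finset Filter Topology

variable {G : Type} [Group G]

/-- CLQ. -/
theorem clique (B : Set G) (hB : ∀ V, IsBohr V → ¬ NullR (B ∩ V)) (R : ℕ) :
    ∀ (U : Set G), IsBohr U → ∀ Ex : List G → Set G, (∀ l, NullL (Ex l)) →
      ∃ l : List G, l.length = R ∧ (∀ y ∈ l, y ∈ U) ∧ (∀ (c : ℕ) (hc : c < l.length), l[c] ∉ Ex (l.take c)) ∧
        l.Pairwise fun x y => y⁻¹ * x ∈ B := by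
  induction R with
  | zero =>
    intro U _ Ex _
    exact ⟨[], rfl, by simp, by simp, List.Pairwise.nil⟩
  | succ R ih =>
    intro U hU Ex hEx
    obtain ⟨M, ω, V, Ex', hM, hω, hωU, hV, hVU, hEx', hstep⟩ := step B hB U hU R
    obtain ⟨l, hl, hlV, hlE, hlP⟩ := ih V hV (fun l => Ex l ∪ Ex' l) fun l => (hEx l).union (hEx' l)
    have hpos := hstep l hl hlV fun c hc h => hlE c hc (Or.inr h)
    obtain ⟨x, hx, hxE⟩ := exists_point hM
      (fun x => mul01 hω (prod01 l (ind B) (ind01 B)) x) hpos (hEx l)
    have hx1 : 0 < ω x := by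
      rcases (hω x).1.lt_or_eq with h | h
      · exact h
      · rw [← h, zero_mul] at hx
        exact absurd hx (lt_irrefl _)
    have hx2 : ∀ y ∈ l, x * y ∈ B := by
      intro y hy
      by_contra hcon
      have h1 : ind B (x * y) = 0 := by unfold ind; simp [hcon]
      have h2 : (l.map fun y => ind B (x * y)).prod = 0 :=
        List.prod_eq_zero (List.mem_map.2 ⟨y, hy, h1⟩)
      rw [h2, mul_zero] at hx
      exact lt_irrefl _ hx
    refine ⟨l ++ [x⁻¹], by simp [hl], ?_, ?_, ?_⟩
    · intro y hy
      rcases List.mem_append.1 hy with h | h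
      · exact hVU (hlV y h)
      · rw [List.mem_singleton.1 h]
        exact hU.inv_mem (hωU x hx1)
    · intro c hc
      rcases lt_or_ge c l.length with h | h
      · rw [List.getElem_append_left h, List.take_append_of_le_length h.le]
        exact fun h1 => hlE c h (Or.inl h1)
      · have hc' : c = l.length := by
          simp only [List.length_append, List.length_singleton] at hc
          omega
        subst hc'
        rw [List.getElem_append_right le_rfl, List.take_left']
        · simpa using hxE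
        · rfl
    · rw [List.pairwise_append]
      refine ⟨hlP, List.pairwise_singleton _ _, fun a ha b hb => ?_⟩
      rw [List.mem_singleton.1 hb, inv_inv]
      exact hx2 a ha

/-- **THEOREM G.**  A subset `B` of a group `G` without `x_1, .., x_R`, `x_j x_i⁻¹ ∈ B` for `i < j`, is null on a Bohr set. -/
theorem thmG (B : Set G) (R : ℕ) (hR : ∀ x : Fin R → G, ∃ i j, i < j ∧ x j * (x i)⁻¹ ∉ B) :
    ∃ V : Set G, IsBohr V ∧ NullR (B ∩ V) := by
  by_contra hcon
  push Not at hcon
  obtain ⟨l, hl, -, -, hlP⟩ := clique B hcon R Set.univ isBohr_univ (fun _ => ∅) fun _ => nullL_empty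
  obtain ⟨i, j, hij, hx⟩ := hR fun i => (l[(i : ℕ)]'(by omega))⁻¹
  refine hx ?_
  rw [inv_inv]
  exact List.pairwise_iff_getElem.1 hlP i j (by omega) (by omega) hij

end Pool.Agent.StrG
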