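import Mathlib

/-! STRUCTURE ON GROUPS (helper37): definitions for Theorem G (a subset of a group without R-clique is null on a Bohr set). -/

set_option autoImplicit false

namespace Pool.Agent.StrG

open Finset Filter Topology

/-- bounded real function -/
def Bd {X : Type} (f : X → ℝ) : Prop := ∃ C : ℝ, ∀ x, |f x| ≤ C

/-- bounded complex function -/
def BdC {X : Type} (f : X → ℂ) : Prop := ∃ C : ℝ, ∀ x, ‖f x‖ ≤ C

/-- a mean on `X`: positive normalised linear functional on the bounded functions -/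
structure GMean (X : Type) where
  /-- the functional -/
  m : (X → ℝ) → ℝ
  add' : ∀ f g, Bd f → Bd g → m (fun x => f x + g x) = m f + m g
  smul' : ∀ (c : ℝ) f, Bd f → m (fun x => c * f x) = c * m f
  nonneg' : ∀ f, Bd f → (∀ x, 0 ≤ f x) → 0 ≤ m f
  one' : m (fun _ => 1) = 1

/-- extension of a mean to complex functions -/
noncomputable def GMean.c {X : Type} (M : GMean X) (f : X → ℂ) : ℂ :=
  (M.m fun x => (f x).re : ℂ) + (M.m fun x => (f x).im : ℂ) * Complex.I

/-- indicator function -/
noncomputable def ind {X : Type} (E : Set X) : X → ℝ := E.indicator fun _ => (1 : ℝ)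

variable {G : Type} [Group G]

/-- right invariant mean -/
def RInv (M : GMean G) : Prop := ∀ (y : G) (f : G → ℝ), Bd f → M.m (fun x => f (x * y)) = M.m f

/-- left invariant mean -/
def LInv (M : GMean G) : Prop := ∀ (y : G) (f : G → ℝ), Bd f → M.m (fun x => f (y * x)) = M.m f

/-- null for every right invariant mean -/
def NullR (E : Set G) : Prop := ∀ M : GMean G, RInv M → M.m (ind E) = 0

/-- null for every left invariant mean -/
def NullL (E : Set G) : Prop := ∀ M : GMean G, LInv M → M.m (ind E) = 0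

/-- Bohr neighbourhood of the identity defined by the finite dimensional unitary representation `π` -/
def near {κ : Type} [Fintype κ] [DecidableEq κ] (π : G →* Matrix.unitaryGroup κ ℂ) (ρ : ℝ) : Set G :=
  {g | ∀ i j, ‖(π g : Matrix κ κ ℂ) i j - (1 : Matrix κ κ ℂ) i j‖ < ρ}

/-- Bohr set -/
def IsBohr (V : Set G) : Prop :=
  ∃ (n : ℕ) (π : G →* Matrix.unitaryGroup (Fin n) ℂ) (ρ : ℝ), 0 < ρ ∧ V = near π ρ

/-- square of the Hilbert-Schmidt distance of `π x` to the identity -/
noncomputable def hs {κ : Type} [Fintype κ] [DecidableEq κ] (π : G →* Matrix.unitaryGroup κ ℂ) (x : G) : ℝ :=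
  ∑ i, ∑ j, ‖(π x : Matrix κ κ ℂ) i j - (1 : Matrix κ κ ℂ) i j‖ ^ 2

/-- tent function -/
noncomputable def tent {κ : Type} [Fintype κ] [DecidableEq κ] (π : G →* Matrix.unitaryGroup κ ℂ) (ρ : ℝ) (x : G) : ℝ :=
  max 0 (1 - hs π x / ρ ^ 2)

/-- a Hilbert space representation of the mean `M`; `T y` is the translation `f ↦ f (x y)` -/
structure GRep (M : GMean G) (H : Type) [NormedAddCommGroup H] [InnerProductSpace ℂ H] where
  /-- the class of a bounded function -/
  ι : (G → ℂ) → H
  /-- the translations -/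
  T : G →* (H ≃ₗᵢ[ℂ] H)
  add : ∀ f g, BdC f → BdC g → ι (fun x => f x + g x) = ι f + ι g
  smul : ∀ (c : ℂ) f, BdC f → ι (fun x => c * f x) = c • ι f
  inn : ∀ f g, BdC f → BdC g → inner ℂ (ι f) (ι g) = M.c (fun x => (starRingEnd ℂ) (f x) * g x)
  shift : ∀ (y : G) f, BdC f → T y (ι f) = ι (fun x => f (x * y))
  dense : ∀ v : H, ∀ ε : ℝ, 0 < ε → ∃ f, BdC f ∧ ‖v - ι f‖ < ε

variable {H : Type} [NormedAddCommGroup H] [InnerProductSpace ℂ H]

/-- the orbit of `v` spans a finite dimensional space -/
def FDv (T : G →* (H ≃ₗᵢ[ℂ] H)) (v : H) : Prop :=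
  FiniteDimensional ℂ (Submodule.span ℂ (Set.range fun y : G => T y v))

/-- closed span of the vectors with finite dimensional orbit span -/
noncomputable def EG (T : G →* (H ≃ₗᵢ[ℂ] H)) : Submodule ℂ H :=
  (Submodule.span ℂ {v : H | FDv T v}).topologicalClosure

end Pool.Agent.StrG
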