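import Pool.Agent.StrG.MeanB

/-! STRUCTURE ON GROUPS (helper37): modules GNS, GNR.  Port of StrA/Gns.lean (the shift by `p` is replaced by all right
translations `f ↦ f (x y)`, `T : G →* (H ≃ₗᵢ[ℂ] H)`). -/

set_option autoImplicit false

namespace Pool.Agent.StrG

open Finset Filter Topology

variable {G : Type} [Group G]

/-- the bounded functions -/
private def GNS_sub (G : Type) : Submodule ℂ (G → ℂ) where
  carrier := {f | BdC f}
  add_mem' := fun hf hg => BdC.add hf hg
  zero_mem' := BdC.const 0
  smul_mem' := fun c _ hf => BdC.smul c hf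

private def GNS_V (_ : GMean G) : Type := GNS_sub G

private noncomputable instance GNS_i1 (M : GMean G) : AddCommGroup (GNS_V M) := inferInstanceAs (AddCommGroup (GNS_sub G))
private noncomputable instance GNS_i2 (M : GMean G) : Module ℂ (GNS_V M) := inferInstanceAs (Module ℂ (GNS_sub G))

private def GNS_mk (M : GMean G) (f : G → ℂ) (hf : BdC f) : GNS_V M := ⟨f, hf⟩
private def GNS_fn (M : GMean G) (v : GNS_V M) : G → ℂ := v.1
private theorem GNS_bdd (M : GMean G) (v : GNS_V M) : BdC (GNS_fn M v) := v.2

private theorem GNS_ext (M : GMean G) {v w : GNS_V M} (h : ∀ x, GNS_fn M v x = GNS_fn M w x) : v = w :=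
  Subtype.ext (funext h)

private theorem GNS_fn_add (M : GMean G) (v w : GNS_V M) (x : G) : GNS_fn M (v + w) x = GNS_fn M v x + GNS_fn M w x := rfl
private theorem GNS_fn_smul (M : GMean G) (c : ℂ) (w : GNS_V M) (x : G) : GNS_fn M (c • w) x = c * GNS_fn M w x := rfl

private noncomputable def GNS_core (M : GMean G) : PreInnerProductSpace.Core ℂ (GNS_V M) where
  inner f g := M.c (fun x => (starRingEnd ℂ) (GNS_fn M f x) * GNS_fn M g x)
  conj_inner_symm f g := by
    rw [← M.c_conj (BdC.mul (BdC.conj (GNS_bdd M g)) (GNS_bdd M f))]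
    congr 1
    funext x
    simp [mul_comm]
  re_inner_nonneg f := by
    have h1 : (fun x => ((starRingEnd ℂ) (GNS_fn M f x) * GNS_fn M f x).re) = fun x => ‖GNS_fn M f x‖ ^ 2 := by
      funext x
      rw [mul_comm, Complex.mul_conj, Complex.normSq_eq_norm_sq]
      exact Complex.ofReal_re _
    have h2 : (M.c (fun x => (starRingEnd ℂ) (GNS_fn M f x) * GNS_fn M f x)).re = M.m fun x => ‖GNS_fn M f x‖ ^ 2 := by
      rw [M.c_re, h1]
    show 0 ≤ (M.c (fun x => (starRingEnd ℂ) (GNS_fn M f x) * GNS_fn M f x)).re
    rw [h2]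
    refine M.nonneg' _ ?_ fun x => sq_nonneg _
    rw [← h1]
    exact BdC.re (BdC.mul (BdC.conj (GNS_bdd M f)) (GNS_bdd M f))
  add_left f g h := by
    rw [← M.c_add (BdC.mul (BdC.conj (GNS_bdd M f)) (GNS_bdd M h)) (BdC.mul (BdC.conj (GNS_bdd M g)) (GNS_bdd M h))]
    congr 1
    funext x
    rw [GNS_fn_add, map_add, add_mul]
  smul_left f g c := by
    rw [← M.c_smul _ (BdC.mul (BdC.conj (GNS_bdd M f)) (GNS_bdd M g))]
    congr 1
    funext x
    rw [GNS_fn_smul, map_mul, mul_assoc]

private noncomputable instance GNS_i3 (M : GMean G) : SeminormedAddCommGroup (GNS_V M) :=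
  InnerProductSpace.Core.toSeminormedAddCommGroup (c := GNS_core M)
private noncomputable instance GNS_i4 (M : GMean G) : InnerProductSpace ℂ (GNS_V M) :=
  InnerProductSpace.ofCore (GNS_core M)

private theorem GNS_inner (M : GMean G) (f g : GNS_V M) :
    inner ℂ f g = M.c (fun x => (starRingEnd ℂ) (GNS_fn M f x) * GNS_fn M g x) := rfl

private theorem GNS_cshift (M : GMean G) (hM : RInv M) (y : G) {f : G → ℂ} (hf : BdC f) :
    M.c (fun x => f (x * y)) = M.c f := by
  unfold GMean.c
  rw [hM y (fun x => (f x).re) hf.re, hM y (fun x => (f x).im) hf.im]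

/-- the translation on V -/
private noncomputable def GNS_S (M : GMean G) (y : G) : GNS_V M →ₗ[ℂ] GNS_V M where
  toFun v := GNS_mk M (fun x => GNS_fn M v (x * y)) (BdC.comp (GNS_bdd M v) _)
  map_add' v w := rfl
  map_smul' c v := rfl

private theorem GNS_S_norm (M : GMean G) (hM : RInv M) (y : G) (v : GNS_V M) : ‖GNS_S M y v‖ = ‖v‖ := by
  have h1 : ‖GNS_S M y v‖ ^ 2 = ‖v‖ ^ 2 := by
    rw [← inner_self_eq_norm_sq (𝕜 := ℂ), ← inner_self_eq_norm_sq (𝕜 := ℂ), GNS_inner, GNS_inner]
    congr 1
    exact GNS_cshift M hM y (BdC.mul (BdC.conj (GNS_bdd M v)) (GNS_bdd M v))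
  exact (sq_eq_sq₀ (norm_nonneg _) (norm_nonneg _)).1 h1

private noncomputable def GNS_SL (M : GMean G) (hM : RInv M) (y : G) : GNS_V M →L[ℂ] GNS_V M :=
  (GNS_S M y).mkContinuous 1 fun v => by rw [GNS_S_norm M hM y, one_mul]

/-- GNS.  PROOF: as in StrA/Gns.lean (completion of the bounded functions with the semidefinite form `M.c (conj f * g)`); for every
`y` the translation `f ↦ f (x y)` is an isometry with inverse the translation by `y⁻¹`; `T (y z) = T y * T z` because
`(T y (T z f)) x = (T z f) (x y) = f (x y z)`.  (Lemmas on bounded functions and `GMean.c_add`, `c_smul`, `c_conj` are in MeanB.) -/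
theorem exists_rep (M : GMean G) (hM : RInv M) :
    ∃ (H : Type) (_ : NormedAddCommGroup H) (_ : InnerProductSpace ℂ H) (_ : CompleteSpace H), Nonempty (GRep M H) := by
  classical
  refine ⟨UniformSpace.Completion (GNS_V M), inferInstance, inferInstance, inferInstance, ?_⟩
  have hn : ∀ (y : G) (v : UniformSpace.Completion (GNS_V M)),
      ‖(GNS_SL M hM y).completion v‖ = ‖v‖ := by
    intro y v
    induction v using UniformSpace.Completion.induction_on with
    | hp => exact isClosed_eq (by fun_prop) (by fun_prop)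
    | ih a =>
      rw [ContinuousLinearMap.completion_apply_coe, UniformSpace.Completion.norm_coe, UniformSpace.Completion.norm_coe]
      exact GNS_S_norm M hM y a
  have hmul : ∀ (y z : G) (v : UniformSpace.Completion (GNS_V M)),
      (GNS_SL M hM y).completion ((GNS_SL M hM z).completion v) = (GNS_SL M hM (y * z)).completion v := by
    intro y z v
    induction v using UniformSpace.Completion.induction_on with
    | hp => exact isClosed_eq (by fun_prop) (by fun_prop)
    | ih a =>
      rw [ContinuousLinearMap.completion_apply_coe, ContinuousLinearMap.completion_apply_coe,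
        ContinuousLinearMap.completion_apply_coe]
      congr 1
      apply GNS_ext M
      intro x
      show GNS_fn M a (x * y * z) = GNS_fn M a (x * (y * z))
      rw [mul_assoc]
  have hone : ∀ v : UniformSpace.Completion (GNS_V M), (GNS_SL M hM 1).completion v = v := by
    intro v
    induction v using UniformSpace.Completion.induction_on with
    | hp => exact isClosed_eq (by fun_prop) (by fun_prop)
    | ih a =>
      rw [ContinuousLinearMap.completion_apply_coe]
      congr 1
      apply GNS_ext M
      intro x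
      show GNS_fn M a (x * 1) = GNS_fn M a x
      rw [mul_one]
  have hc : ∀ (y z : G) (_ : y * z = 1) (v : UniformSpace.Completion (GNS_V M)),
      (GNS_SL M hM y).completion ((GNS_SL M hM z).completion v) = v := by
    intro y z hyz v
    rw [hmul, hyz, hone]
  let T : G → (UniformSpace.Completion (GNS_V M) ≃ₗᵢ[ℂ] UniformSpace.Completion (GNS_V M)) := fun y =>
    { toLinearEquiv := LinearEquiv.ofLinearMap
        ((GNS_SL M hM y).completion : UniformSpace.Completion (GNS_V M) →ₗ[ℂ] UniformSpace.Completion (GNS_V M))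
        ((GNS_SL M hM y⁻¹).completion : UniformSpace.Completion (GNS_V M) →ₗ[ℂ] UniformSpace.Completion (GNS_V M))
        (LinearMap.ext fun v => hc y y⁻¹ (mul_inv_cancel y) v)
        (LinearMap.ext fun v => hc y⁻¹ y (inv_mul_cancel y) v)
      norm_map' := fun v => hn y v }
  have hT : ∀ (y : G) (v : GNS_V M), T y (v : UniformSpace.Completion (GNS_V M)) =
      ((GNS_S M y v : GNS_V M) : UniformSpace.Completion (GNS_V M)) := by
    intro y v
    exact ContinuousLinearMap.completion_apply_coe (GNS_SL M hM y) v
  refine ⟨{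
    ι := fun f => if h : BdC f then ((GNS_mk M f h : GNS_V M) : UniformSpace.Completion (GNS_V M)) else 0
    T := MonoidHom.mk' T fun y z => LinearIsometryEquiv.ext fun v => (hmul y z v).symm
    add := ?_
    smul := ?_
    inn := ?_
    shift := ?_
    dense := ?_ }⟩
  · intro f g hf hg
    rw [dif_pos hf, dif_pos hg, dif_pos (BdC.add hf hg), ← UniformSpace.Completion.coe_add]
    rfl
  · intro c f hf
    rw [dif_pos hf, dif_pos (BdC.smul c hf), ← UniformSpace.Completion.coe_smul]
    rfl
  · intro f g hf hg
    rw [dif_pos hf, dif_pos hg, UniformSpace.Completion.inner_coe]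
    rfl
  · intro y f hf
    rw [dif_pos hf, dif_pos (BdC.comp hf _)]
    exact hT y _
  · intro v ε hε
    have h1 := (UniformSpace.Completion.denseRange_coe (α := GNS_V M)).exists_dist_lt v hε
    obtain ⟨a, ha⟩ := h1
    refine ⟨GNS_fn M a, GNS_bdd M a, ?_⟩
    rw [dif_pos (GNS_bdd M a), ← dist_eq_norm]
    exact ha

end Pool.Agent.StrG
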