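import Mathlib

/-! STRUCTURE ON GROUPS (helper37): module KCP (operators with finite trace; only Mathlib). -/

set_option autoImplicit false

namespace Pool.Agent.StrG

open Finset Filter Topology

variable {H : Type} [NormedAddCommGroup H] [InnerProductSpace ℂ H]

/-- KCP1.  PROOF: Cauchy-Schwarz for the positive form `⟪u, K v⟫`: `|⟪u, K v⟫|² ≤ ⟪u, K u⟫ ⟪v, K v⟫`; with `u = K v`:
`‖K v‖⁴ ≤ ⟪K v, K K v⟫ ⟪v, K v⟫ ≤ ‖K‖ ‖K v‖² ⟪v, K v⟫`. -/
theorem norm_sq_le (K : H →L[ℂ] H) (hs : ∀ u v : H, (inner ℂ (K u) v : ℂ) = inner ℂ u (K v))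
    (hp : ∀ u : H, 0 ≤ (inner ℂ u (K u) : ℂ).re) (v : H) : ‖K v‖ ^ 2 ≤ ‖K‖ * (inner ℂ v (K v) : ℂ).re := by
  have h1 : ∀ t : ℝ, 0 ≤ (inner ℂ v (K v) : ℂ).re - 2 * t * ‖K v‖ ^ 2 + t ^ 2 * (inner ℂ (K v) (K (K v)) : ℂ).re := by
    intro t
    have h2 := hp (v - (t : ℂ) • K v)
    have h3 : (inner ℂ (v - (t : ℂ) • K v) (K (v - (t : ℂ) • K v)) : ℂ)
        = inner ℂ v (K v) - (t : ℂ) * inner ℂ (K v) (K v) - ((t : ℂ) * inner ℂ (K v) (K v)
          - (t : ℂ) * ((t : ℂ) * inner ℂ (K v) (K (K v)))) := by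
      rw [map_sub, map_smul, inner_sub_left, inner_sub_right, inner_sub_right, inner_smul_left,
        inner_smul_left, inner_smul_right, inner_smul_right, Complex.conj_ofReal, ← hs v (K v)]
    have h4 : (inner ℂ (K v) (K v) : ℂ) = ((‖K v‖ ^ 2 : ℝ) : ℂ) := by
      rw [inner_self_eq_norm_sq_to_K]
      push_cast
      rfl
    rw [h3, h4] at h2
    simp only [Complex.sub_re, Complex.re_ofReal_mul, Complex.ofReal_re] at h2
    have h5 : (inner ℂ v (K v) : ℂ).re - t * ‖K v‖ ^ 2 - (t * ‖K v‖ ^ 2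
        - t * (t * (inner ℂ (K v) (K (K v)) : ℂ).re))
        = (inner ℂ v (K v) : ℂ).re - 2 * t * ‖K v‖ ^ 2 + t ^ 2 * (inner ℂ (K v) (K (K v)) : ℂ).re := by ring
    rw [h5] at h2
    exact h2
  have h6 : (inner ℂ (K v) (K (K v)) : ℂ).re ≤ ‖K‖ * ‖K v‖ ^ 2 := by
    calc (inner ℂ (K v) (K (K v)) : ℂ).re ≤ ‖(inner ℂ (K v) (K (K v)) : ℂ)‖ := Complex.re_le_norm _
      _ ≤ ‖K v‖ * ‖K (K v)‖ := norm_inner_le_norm _ _
      _ ≤ ‖K v‖ * (‖K‖ * ‖K v‖) := mul_le_mul_of_nonneg_left (K.le_opNorm _) (norm_nonneg _)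
      _ = ‖K‖ * ‖K v‖ ^ 2 := by ring
  rcases eq_or_lt_of_le (norm_nonneg K) with h0 | h0
  · have h7 : ‖K v‖ ≤ 0 := by
      have h8 := K.le_opNorm v
      rw [← h0, zero_mul] at h8
      exact h8
    have h9 : ‖K v‖ = 0 := le_antisymm h7 (norm_nonneg _)
    rw [h9, ← h0]
    norm_num
  · have h7 := h1 (‖K‖⁻¹)
    have h8 : (‖K‖⁻¹) ^ 2 * (inner ℂ (K v) (K (K v)) : ℂ).re ≤ (‖K‖⁻¹) ^ 2 * (‖K‖ * ‖K v‖ ^ 2) :=
      mul_le_mul_of_nonneg_left h6 (by positivity)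
    have h9 : (‖K‖⁻¹) ^ 2 * (‖K‖ * ‖K v‖ ^ 2) = ‖K‖⁻¹ * ‖K v‖ ^ 2 := by
      field_simp
    have h10 : ‖K‖⁻¹ * ‖K v‖ ^ 2 ≤ (inner ℂ v (K v) : ℂ).re := by
      rw [h9] at h8
      linarith
    rw [inv_mul_le_iff₀ h0] at h10
    exact h10

/-- orthonormal families of every length -/
theorem kcp_families (p : H → Prop) (hsm : ∀ (c : ℂ) (v : H), c ≠ 0 → p v → p (c • v))
    (h : ∀ (n : ℕ) (e : Fin n → H), Orthonormal ℂ e → (∀ i, p (e i)) →
      ∃ u : H, (∀ i, (inner ℂ u (e i) : ℂ) = 0) ∧ u ≠ 0 ∧ p u) (n : ℕ) :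
    ∃ e : Fin n → H, Orthonormal ℂ e ∧ ∀ i, p (e i) := by
  induction n with
  | zero => exact ⟨Fin.elim0, ⟨fun i => i.elim0, fun i => i.elim0⟩, fun i => i.elim0⟩
  | succ n ih =>
    obtain ⟨e, he, hpe⟩ := ih
    obtain ⟨u, hu, hu0, hpu⟩ := h n e he hpe
    have hn : ‖u‖ ≠ 0 := norm_ne_zero_iff.2 hu0
    refine ⟨Matrix.vecCons (((‖u‖⁻¹ : ℝ) : ℂ) • u) e, orthonormal_vecCons_iff.2 ⟨?_, ?_, he⟩, ?_⟩
    · rw [norm_smul, Complex.norm_real, norm_inv, norm_norm, inv_mul_cancel₀ hn]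
    · intro i
      rw [inner_smul_left, hu i, mul_zero]
    · intro i
      refine Fin.cases ?_ (fun j => ?_) i
      · exact hsm _ _ (by exact_mod_cast inv_ne_zero hn) hpu
      · exact hpe j

/-- KCP2.  PROOF: given `ε > 0` there is a finite dimensional `L` with `⟪u, K u⟫ ≤ ε ‖u‖²` for `u ∈ Lᗮ`: otherwise one finds
orthonormal `e_1, .., e_n` with `⟪e_i, K e_i⟫ > ε` for every `n`, contradiction to `htr` for `n ε > C`.  By KCP1
`‖K (1 - P_L)‖² ≤ ‖K‖ ε`, so `K` is a limit of the finite rank operators `K P_L`, so compact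
(`isCompactOperator_of_tendsto`; finite rank operators are compact: the image of the ball is bounded in a finite dimensional space). -/
theorem compact_of_trace [CompleteSpace H] (K : H →L[ℂ] H) (hs : ∀ u v : H, (inner ℂ (K u) v : ℂ) = inner ℂ u (K v))
    (hp : ∀ u : H, 0 ≤ (inner ℂ u (K u) : ℂ).re) (C : ℝ)
    (htr : ∀ (n : ℕ) (e : Fin n → H), Orthonormal ℂ e → ∑ i, (inner ℂ (e i) (K (e i)) : ℂ).re ≤ C) :
    IsCompactOperator K := by
  have key : ∀ ε : ℝ, 0 < ε → ∃ L : Submodule ℂ H, FiniteDimensional ℂ L ∧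
      ∀ u ∈ Lᗮ, (inner ℂ u (K u) : ℂ).re ≤ ε * ‖u‖ ^ 2 := by
    intro ε hε
    by_contra hcon
    push Not at hcon
    obtain ⟨n, hn⟩ := exists_nat_gt (C / ε)
    obtain ⟨e, he, hpe⟩ := kcp_families (fun v : H => ε * ‖v‖ ^ 2 < (inner ℂ v (K v) : ℂ).re) (by
      intro c v hc hv
      have hc2 : (0 : ℝ) < ‖c‖ ^ 2 := by
        have : (0 : ℝ) < ‖c‖ := norm_pos_iff.2 hc
        positivity
      have h1 : (inner ℂ (c • v) (K (c • v)) : ℂ) = ((‖c‖ ^ 2 : ℝ) : ℂ) * inner ℂ v (K v) := by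
        rw [map_smul, inner_smul_left, inner_smul_right, ← mul_assoc]
        congr 1
        rw [mul_comm, Complex.mul_conj, Complex.normSq_eq_norm_sq]
      show ε * ‖c • v‖ ^ 2 < (inner ℂ (c • v) (K (c • v)) : ℂ).re
      rw [h1, Complex.re_ofReal_mul, norm_smul]
      have h2 := mul_lt_mul_of_pos_left hv hc2
      calc ε * (‖c‖ * ‖v‖) ^ 2 = ‖c‖ ^ 2 * (ε * ‖v‖ ^ 2) := by ring
        _ < _ := h2) (by
      intro m e he _
      have hfd : FiniteDimensional ℂ (Submodule.span ℂ (Set.range e)) :=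
        FiniteDimensional.span_of_finite ℂ (Set.finite_range e)
      obtain ⟨u, hu, hlt⟩ := hcon _ hfd
      refine ⟨u, ?_, ?_, hlt⟩
      · intro i
        have h1 := (Submodule.mem_orthogonal' _ _).1 hu (e i) (Submodule.subset_span ⟨i, rfl⟩)
        exact h1
      · intro h0
        rw [h0] at hlt
        simp at hlt) n
    have h1 := htr n e he
    have h2 : (n : ℝ) * ε ≤ ∑ i, (inner ℂ (e i) (K (e i)) : ℂ).re := by
      have h3 : ∑ _i : Fin n, ε ≤ ∑ i, (inner ℂ (e i) (K (e i)) : ℂ).re := by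
        refine Finset.sum_le_sum fun i _ => ?_
        have h4 : ε * ‖e i‖ ^ 2 < (inner ℂ (e i) (K (e i)) : ℂ).re := hpe i
        rw [he.1 i, one_pow, mul_one] at h4
        exact h4.le
      rwa [Finset.sum_const, Finset.card_univ, Fintype.card_fin, nsmul_eq_mul] at h3
    rw [div_lt_iff₀ hε] at hn
    linarith
  have hcl : IsClosed {f : H →L[ℂ] H | IsCompactOperator f} := isClosed_setOfPred_isCompactOperator
  have hmem : K ∈ closure {f : H →L[ℂ] H | IsCompactOperator f} := by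
    rw [Metric.mem_closure_iff]
    intro δ hδ
    obtain ⟨L, hL, hLe⟩ := key (δ ^ 2 / (4 * (‖K‖ + 1))) (by positivity)
    haveI : FiniteDimensional ℂ L := hL
    haveI : ProperSpace L := FiniteDimensional.proper ℂ L
    refine ⟨K.comp L.starProjection, ?_, ?_⟩
    · have h1 : IsCompactOperator (L.orthogonalProjectionOnto : H →L[ℂ] L) :=
        isCompactOperator_of_locallyCompactSpace_dom _
      exact h1.clm_comp (K.comp L.subtypeL)
    · rw [dist_eq_norm]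
      have h1 : ‖K - K.comp L.starProjection‖ ≤ δ / 2 := by
        refine ContinuousLinearMap.opNorm_le_bound _ (by positivity) fun x => ?_
        have h2 : (K - K.comp L.starProjection) x = K (Lᗮ.starProjection x) := by
          rw [Submodule.starProjection_orthogonal_val, map_sub]
          rfl
        rw [h2]
        have h3 := norm_sq_le K hs hp (Lᗮ.starProjection x)
        have h4 := hLe (Lᗮ.starProjection x) (Submodule.starProjection_apply_mem _ _)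
        have h5 : ‖Lᗮ.starProjection x‖ ≤ ‖x‖ := Submodule.norm_starProjection_apply_le _ _
        have h6 : ‖Lᗮ.starProjection x‖ ^ 2 ≤ ‖x‖ ^ 2 := pow_le_pow_left₀ (norm_nonneg _) h5 2
        have h7 : ‖K (Lᗮ.starProjection x)‖ ^ 2 ≤ (δ / 2 * ‖x‖) ^ 2 := by
          calc ‖K (Lᗮ.starProjection x)‖ ^ 2
              ≤ ‖K‖ * (δ ^ 2 / (4 * (‖K‖ + 1)) * ‖Lᗮ.starProjection x‖ ^ 2) :=
                h3.trans (mul_le_mul_of_nonneg_left h4 (norm_nonneg _))
            _ ≤ (‖K‖ + 1) * (δ ^ 2 / (4 * (‖K‖ + 1)) * ‖x‖ ^ 2) :=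
                mul_le_mul (by linarith) (mul_le_mul_of_nonneg_left h6 (by positivity)) (by positivity)
                  (by positivity)
            _ = (δ / 2 * ‖x‖) ^ 2 := by
                have : ‖K‖ + 1 ≠ 0 := by positivity
                field_simp
                ring
        exact (sq_le_sq₀ (norm_nonneg _) (by positivity)).1 h7
      linarith
  rw [hcl.closure_eq] at hmem
  exact hmem

end Pool.Agent.StrG
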