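import Pool.Agent.StrG.MeanB

/-! STRUCTURE ON GROUPS (helper37): module KEX (the operator K). -/

set_option autoImplicit false

namespace Pool.Agent.StrG

open Finset Filter Topology

variable {G : Type} [Group G] {H : Type} [NormedAddCommGroup H] [InnerProductSpace ℂ H]

private theorem kex_bd (T : G →* (H ≃ₗᵢ[ℂ] H)) (w u v : H) (y : G) :
    ‖(inner ℂ u (T y w) : ℂ) * inner ℂ (T y w) v‖ ≤ ‖w‖ ^ 2 * ‖u‖ * ‖v‖ := by
  rw [norm_mul]
  have h1 := norm_inner_le_norm (𝕜 := ℂ) u (T y w)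
  have h2 := norm_inner_le_norm (𝕜 := ℂ) (T y w) v
  rw [LinearIsometryEquiv.norm_map] at h1 h2
  calc ‖(inner ℂ u (T y w) : ℂ)‖ * ‖(inner ℂ (T y w) v : ℂ)‖
      ≤ (‖u‖ * ‖w‖) * (‖w‖ * ‖v‖) := mul_le_mul h1 h2 (norm_nonneg _) (by positivity)
    _ = ‖w‖ ^ 2 * ‖u‖ * ‖v‖ := by ring

private theorem kex_bdC (T : G →* (H ≃ₗᵢ[ℂ] H)) (w u v : H) :
    BdC fun y : G => (inner ℂ u (T y w) : ℂ) * inner ℂ (T y w) v :=
  ⟨‖w‖ ^ 2 * ‖u‖ * ‖v‖, kex_bd T w u v⟩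

private theorem kex_shift (N : GMean G) (hN : LInv N) (z : G) (F : G → ℂ) (hF : BdC F) :
    N.c (fun y => F (z * y)) = N.c F := by
  unfold GMean.c
  rw [hN z (fun y => (F y).re) hF.re, hN z (fun y => (F y).im) hF.im]

/-- KEX1.  PROOF: the form `(u, v) ↦ N_y (⟪u, T y w⟫ ⟪T y w, v⟫)` is sesquilinear (conjugate linear in `u`, linear in `v`) and bounded by
`‖w‖² ‖u‖ ‖v‖` (`GMean.c_norm_le`); Riesz: for fixed `v` the functional `u ↦ conj (form u v)` is `⟪·⟫`; (`InnerProductSpace.toDual`,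
`LinearMap.mkContinuous₂`, or `InnerProductSpace.continuousLinearMapOfBilin`). -/
theorem exists_K [CompleteSpace H] (N : GMean G) (T : G →* (H ≃ₗᵢ[ℂ] H)) (w : H) :
    ∃ K : H →L[ℂ] H, ∀ u v : H, (inner ℂ u (K v) : ℂ) =
      N.c fun y => (inner ℂ u (T y w) : ℂ) * inner ℂ (T y w) v := by
  obtain ⟨f, hf⟩ : ∃ f : H → H → ℂ, f = fun u v => N.c fun y => (inner ℂ u (T y w) : ℂ) * inner ℂ (T y w) v := ⟨_, rfl⟩
  have H1 : ∀ u u' v : H, f (u + u') v = f u v + f u' v := by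
    intro u u' v
    rw [hf]
    show N.c _ = N.c _ + N.c _
    rw [← N.c_add (kex_bdC T w u v) (kex_bdC T w u' v)]
    congr 1
    funext y
    rw [inner_add_left]
    ring
  have H2 : ∀ (c : ℂ) (u v : H), f (c • u) v = (starRingEnd ℂ) c • f u v := by
    intro c u v
    rw [hf]
    show N.c _ = _ • N.c _
    rw [smul_eq_mul, ← N.c_smul _ (kex_bdC T w u v)]
    congr 1
    funext y
    rw [inner_smul_left]
    ring
  have H3 : ∀ u v v' : H, f u (v + v') = f u v + f u v' := by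
    intro u v v'
    rw [hf]
    show N.c _ = N.c _ + N.c _
    rw [← N.c_add (kex_bdC T w u v) (kex_bdC T w u v')]
    congr 1
    funext y
    rw [inner_add_right]
    ring
  have H4 : ∀ (c : ℂ) (u v : H), f u (c • v) = (RingHom.id ℂ) c • f u v := by
    intro c u v
    rw [hf]
    show N.c _ = _ • N.c _
    rw [smul_eq_mul, ← N.c_smul _ (kex_bdC T w u v)]
    congr 1
    funext y
    rw [inner_smul_right, RingHom.id_apply]
    ring
  have H5 : ∀ u v : H, ‖f u v‖ ≤ ‖w‖ ^ 2 * ‖u‖ * ‖v‖ := by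
    intro u v
    rw [hf]
    refine (N.c_norm_le (kex_bdC T w u v)).trans ?_
    have h1 : Bd fun y => ‖(inner ℂ u (T y w) : ℂ) * inner ℂ (T y w) v‖ :=
      ⟨‖w‖ ^ 2 * ‖u‖ * ‖v‖, fun y => by rw [abs_of_nonneg (norm_nonneg _)]; exact kex_bd T w u v y⟩
    have h2 := N.mono h1 (Bd.const (‖w‖ ^ 2 * ‖u‖ * ‖v‖)) fun y => kex_bd T w u v y
    rwa [N.const] at h2
  obtain ⟨B, hB⟩ : ∃ B : H →L⋆[ℂ] H →L[ℂ] ℂ, ∀ u v, B u v = f u v :=
    ⟨LinearMap.mkContinuous₂ (LinearMap.mk₂'ₛₗ (starRingEnd ℂ) (RingHom.id ℂ) f H1 H2 H3 H4)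
      (‖w‖ ^ 2) H5, fun u v => rfl⟩
  refine ⟨InnerProductSpace.continuousLinearMapOfBilin B, fun u v => ?_⟩
  rw [← inner_conj_symm, InnerProductSpace.continuousLinearMapOfBilin_apply, hB, hf]
  show (starRingEnd ℂ) (N.c _) = _
  rw [← N.c_conj (kex_bdC T w v u)]
  congr 1
  funext y
  rw [map_mul, inner_conj_symm, inner_conj_symm]
  ring

/-- KEX2.  PROOF: `GMean.c_conj`. -/
theorem K_symm (N : GMean G) (T : G →* (H ≃ₗᵢ[ℂ] H)) (w : H) (K : H →L[ℂ] H)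
    (hK : ∀ u v : H, (inner ℂ u (K v) : ℂ) = N.c fun y => (inner ℂ u (T y w) : ℂ) * inner ℂ (T y w) v) (u v : H) :
    (inner ℂ (K u) v : ℂ) = inner ℂ u (K v) := by
  rw [← inner_conj_symm, hK, hK, ← N.c_conj (kex_bdC T w v u)]
  congr 1
  funext y
  rw [map_mul, inner_conj_symm, inner_conj_symm]
  ring

/-- KEX3.  PROOF: the function is `‖⟪u, T y w⟫‖²`; `GMean.c_re`. -/
theorem K_re (N : GMean G) (T : G →* (H ≃ₗᵢ[ℂ] H)) (w : H) (K : H →L[ℂ] H)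
    (hK : ∀ u v : H, (inner ℂ u (K v) : ℂ) = N.c fun y => (inner ℂ u (T y w) : ℂ) * inner ℂ (T y w) v) (u : H) :
    (inner ℂ u (K u) : ℂ).re = N.m fun y => ‖(inner ℂ u (T y w) : ℂ)‖ ^ 2 := by
  rw [hK, N.c_re]
  congr 1
  funext y
  have h1 : (inner ℂ (T y w) u : ℂ) = (starRingEnd ℂ) (inner ℂ u (T y w)) := (inner_conj_symm _ _).symm
  rw [h1, Complex.mul_conj, Complex.normSq_eq_norm_sq]
  exact Complex.ofReal_re _

/-- KEX4.  PROOF: Bessel's inequality `∑ ‖⟪e i, T y w⟫‖² ≤ ‖T y w‖² = ‖w‖²` (`Orthonormal.sum_inner_products_le`), `GMean.sum`, `GMean.mono`. -/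
theorem K_trace (N : GMean G) (T : G →* (H ≃ₗᵢ[ℂ] H)) (w : H) (K : H →L[ℂ] H)
    (hK : ∀ u v : H, (inner ℂ u (K v) : ℂ) = N.c fun y => (inner ℂ u (T y w) : ℂ) * inner ℂ (T y w) v)
    (n : ℕ) (e : Fin n → H) (he : Orthonormal ℂ e) : ∑ i, (inner ℂ (e i) (K (e i)) : ℂ).re ≤ ‖w‖ ^ 2 := by
  have hb : ∀ u : H, Bd fun y : G => ‖(inner ℂ u (T y w) : ℂ)‖ ^ 2 := fun u =>
    ⟨(‖u‖ * ‖w‖) ^ 2, fun y => by
      rw [abs_of_nonneg (by positivity)]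
      have h1 := norm_inner_le_norm (𝕜 := ℂ) u (T y w)
      rw [LinearIsometryEquiv.norm_map] at h1
      exact pow_le_pow_left₀ (norm_nonneg _) h1 2⟩
  have h1 : ∑ i, (inner ℂ (e i) (K (e i)) : ℂ).re = N.m fun y => ∑ i, ‖(inner ℂ (e i) (T y w) : ℂ)‖ ^ 2 := by
    rw [N.sum Finset.univ (fun i y => ‖(inner ℂ (e i) (T y w) : ℂ)‖ ^ 2) fun i _ => hb (e i)]
    exact Finset.sum_congr rfl fun i _ => K_re N T w K hK (e i)
  rw [h1]
  have h2 : Bd fun y : G => ∑ i, ‖(inner ℂ (e i) (T y w) : ℂ)‖ ^ 2 :=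
    Bd.sum Finset.univ (fun i y => ‖(inner ℂ (e i) (T y w) : ℂ)‖ ^ 2) fun i _ => hb (e i)
  have h3 := N.mono h2 (Bd.const (‖w‖ ^ 2)) fun y => by
    have h4 := he.sum_inner_products_le (T y w) (s := Finset.univ)
    rw [LinearIsometryEquiv.norm_map] at h4
    exact h4
  rwa [N.const] at h3

/-- KEX5.  PROOF: `⟪u, T z (K v)⟫ = ⟪T z⁻¹ u, K v⟫ = N_y (⟪T z⁻¹ u, T y w⟫ ⟪T y w, v⟫) = N_y (⟪u, T (z y) w⟫ ⟪T (z y) w, T z v⟫)`
`= N_y (⟪u, T y w⟫ ⟪T y w, T z v⟫) = ⟪u, K (T z v)⟫` by left invariance (applied to real and imaginary part). -/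
theorem K_comm (N : GMean G) (hN : LInv N) (T : G →* (H ≃ₗᵢ[ℂ] H)) (w : H) (K : H →L[ℂ] H)
    (hK : ∀ u v : H, (inner ℂ u (K v) : ℂ) = N.c fun y => (inner ℂ u (T y w) : ℂ) * inner ℂ (T y w) v) (z : G) (v : H) :
    T z (K v) = K (T z v) := by
  refine ext_inner_left ℂ fun u => ?_
  have hz : ∀ x : H, T z (T z⁻¹ x) = x := by
    intro x
    have h1 : (T z * T z⁻¹) x = x := by
      rw [← map_mul, mul_inv_cancel, map_one]
      rfl
    exact h1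
  have h1 : (inner ℂ u (T z (K v)) : ℂ) = inner ℂ (T z⁻¹ u) (K v) := by
    have h2 := LinearIsometryEquiv.inner_map_map (T z) (T z⁻¹ u) (K v)
    rw [hz] at h2
    exact h2
  rw [h1, hK, hK, ← kex_shift N hN z _ (kex_bdC T w u (T z v))]
  congr 1
  funext y
  have h3 : T (z * y) w = T z (T y w) := by
    rw [map_mul]
    rfl
  rw [h3, LinearIsometryEquiv.inner_map_map (T z) (T y w) v]
  have h4 := LinearIsometryEquiv.inner_map_map (T z) (T z⁻¹ u) (T y w)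
  rw [hz] at h4
  rw [h4]

end Pool.Agent.StrG
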