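import Pool.Agent.StrG.Aff

/-! STRUCTURE ON GROUPS (helper37): modules NTF, NC (linear forms; bad pairs have no long cliques). -/

set_option autoImplicit false

namespace Pool.Agent.StrG

open Finset Filter Topology

/-- two primes among `R` admissible linear forms (`dhl43S` gives `R = 43`, `dhlg4` gives `R = 4 k`) -/
def TP (R : ℕ) : Prop :=
  ∀ s h : Fin R → ℕ, (∀ i, 0 < s i) → (∀ i j, i ≠ j → s i * h j ≠ s j * h i) →
    (∀ p : ℕ, p.Prime → ∃ n : ℕ, ∀ i, ¬ p ∣ s i * n + h i) →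
    ∀ x : ℕ, ∃ n ≥ x, ∃ i j, i ≠ j ∧ (s i * n + h i).Prime ∧ (s j * n + h j).Prime

/-- `a + q d` is prime for infinitely many primes `q` -/
def GI (a : ℤ) (d : ℕ) : Prop := {q : ℕ | q.Prime ∧ ∃ p : ℕ, p.Prime ∧ (p : ℤ) = a + q * d}.Infinite

/-- the pairs `(a, d)`, `gcd(a, d) = 1`, with only finitely many such `q` -/
def BadA : Set Af := {x | ∃ (a : ℤ) (d : ℕ) (hd : 0 < d), x = mp a d hd ∧ Int.gcd a d = 1 ∧ ¬ GI a d}

/-- NTF0 -/
theorem gi_zero_one : GI 0 1 := by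
  have h : {q : ℕ | q.Prime ∧ ∃ p : ℕ, p.Prime ∧ (p : ℤ) = 0 + q * ((1 : ℕ) : ℤ)} = {q : ℕ | q.Prime} := by
    ext q
    constructor
    · exact fun h => h.1
    · exact fun h => ⟨h, q, h, by push_cast; ring⟩
  show {q : ℕ | q.Prime ∧ ∃ p : ℕ, p.Prime ∧ (p : ℤ) = 0 + q * ((1 : ℕ) : ℤ)}.Infinite
  rw [h]
  exact Nat.infinite_setOfPred_prime

private theorem ntf_rel {a a1 : ℤ} {d d1 : ℕ} {hd : 0 < d} {hd1 : 0 < d1}
    (h : mp a1 d1 hd1 * (mp a d hd)⁻¹ ∈ BadA) :
    ∃ (a' : ℤ) (d' : ℕ), 0 < d' ∧ a' ≠ 0 ∧ ¬ GI a' d' ∧ a1 = a' + d' * a ∧ d1 = d' * d := by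
  obtain ⟨a', d', hd', h1, h2, h3⟩ := h
  have h4 : mp a1 d1 hd1 = mp (a' + d' * a) (d' * d) (Nat.mul_pos hd' hd) := by
    rw [← mp_mul (hd := hd') (hd' := hd), ← h1, inv_mul_cancel_right]
  obtain ⟨h5, h6⟩ := mp_inj h4
  refine ⟨a', d', hd', ?_, h3, h5, h6⟩
  rintro rfl
  have h7 : d' = 1 := by simpa using h2
  subst h7
  exact h3 gi_zero_one

private theorem ntf_large (R : ℕ) (a : Fin R → ℤ) (d : Fin R → ℕ) (hgcd : ∀ i, Int.gcd (a i) (d i) = 1)
    (p : ℕ) (hp : p.Prime) (hpR : R < p) (N : ℤ) : ∃ n : ℕ, ∀ i, ¬ (p : ℤ) ∣ a i + d i * (N + n) := by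
  classical
  by_contra hcon
  push Not at hcon
  have h1 : range p ⊆ (univ : Finset (Fin R)).biUnion
      fun i => (range p).filter fun n : ℕ => (p : ℤ) ∣ a i + d i * (N + n) := by
    intro n hn
    obtain ⟨i, hi⟩ := hcon n
    exact mem_biUnion.2 ⟨i, mem_univ i, mem_filter.2 ⟨hn, hi⟩⟩
  have h2 : ∀ i ∈ (univ : Finset (Fin R)),
      ((range p).filter fun n : ℕ => (p : ℤ) ∣ a i + d i * (N + n)).card ≤ 1 := by
    intro i _
    rw [card_le_one]
    intro m hm n hn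
    rw [mem_filter, mem_range] at hm hn
    by_cases hpd : (p : ℤ) ∣ d i
    · exfalso
      have h3 : (p : ℤ) ∣ a i := by
        have h4 := hm.2
        rwa [dvd_add_left (Dvd.dvd.mul_right hpd _)] at h4
      have h5 : (p : ℤ) ∣ Int.gcd (a i) (d i) := Int.dvd_coe_gcd h3 hpd
      rw [hgcd i] at h5
      have h6 : p ∣ 1 := by exact_mod_cast h5
      exact hp.one_lt.ne' (Nat.dvd_one.1 h6)
    · have h3 := dvd_sub hm.2 hn.2
      have h4 : a i + (d i : ℤ) * (N + m) - (a i + d i * (N + n)) = d i * ((m : ℤ) - n) := by ring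
      rw [h4] at h3
      have h5 : (p : ℤ) ∣ (m : ℤ) - n := ((Nat.prime_iff_prime_int.1 hp).dvd_or_dvd h3).resolve_left hpd
      have h6 : ((m : ℤ) - n) = 0 := by
        refine Int.eq_zero_of_abs_lt_dvd h5 ?_
        rw [abs_lt]
        constructor <;> omega
      omega
  have h3 := (card_le_card h1).trans (card_biUnion_le.trans (sum_le_card_nsmul _ _ 1 h2))
  rw [card_range, card_univ, Fintype.card_fin, smul_eq_mul, mul_one] at h3
  omega

/-- NTF.  PROOF: `x_i = mp (a i) (d i)`.  For `i < j`: `a j = a' + d' a i`, `d j = d' d i` with `(a', d')` bad, so `a' ≠ 0` (if `a' = 0` then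
`d' = 1` by `gcd = 1`, and `gi_zero_one`), so `d i * a j - d j * a i = d i * a' ≠ 0`.  Choose a natural number `N` with `a i + d i N ≥ 0` for all `i`, `s i = d i`,
`h i = (a i + d i N).toNat`.  Admissible: `p ≤ R`: `hloc` and a shift by a multiple of `p`; `p > R`: `p ∣ d i` gives `p ∤ a i`, no root; otherwise one
root; fewer than `p` roots.  `TP R` gives infinitely many `n` and by pigeonhole one pair `i < j` with `q = s i n + h i` and `s j n + h j = a' + d' q` prime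
for infinitely many `n`: so `GI a' d'`, contradiction.  (For `R ≤ 1` `TP R` is contradictory by itself.) -/
theorem two_forms (R : ℕ) (hT : TP R) (a : Fin R → ℤ) (d : Fin R → ℕ) (hd : ∀ i, 0 < d i)
    (hgcd : ∀ i, Int.gcd (a i) (d i) = 1)
    (hloc : ∀ p : ℕ, p.Prime → p ≤ R → ∃ n : ℤ, ∀ i, ¬ (p : ℤ) ∣ a i + d i * n)
    (hbad : ∀ i j, i < j → mp (a j) (d j) (hd j) * (mp (a i) (d i) (hd i))⁻¹ ∈ BadA) : False := by
  classical
  obtain ⟨N, hN⟩ : ∃ N : ℕ, ∀ i, 0 ≤ a i + d i * N := by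
    refine ⟨∑ i, (a i).natAbs, fun i => ?_⟩
    have h1 : (a i).natAbs ≤ ∑ i, (a i).natAbs :=
      single_le_sum (f := fun i => (a i).natAbs) (fun _ _ => Nat.zero_le _) (mem_univ i)
    have h2 : ∑ i, (a i).natAbs ≤ d i * ∑ i, (a i).natAbs := Nat.le_mul_of_pos_left _ (hd i)
    have h3 : ((a i).natAbs : ℤ) ≤ ((d i * ∑ i, (a i).natAbs : ℕ) : ℤ) := by exact_mod_cast h1.trans h2
    have h4 : -(a i) ≤ |a i| := neg_le_abs (a i)
    push_cast at h3 ⊢
    linarith
  set h : Fin R → ℕ := fun i => (a i + d i * N).toNat with hh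
  have hhi : ∀ i, (h i : ℤ) = a i + d i * N := fun i => Int.toNat_of_nonneg (hN i)
  have hform : ∀ i (n : ℕ), ((d i * n + h i : ℕ) : ℤ) = a i + d i * (N + n) := by
    intro i n
    push_cast
    rw [hhi]
    ring
  have hne : ∀ i j, i < j → d i * h j ≠ d j * h i := by
    intro i j hij heq
    obtain ⟨a', d', -, h1, -, h2, h3⟩ := ntf_rel (hbad i j hij)
    have h4 : ((d i : ℤ)) * h j = d j * h i := by exact_mod_cast heq
    rw [hhi, hhi, h2, h3] at h4
    push_cast at h4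
    have h5 : (d i : ℤ) * a' = 0 := by linarith
    rcases mul_eq_zero.1 h5 with h6 | h6
    · exact (hd i).ne' (by exact_mod_cast h6)
    · exact h1 h6
  have hne' : ∀ i j, i ≠ j → d i * h j ≠ d j * h i := by
    intro i j hij
    rcases lt_or_gt_of_ne hij with h1 | h1
    · exact hne i j h1
    · exact (hne j i h1).symm
  have hadm : ∀ p : ℕ, p.Prime → ∃ n : ℕ, ∀ i, ¬ p ∣ d i * n + h i := by
    intro p hp
    have hp0 : (0 : ℤ) < p := by exact_mod_cast hp.pos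
    have key : ∃ n : ℕ, ∀ i, ¬ (p : ℤ) ∣ a i + d i * (N + n) := by
      rcases le_or_gt p R with hpR | hpR
      · obtain ⟨n0, hn0⟩ := hloc p hp hpR
        refine ⟨((n0 - N) % p).toNat, fun i hi => hn0 i ?_⟩
        rw [Int.toNat_of_nonneg (Int.emod_nonneg _ hp0.ne')] at hi
        have h1 : (p : ℤ) ∣ (n0 - N) - (n0 - N) % p := Int.dvd_self_sub_emod
        have h2 : a i + (d i : ℤ) * n0 = a i + d i * (N + (n0 - N) % p) + d i * ((n0 - N) - (n0 - N) % p) := by
          ring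
        rw [h2]
        exact dvd_add hi (Dvd.dvd.mul_left h1 _)
      · exact ntf_large R a d hgcd p hp hpR N
    obtain ⟨n, hn⟩ := key
    refine ⟨n, fun i hi => hn i ?_⟩
    rw [← hform]
    exact_mod_cast hi
  have hTP := hT d h hd hne' hadm
  have hinf : {n : ℕ | ∃ i j, i < j ∧ (d i * n + h i).Prime ∧ (d j * n + h j).Prime}.Infinite := by
    rw [← Nat.frequently_atTop_iff_infinite, frequently_atTop]
    intro x
    obtain ⟨n, hn, i, j, hij, h1, h2⟩ := hTP x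
    rcases lt_or_gt_of_ne hij with h3 | h3
    · exact ⟨n, hn, i, j, h3, h1, h2⟩
    · exact ⟨n, hn, j, i, h3, h2, h1⟩
  have hun : {n : ℕ | ∃ i j, i < j ∧ (d i * n + h i).Prime ∧ (d j * n + h j).Prime} =
      ⋃ c : Fin R × Fin R, {n : ℕ | c.1 < c.2 ∧ (d c.1 * n + h c.1).Prime ∧ (d c.2 * n + h c.2).Prime} := by
    ext n
    simp only [Set.mem_ofPred_eq, Set.mem_iUnion, Prod.exists]
  rw [hun] at hinf
  have hex : ∃ c : Fin R × Fin R,
      {n : ℕ | c.1 < c.2 ∧ (d c.1 * n + h c.1).Prime ∧ (d c.2 * n + h c.2).Prime}.Infinite := by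
    by_contra hcon
    push Not at hcon
    exact hinf (Set.finite_iUnion fun c => hcon c)
  obtain ⟨⟨i, j⟩, hc⟩ := hex
  have hij : i < j := by
    obtain ⟨n, hn⟩ := hc.nonempty
    exact hn.1
  obtain ⟨a', d', hd', h1, h2, h3, h4⟩ := ntf_rel (hbad i j hij)
  apply h2
  refine (hc.image (f := fun n => d i * n + h i) fun m _ n _ hmn => ?_).mono ?_
  · have h5 : d i * m = d i * n := Nat.add_right_cancel hmn
    exact Nat.eq_of_mul_eq_mul_left (hd i) h5
  · rintro _ ⟨n, ⟨-, hn1, hn2⟩, rfl⟩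
    refine ⟨hn1, _, hn2, ?_⟩
    show ((d j * n + h j : ℕ) : ℤ) = a' + ((d i * n + h i : ℕ) : ℤ) * d'
    rw [hform, hform, h3, h4]
    push_cast
    ring

private theorem nc_loc {ι : Type} (W : ℕ) (a : ι → ℤ) (d : ι → ℕ) (hgcd : ∀ i, Int.gcd (a i) (d i) = 1)
    (i0 : ι) (ha : ∀ i, (a i : ZMod W) = a i0) (hdd : ∀ i, (d i : ZMod W) = d i0)
    (p : ℕ) (hp : p.Prime) (hpW : p ∣ W) : ∃ n : ℤ, ∀ i, ¬ (p : ℤ) ∣ a i + d i * n := by
  have : Fact p.Prime := ⟨hp⟩
  have ha' : ∀ i, (a i : ZMod p) = a i0 := by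
    intro i
    have h1 := congrArg (ZMod.castHom hpW (ZMod p)) (ha i)
    rwa [map_intCast, map_intCast] at h1
  have hd' : ∀ i, (d i : ZMod p) = d i0 := by
    intro i
    have h1 := congrArg (ZMod.castHom hpW (ZMod p)) (hdd i)
    rwa [map_natCast, map_natCast] at h1
  by_cases hz : (d i0 : ZMod p) = 0
  · refine ⟨0, fun i hi => ?_⟩
    rw [mul_zero, add_zero] at hi
    have h1 : (p : ℤ) ∣ (d i : ℤ) := by
      have h2 := hd' i
      rw [hz, ZMod.natCast_eq_zero_iff] at h2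
      exact_mod_cast h2
    have h5 : (p : ℤ) ∣ Int.gcd (a i) (d i) := Int.dvd_coe_gcd hi h1
    rw [hgcd i] at h5
    have h6 : p ∣ 1 := by exact_mod_cast h5
    exact hp.one_lt.ne' (Nat.dvd_one.1 h6)
  · refine ⟨(((1 - (a i0 : ZMod p)) * (d i0 : ZMod p)⁻¹).val : ℤ), fun i hi => ?_⟩
    rw [← ZMod.intCast_zmod_eq_zero_iff_dvd] at hi
    push_cast at hi
    rw [ZMod.natCast_zmod_val, ha', hd', mul_comm (1 - _), ← mul_assoc, mul_inv_cancel₀ hz, one_mul,
      add_sub_cancel] at hi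
    exact one_ne_zero hi

/-- NC.  PROOF: `W = R!`, `R' = W² R + 1`.  If all `x_j x_i⁻¹` (`i < j < R'`) were bad, put `g_j = x_j x_0⁻¹`: `g_0 = 1 = mp 0 1`, `g_j = mp (a j) (d j)` with
`gcd(a j, d j) = 1`; by pigeonhole there are `j_1 < .. < j_R` for which `(a j mod W, d j mod W)` is constant.  Local condition at a prime `p ≤ R`
(`p ∣ W`): the classes `a, d` modulo `p` are the same for all of them; if `p ∣ d` then `p ∤ a j`, `n = 0`; otherwise choose `n` with `a + d n ≡ 1 (mod p)`.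
`two_forms`. -/
theorem no_clique (R : ℕ) (hT : TP R) : ∃ R' : ℕ, ∀ x : Fin R' → Af, ∃ i j, i < j ∧ x j * (x i)⁻¹ ∉ BadA := by
  classical
  have hW : NeZero R.factorial := ⟨Nat.factorial_ne_zero R⟩
  refine ⟨R.factorial * R.factorial * R + 1, fun x => ?_⟩
  by_contra hcon
  push Not at hcon
  have hg : ∀ j, ∃ (a : ℤ) (d : ℕ) (hd : 0 < d), x j * (x 0)⁻¹ = mp a d hd ∧ Int.gcd a d = 1 := by
    intro j
    rcases eq_or_ne j 0 with rfl | hj
    · refine ⟨0, 1, one_pos, ?_, by simp⟩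
      rw [mul_inv_cancel]
      ext
      · simp [mp]
      · simp [mp]
    · obtain ⟨a, d, hd, h1, h2, -⟩ := hcon 0 j (Fin.pos_iff_ne_zero.2 hj)
      exact ⟨a, d, hd, h1, h2⟩
  choose a d hd hx hgcd using hg
  obtain ⟨y, hy⟩ := Fintype.exists_lt_card_fiber_of_mul_lt_card
    (f := fun j => (((a j : ZMod R.factorial), (d j : ZMod R.factorial)) :
      ZMod R.factorial × ZMod R.factorial)) (n := R) (by
        rw [Fintype.card_prod, ZMod.card, Fintype.card_fin]
        exact Nat.lt_succ_self _)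
  set S := Finset.univ.filter fun j => (((a j : ZMod R.factorial), (d j : ZMod R.factorial)) :
      ZMod R.factorial × ZMod R.factorial) = y with hS
  let e := S.orderEmbOfCardLe hy.le
  have he : ∀ i, ((a (e i) : ZMod R.factorial), (d (e i) : ZMod R.factorial)) = y := by
    intro i
    have h1 : e i ∈ S := S.orderEmbOfCardLe_mem hy.le i
    rw [hS, mem_filter] at h1
    exact h1.2
  refine two_forms R hT (fun i => a (e i)) (fun i => d (e i)) (fun i => hd (e i))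
    (fun i => hgcd (e i)) ?_ ?_
  · intro p hp hpR
    have hR : 0 < R := hp.pos.trans_le hpR
    refine nc_loc R.factorial (fun i => a (e i)) (fun i => d (e i)) (fun i => hgcd (e i)) ⟨0, hR⟩
      (fun i => ?_) (fun i => ?_) p hp ((hp.dvd_factorial).2 hpR)
    · exact congrArg Prod.fst ((he i).trans (he ⟨0, hR⟩).symm)
    · exact congrArg Prod.snd ((he i).trans (he ⟨0, hR⟩).symm)
  · intro i j hij
    have h1 := hcon (e i) (e j) (e.lt_iff_lt.2 hij)
    have h2 : x (e j) * (x (e i))⁻¹ = (x (e j) * (x 0)⁻¹) * (x (e i) * (x 0)⁻¹)⁻¹ := by group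
    rw [h2, hx, hx] at h1
    exact h1

end Pool.Agent.StrG
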