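import Pool.Agent.StrG.MeanB

/-! STRUCTURE ON GROUPS (helper37): module ULT (from invariant means to almost invariant finite sets). -/

set_option autoImplicit false

namespace Pool.Agent.StrG

open Finset Filter Topology

variable {G : Type} [Group G]

/-- the average over a finite set -/
private noncomputable def ultA (Φ : Finset G) (f : G → ℝ) : ℝ := (∑ x ∈ Φ, f x) / Φ.card

omit [Group G] in
private theorem ultA_add (Φ : Finset G) (f g : G → ℝ) :
    ultA Φ (fun x => f x + g x) = ultA Φ f + ultA Φ g := by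
  unfold ultA
  rw [sum_add_distrib, add_div]

omit [Group G] in
private theorem ultA_smul (Φ : Finset G) (c : ℝ) (f : G → ℝ) :
    ultA Φ (fun x => c * f x) = c * ultA Φ f := by
  unfold ultA
  rw [← mul_sum, mul_div_assoc]

omit [Group G] in
private theorem ultA_nonneg (Φ : Finset G) (f : G → ℝ) (h : ∀ x, 0 ≤ f x) : 0 ≤ ultA Φ f := by
  unfold ultA
  exact div_nonneg (sum_nonneg fun x _ => h x) (Nat.cast_nonneg _)

omit [Group G] in
private theorem ultA_abs (Φ : Finset G) (hΦ : Φ.Nonempty) (f : G → ℝ) (C : ℝ) (h : ∀ x, |f x| ≤ C) :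
    |ultA Φ f| ≤ C := by
  have hL' : (0 : ℝ) < Φ.card := by exact_mod_cast hΦ.card_pos
  unfold ultA
  rw [abs_div, abs_of_pos hL', div_le_iff₀ hL']
  refine (abs_sum_le_sum_abs _ _).trans ?_
  refine (sum_le_card_nsmul _ _ C fun x _ => h x).trans ?_
  rw [nsmul_eq_mul, mul_comm]

private theorem ult_shift (Φ : Finset G) (g : G) (f : G → ℝ) (C : ℝ) (hC : ∀ x, |f x| ≤ C) :
    |∑ x ∈ Φ, f (x * g) - ∑ x ∈ Φ, f x| ≤ 2 * C * (({s : G | s ∈ Φ ∧ s * g ∉ Φ}.ncard : ℕ) : ℝ) := by
  classical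
  have h0 : ∑ x ∈ Φ, f (x * g) = ∑ x ∈ Φ.image (fun s => s * g), f x := by
    rw [sum_image fun a _ b _ hab => mul_right_cancel hab]
  have hcard : (Φ.image (fun s => s * g)).card = Φ.card :=
    card_image_of_injective _ fun a b hab => mul_right_cancel hab
  have h1 : (Φ.image (fun s => s * g) \ Φ).card = {s : G | s ∈ Φ ∧ s * g ∉ Φ}.ncard := by
    have h2 : {s : G | s ∈ Φ ∧ s * g ∉ Φ} = ((Φ.filter fun s => s * g ∉ Φ : Finset G) : Set G) := by
      ext s
      simp
    rw [h2, Set.ncard_coe_finset]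
    have h3 : Φ.image (fun s => s * g) \ Φ = (Φ.filter fun s => s * g ∉ Φ).image (fun s => s * g) := by
      ext t
      simp only [Finset.mem_sdiff, mem_image, mem_filter]
      constructor
      · rintro ⟨⟨s, hs, rfl⟩, ht⟩
        exact ⟨s, ⟨hs, ht⟩, rfl⟩
      · rintro ⟨s, ⟨hs, ht⟩, rfl⟩
        exact ⟨⟨s, hs, rfl⟩, ht⟩
    rw [h3, card_image_of_injective _ fun a b hab => mul_right_cancel hab]
  have h4 : (Φ \ Φ.image (fun s => s * g)).card = (Φ.image (fun s => s * g) \ Φ).card :=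
    card_sdiff_comm hcard.symm
  rw [h0, ← sum_sdiff_sub_sum_sdiff, ← h1]
  have hb : ∀ A : Finset G, |∑ x ∈ A, f x| ≤ C * A.card := by
    intro A
    refine (abs_sum_le_sum_abs _ _).trans ?_
    refine (sum_le_card_nsmul _ _ C fun x _ => hC x).trans ?_
    rw [nsmul_eq_mul, mul_comm]
  refine (abs_sub _ _).trans ?_
  have h5 := hb (Φ.image (fun s => s * g) \ Φ)
  have h6 := hb (Φ \ Φ.image (fun s => s * g))
  rw [h4] at h6
  linarith

/-- ULT.  If a bounded function has mean at most `c` for every right invariant mean, then its average over every sufficiently right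
invariant finite set is at most `c + ε`.
PROOF: otherwise for every finite `F ⊆ S` and `n` there is a finite nonempty `Φ (F, n)` with `#{s ∈ Φ : s g ∉ Φ} ≤ #Φ / (n + 1)` for `g ∈ F` and average
`> c + ε`.  Take an ultrafilter `U ≤ atTop` on `Finset G × ℕ` (or on `Finset S × ℕ`), `M h = lim_U` average of `h` over `Φ (F, n)` (as in StrA/MeanEx.lean:
for bounded `h` the averages are bounded, compactness; linear, positive, normalised).  For `g ∈ S`:
`|∑_{s ∈ Φ} h (s g) - ∑_{s ∈ Φ} h s| ≤ 2 C #{s ∈ Φ : s g ∉ Φ}` (the map `s ↦ s g` is injective, `#{t ∈ Φ : t g⁻¹ ∉ Φ} = #{s ∈ Φ : s g ∉ Φ}`), so `M` is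
invariant under `g ∈ S`, so right invariant (`rinv_of_closure`), but `M f ≥ c + ε`. -/
theorem folner (S : Set G) (hS : Subgroup.closure S = ⊤) (f : G → ℝ) (hf : Bd f) (c : ℝ)
    (hc : ∀ M : GMean G, RInv M → M.m f ≤ c) (ε : ℝ) (hε : 0 < ε) :
    ∃ (F : Finset G) (δ : ℝ), (↑F : Set G) ⊆ S ∧ 0 < δ ∧ ∀ Φ : Finset G, Φ.Nonempty →
      (∀ g ∈ F, (({s : G | s ∈ Φ ∧ s * g ∉ Φ}.ncard : ℕ) : ℝ) ≤ δ * Φ.card) → ∑ s ∈ Φ, f s ≤ (c + ε) * Φ.card := by
  classical
  by_contra hcon
  push Not at hcon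
  have hex0 : ∀ i : Finset S × ℕ, ∃ Φ : Finset G, Φ.Nonempty ∧
      (∀ g ∈ i.1, (({s : G | s ∈ Φ ∧ s * (g : G) ∉ Φ}.ncard : ℕ) : ℝ) ≤ 1 / ((i.2 : ℝ) + 1) * Φ.card) ∧
      (c + ε) * Φ.card < ∑ s ∈ Φ, f s := by
    intro i
    obtain ⟨Φ, h1, h2, h3⟩ := hcon (i.1.image Subtype.val) (1 / ((i.2 : ℝ) + 1)) (by
      intro g hg
      rw [mem_coe, mem_image] at hg
      obtain ⟨s, -, rfl⟩ := hg
      exact s.2) (by positivity)
    exact ⟨Φ, h1, fun g hg => h2 g (mem_image_of_mem _ hg), h3⟩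
  choose Φ hΦ1 hΦ2 hΦ3 using hex0
  let U : Ultrafilter (Finset S × ℕ) := Ultrafilter.of atTop
  have hU : (U : Filter (Finset S × ℕ)) ≤ atTop := Ultrafilter.of_le atTop
  have hex : ∀ h : G → ℝ, Bd h → Tendsto (fun i => ultA (Φ i) h) U
      (𝓝 (limUnder (U : Filter (Finset S × ℕ)) fun i => ultA (Φ i) h)) := by
    rintro h ⟨C, hC⟩
    apply tendsto_nhds_limUnder
    obtain ⟨y, -, hy⟩ := (isCompact_Icc (a := -C) (b := C)).ultrafilter_le_nhds
      (U.map fun i => ultA (Φ i) h) (by
        rw [le_principal_iff]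
        change (fun i => ultA (Φ i) h) ⁻¹' Set.Icc (-C) C ∈ U
        filter_upwards with i
        exact Set.mem_Icc.2 (abs_le.1 (ultA_abs (Φ i) (hΦ1 i) h C hC)))
    exact ⟨y, hy⟩
  let M : GMean G :=
    { m := fun h => limUnder (U : Filter (Finset S × ℕ)) fun i => ultA (Φ i) h
      add' := by
        intro f g hf hg
        refine tendsto_nhds_unique (hex _ (hf.add hg)) ?_
        refine ((hex f hf).add (hex g hg)).congr fun i => ?_
        rw [ultA_add]
      smul' := by
        intro c f hf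
        refine tendsto_nhds_unique (hex _ (hf.smul c)) ?_
        refine ((hex f hf).const_mul c).congr fun i => ?_
        rw [ultA_smul]
      nonneg' := by
        intro f hf h0
        exact ge_of_tendsto' (hex f hf) fun i => ultA_nonneg _ f h0
      one' := by
        refine tendsto_nhds_unique (hex _ (Bd.const 1)) ?_
        refine tendsto_const_nhds.congr fun i => ?_
        unfold ultA
        rw [sum_const, nsmul_eq_mul, mul_one, div_self]
        exact_mod_cast (hΦ1 i).card_pos.ne' }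
  have hinv : RInv M := by
    refine rinv_of_closure M S hS fun g hg h hh => ?_
    refine tendsto_nhds_unique (hex _ (hh.comp fun x => x * g)) ?_
    obtain ⟨C, hC⟩ := hh
    have hC0 : 0 ≤ C := (abs_nonneg _).trans (hC 1)
    have h0 : Tendsto (fun i => ultA (Φ i) (fun x => h (x * g)) - ultA (Φ i) h)
        (U : Filter (Finset S × ℕ)) (𝓝 0) := by
      have h1 : Tendsto (fun i : Finset S × ℕ => 2 * C * (1 / ((i.2 : ℝ) + 1)))
          (U : Filter (Finset S × ℕ)) (𝓝 0) := by
        have h2 : Tendsto (fun i : Finset S × ℕ => i.2) atTop atTop := by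
          rw [← prod_atTop_atTop_eq]
          exact tendsto_snd
        have h3 := (tendsto_one_div_add_atTop_nhds_zero_nat (𝕜 := ℝ)).comp h2
        have h4 := (h3.const_mul (2 * C)).mono_left hU
        rw [mul_zero] at h4
        exact h4
      refine squeeze_zero_norm' ?_ h1
      have h5 : ∀ᶠ i : Finset S × ℕ in (U : Filter (Finset S × ℕ)), (⟨g, hg⟩ : S) ∈ i.1 := by
        refine hU ?_
        filter_upwards [eventually_ge_atTop (({⟨g, hg⟩}, 0) : Finset S × ℕ)] with i hi
        exact hi.1 (mem_singleton_self _)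
      filter_upwards [h5] with i hi
      have hpos : (0 : ℝ) < (Φ i).card := by exact_mod_cast (hΦ1 i).card_pos
      have h6 := ult_shift (Φ i) g h C hC
      have h7 := hΦ2 i ⟨g, hg⟩ hi
      rw [Real.norm_eq_abs]
      unfold ultA
      rw [← sub_div, abs_div, abs_of_pos hpos, div_le_iff₀ hpos]
      refine h6.trans ?_
      rw [mul_assoc (2 * C)]
      exact mul_le_mul_of_nonneg_left h7 (by positivity)
    have h8 := (hex h ⟨C, hC⟩).add h0
    rw [add_zero] at h8
    refine h8.congr fun i => ?_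
    ring
  have hfin : c + ε ≤ M.m f := by
    refine ge_of_tendsto' (hex f hf) fun i => ?_
    have hpos : (0 : ℝ) < (Φ i).card := by exact_mod_cast (hΦ1 i).card_pos
    unfold ultA
    rw [le_div_iff₀ hpos]
    exact (hΦ3 i).le
  linarith [hc M hinv]

end Pool.Agent.StrG
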