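import Pool.Agent.StrG.Clique
import Pool.Agent.StrG.Ult

/-! STRUCTURE ON GROUPS (helper37): module SEM (Theorem G for a semigroup in a group, in terms of almost right invariant finite
sets). -/

set_option autoImplicit false

namespace Pool.Agent.StrG

open Finset Filter Topology

theorem ind_apply {X : Type} (E : Set X) (x : X) [Decidable (x ∈ E)] : ind E x = if x ∈ E then 1 else 0 := by
  unfold ind
  by_cases h : x ∈ E
  · rw [if_pos h, Set.indicator_of_mem h]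
  · rw [if_neg h, Set.indicator_of_notMem h]

/-- SEM. -/
theorem semigroup_bohr {α Γ : Type} [DecidableEq α] [Group Γ] (S : Set α) (cmp : α → α → α) (e : α → Γ)
    (hinj : Set.InjOn e S) (hcl : ∀ s ∈ S, ∀ t ∈ S, cmp s t ∈ S ∧ e (cmp s t) = e s * e t) (Bad : Set α) (R : ℕ)
    (hR : ∀ x : Fin R → Γ, ∃ i j, i < j ∧ x j * (x i)⁻¹ ∉ e '' (S ∩ Bad)) :
    ∃ (n : ℕ) (π : α → Matrix (Fin n) (Fin n) ℂ) (ρ c : ℝ), 0 < ρ ∧ 0 < c ∧
      (∀ s ∈ S, π s ∈ Matrix.unitaryGroup (Fin n) ℂ) ∧ (∀ s ∈ S, ∀ t ∈ S, π (cmp s t) = π s * π t) ∧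
      ∀ ε : ℝ, 0 < ε → ∃ (F : Finset α) (δ : ℝ), (↑F : Set α) ⊆ S ∧ 0 < δ ∧
        ∀ Φ : Finset α, Φ.Nonempty → (↑Φ : Set α) ⊆ S →
          (∀ g ∈ F, (({s : α | s ∈ Φ ∧ cmp s g ∉ Φ}.ncard : ℕ) : ℝ) ≤ δ * Φ.card) →
          c * Φ.card ≤ ({s : α | s ∈ Φ ∧ ∀ i j, ‖π s i j - (1 : Matrix (Fin n) (Fin n) ℂ) i j‖ < ρ}.ncard : ℝ) ∧
          ({s : α | s ∈ Φ ∧ (∀ i j, ‖π s i j - (1 : Matrix (Fin n) (Fin n) ℂ) i j‖ < ρ) ∧ s ∈ Bad}.ncard : ℝ) ≤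
            ε * ({s : α | s ∈ Φ ∧ ∀ i j, ‖π s i j - (1 : Matrix (Fin n) (Fin n) ℂ) i j‖ < ρ}.ncard : ℝ) := by
  classical
  obtain ⟨K, hK⟩ : ∃ K, K = Subgroup.closure (e '' S) := ⟨_, rfl⟩
  have hmem : ∀ s ∈ S, e s ∈ K := fun s hs => by
    rw [hK]
    exact Subgroup.subset_closure (Set.mem_image_of_mem e hs)
  obtain ⟨u, hu⟩ : ∃ u : α → K, ∀ s ∈ S, ((u s : K) : Γ) = e s :=
    ⟨fun s => if h : s ∈ S then ⟨e s, hmem s h⟩ else 1, fun s hs => by simp [hs]⟩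
  have huinj : Set.InjOn u S := fun s hs t ht hst => hinj hs ht (by rw [← hu s hs, ← hu t ht, hst])
  have hucmp : ∀ s ∈ S, ∀ t ∈ S, u (cmp s t) = u s * u t := fun s hs t ht => by
    apply Subtype.ext
    rw [hu _ (hcl s hs t ht).1, (hcl s hs t ht).2, Subgroup.coe_mul, hu s hs, hu t ht]
  set B : Set K := {x | (x : Γ) ∈ e '' (S ∩ Bad)} with hB
  have huB : ∀ s ∈ S, (u s ∈ B ↔ s ∈ Bad) := fun s hs => by
    rw [hB, Set.mem_setOf_eq, hu s hs]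
    constructor
    · rintro ⟨t, ht, hts⟩
      rw [← hinj ht.1 hs hts]
      exact ht.2
    · intro h
      exact ⟨s, ⟨hs, h⟩, rfl⟩
  obtain ⟨V, ⟨n, π₀, ρ, hρ, hVn⟩, hnull⟩ := thmG B R fun x => by
    obtain ⟨i, j, hij, h⟩ := hR fun i => (x i : Γ)
    exact ⟨i, j, hij, fun h' => h h'⟩
  obtain ⟨c₀, hc₀, hcR, -⟩ := bohr_pos (V := V) ⟨n, π₀, ρ, hρ, hVn⟩
  have hgen : Subgroup.closure {x : K | (x : Γ) ∈ e '' S} = ⊤ := by
    subst hK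
    exact Subgroup.closure_closure_coe_preimage
  refine ⟨n, fun s => (π₀ (u s) : Matrix (Fin n) (Fin n) ℂ), ρ, c₀ / 2, hρ, by positivity, fun s _ => (π₀ (u s)).2,
    fun s hs t ht => by
      show (π₀ (u (cmp s t)) : Matrix (Fin n) (Fin n) ℂ) = _
      rw [hucmp s hs t ht, map_mul]
      rfl, fun ε hε => ?_⟩
  obtain ⟨F₁, δ₁, hF₁, hδ₁, h₁⟩ := folner {x : K | (x : Γ) ∈ e '' S} hgen (ind (B ∩ V)) (bd_ind _) 0
    (fun M hM => (hnull M hM).le) (ε * (c₀ / 2)) (by positivity)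
  obtain ⟨F₂, δ₂, hF₂, hδ₂, h₂⟩ := folner {x : K | (x : Γ) ∈ e '' S} hgen (fun x => (-1) * ind V x)
    ((bd_ind V).smul _) (-c₀) (fun M hM => by
      rw [M.smul' _ _ (bd_ind V)]
      have := hcR M hM
      linarith) (c₀ / 2) (by positivity)
  -- preimages of the finite sets
  have hpre : ∀ F : Finset K, (↑F : Set K) ⊆ {x : K | (x : Γ) ∈ e '' S} →
      ∃ F' : Finset α, (↑F' : Set α) ⊆ S ∧ ∀ x ∈ F, ∃ s ∈ F', u s = x := by
    intro F hF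
    have h : ∀ x : F, ∃ s : α, s ∈ S ∧ u s = x := fun x => by
      obtain ⟨s, hs, hsx⟩ := hF x.2
      exact ⟨s, hs, Subtype.ext (by rw [hu s hs, hsx])⟩
    choose f hf using h
    refine ⟨Finset.univ.image f, ?_, fun x hx => ⟨f ⟨x, hx⟩, Finset.mem_image_of_mem f (Finset.mem_univ _), (hf ⟨x, hx⟩).2⟩⟩
    intro s hs
    rw [Finset.coe_image] at hs
    obtain ⟨x, -, rfl⟩ := hs
    exact (hf x).1
  obtain ⟨F₁', hF₁', hF₁u⟩ := hpre F₁ hF₁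
  obtain ⟨F₂', hF₂', hF₂u⟩ := hpre F₂ hF₂
  refine ⟨F₁' ∪ F₂', min δ₁ δ₂, ?_, lt_min hδ₁ hδ₂, fun Φ hΦ hΦS hinv => ?_⟩
  · rw [Finset.coe_union]
    exact Set.union_subset hF₁' hF₂'
  set Ψ : Finset K := Φ.image u with hΨ
  have hcard : Ψ.card = Φ.card := Finset.card_image_of_injOn (huinj.mono hΦS)
  have hΨne : Ψ.Nonempty := hΦ.image u
  have hcardR : (0 : ℝ) ≤ Φ.card := Nat.cast_nonneg _
  -- invariance of Ψ
  have hinv' : ∀ g ∈ F₁' ∪ F₂', (({x : K | x ∈ Ψ ∧ x * u g ∉ Ψ}.ncard : ℕ) : ℝ) ≤ min δ₁ δ₂ * Φ.card := by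
    intro g hg
    have hgS : g ∈ S := by
      rcases Finset.mem_union.1 hg with h | h
      · exact hF₁' h
      · exact hF₂' h
    refine le_trans ?_ (hinv g hg)
    have hfin : {s : α | s ∈ Φ ∧ cmp s g ∉ Φ}.Finite := Φ.finite_toSet.subset fun s hs => hs.1
    have h1 : {x : K | x ∈ Ψ ∧ x * u g ∉ Ψ} ⊆ u '' {s : α | s ∈ Φ ∧ cmp s g ∉ Φ} := by
      rintro x ⟨hx, hxg⟩
      obtain ⟨s, hs, rfl⟩ := Finset.mem_image.1 hx
      refine ⟨s, ⟨hs, fun hc => hxg ?_⟩, rfl⟩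
      rw [← hucmp s (hΦS hs) g hgS]
      exact Finset.mem_image_of_mem u hc
    exact_mod_cast (Set.ncard_le_ncard h1 (hfin.image _)).trans (Set.ncard_image_le hfin)
  have hsum : ∀ f : K → ℝ, ∑ x ∈ Ψ, f x = ∑ s ∈ Φ, f (u s) := fun f => by
    rw [hΨ, Finset.sum_image (fun s hs t ht hst => huinj (hΦS hs) (hΦS ht) hst)]
  have e₁ := h₁ Ψ hΨne fun g hg => by
    obtain ⟨s, hs, rfl⟩ := hF₁u g hg
    rw [hcard]
    refine (hinv' s (Finset.mem_union_left _ hs)).trans ?_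
    exact mul_le_mul_of_nonneg_right (min_le_left _ _) hcardR
  have e₂ := h₂ Ψ hΨne fun g hg => by
    obtain ⟨s, hs, rfl⟩ := hF₂u g hg
    rw [hcard]
    refine (hinv' s (Finset.mem_union_right _ hs)).trans ?_
    exact mul_le_mul_of_nonneg_right (min_le_right _ _) hcardR
  rw [hsum, hcard] at e₁ e₂
  -- the counts
  have hcount : ∀ (E : Set K) (P : α → Prop), (∀ s ∈ Φ, u s ∈ E ↔ P s) →
      ∑ s ∈ Φ, ind E (u s) = ({s : α | s ∈ Φ ∧ P s}.ncard : ℝ) := by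
    intro E P hP
    have h1 : {s : α | s ∈ Φ ∧ P s} = ↑(Φ.filter P) := by
      ext s
      rw [Finset.coe_filter]
    rw [h1, Set.ncard_coe_finset, Finset.card_filter]
    push_cast
    refine Finset.sum_congr rfl fun s hs => ?_
    rw [ind_apply]
    by_cases h : P s
    · rw [if_pos h, if_pos ((hP s hs).2 h)]
    · rw [if_neg h, if_neg fun h' => h ((hP s hs).1 h')]
  have hnear : ∀ s, (u s ∈ V ↔ ∀ i j, ‖(π₀ (u s) : Matrix (Fin n) (Fin n) ℂ) i j - (1 : Matrix (Fin n) (Fin n) ℂ) i j‖ < ρ) :=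
    fun s => by rw [hVn]; rfl
  have hV1 := hcount V _ fun s _ => hnear s
  have hV2 := hcount (B ∩ V) (fun s => (∀ i j, ‖(π₀ (u s) : Matrix (Fin n) (Fin n) ℂ) i j -
      (1 : Matrix (Fin n) (Fin n) ℂ) i j‖ < ρ) ∧ s ∈ Bad) fun s hs => by
    rw [Set.mem_inter_iff, huB s (hΦS hs), hnear s]
    exact and_comm
  rw [hV2] at e₁
  rw [← Finset.mul_sum, hV1] at e₂
  have e₃ : c₀ / 2 * (Φ.card : ℝ) ≤ ({s : α | s ∈ Φ ∧ ∀ i j, ‖(π₀ (u s) : Matrix (Fin n) (Fin n) ℂ) i j -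
      (1 : Matrix (Fin n) (Fin n) ℂ) i j‖ < ρ}.ncard : ℝ) := by
    linarith
  refine ⟨e₃, e₁.trans ?_⟩
  rw [zero_add, mul_assoc]
  exact mul_le_mul_of_nonneg_left e₃ hε.le

end Pool.Agent.StrG
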