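import Pool.Agent.StrG.Apx
import Pool.Agent.StrG.AlgM
import Pool.Agent.StrG.Gns

/-! STRUCTURE ON GROUPS (helper37): module STEP. -/

set_option autoImplicit false

namespace Pool.Agent.StrG

open Finset Filter Topology

variable {G : Type} [Group G]

theorem prod01 (l : List G) (f : G → ℝ) (hf : ∀ x, 0 ≤ f x ∧ f x ≤ 1) (x : G) :
    0 ≤ (l.map fun y => f (x * y)).prod ∧ (l.map fun y => f (x * y)).prod ≤ 1 := by
  induction l with
  | nil => simp
  | cons a l ih =>
    simp only [List.map_cons, List.prod_cons]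
    exact ⟨mul_nonneg (hf _).1 ih.1, mul_le_one₀ (hf _).2 ih.1 ih.2⟩

/-- STEP. -/
theorem step (B : Set G) (hB : ∀ V, IsBohr V → ¬ NullR (B ∩ V)) (U : Set G) (hU : IsBohr U) (k : ℕ) :
    ∃ (M : GMean G) (ω : G → ℝ) (V : Set G) (Ex : List G → Set G), RInv M ∧ (∀ x, 0 ≤ ω x ∧ ω x ≤ 1) ∧
      (∀ x, 0 < ω x → x ∈ U) ∧ IsBohr V ∧ V ⊆ U ∧ (∀ l, NullL (Ex l)) ∧
      ∀ l : List G, l.length = k → (∀ y ∈ l, y ∈ V) → (∀ (c : ℕ) (hc : c < l.length), l[c] ∉ Ex (l.take c)) →
        0 < M.m fun x => ω x * (l.map fun y => ind B (x * y)).prod := by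
  obtain ⟨m, π, ρ, hρ, rfl⟩ := hU
  obtain ⟨ρ₁, hρ₁, hle⟩ := le_tent π ρ hρ
  have hnn := hB (near π ρ₁) (isBohr_near π ρ₁ hρ₁)
  unfold NullR at hnn
  push Not at hnn
  obtain ⟨M, hM, hMne⟩ := hnn
  have hMpos : 0 < M.m (ind (B ∩ near π ρ₁)) :=
    lt_of_le_of_ne (M.nonneg' _ (bd_ind _) fun x => (ind01 _ x).1) (Ne.symm hMne)
  set f : G → ℝ := ind B with hf
  have hf01 : ∀ x, 0 ≤ f x ∧ f x ≤ 1 := ind01 B
  set ω : G → ℝ := tent π ρ with hω
  have hω01 : ∀ x, 0 ≤ ω x ∧ ω x ≤ 1 := tent01 π ρ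
  set c : ℝ := M.m fun x => ω x * f x with hc
  have hcpos : 0 < c := by
    have h1 : M.m (fun x => (1 / 2 : ℝ) * ind (B ∩ near π ρ₁) x) ≤ c := by
      refine M.mono ((bd_ind _).smul _) (bd01 (mul01 hω01 hf01)) fun x => ?_
      by_cases hx : x ∈ B ∩ near π ρ₁
      · have h2 : ind (B ∩ near π ρ₁) x = 1 := by unfold ind; simp only [Set.indicator_of_mem hx]
        have h3 : f x = 1 := by rw [hf]; unfold ind; simp only [Set.indicator_of_mem hx.1]
        rw [h2, h3, mul_one, mul_one]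
        exact hle x hx.2
      · have h2 : ind (B ∩ near π ρ₁) x = 0 := by unfold ind; simp only [Set.indicator_of_notMem hx]
        rw [h2, mul_zero]
        exact (mul01 hω01 hf01 x).1
    rw [M.smul' _ _ (bd_ind _)] at h1
    exact lt_of_lt_of_le (by positivity) h1
  obtain ⟨H, i1, i2, i3, ⟨R⟩⟩ := exists_rep M hM
  obtain ⟨φ, hφ, w, hfw, hw⟩ := decomp R.T (R.ι fun x => (f x : ℂ))
  -- the small number
  obtain ⟨η, hη, hηc⟩ : ∃ η : ℝ, 0 < η ∧ (k : ℝ) * (3 * η) < (c - η) ^ k ∧ η < c := by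
    have h1 : Tendsto (fun η : ℝ => (c - η) ^ k - (k : ℝ) * (3 * η)) (𝓝[>] 0) (𝓝 ((c - 0) ^ k - (k : ℝ) * (3 * 0))) := by
      refine Tendsto.mono_left ?_ nhdsWithin_le_nhds
      exact (by fun_prop : Continuous fun η : ℝ => (c - η) ^ k - (k : ℝ) * (3 * η)).tendsto 0
    have h2 : (0 : ℝ) < (c - 0) ^ k - (k : ℝ) * (3 * 0) := by
      simp only [sub_zero, mul_zero]
      positivity
    have h3 := h1.eventually (lt_mem_nhds h2)
    have h4 : ∀ᶠ η : ℝ in 𝓝[>] 0, 0 < η := self_mem_nhdsWithin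
    have h5 : ∀ᶠ η : ℝ in 𝓝[>] 0, η < c := (Ioo_mem_nhdsGT hcpos : Set.Ioo 0 c ∈ 𝓝[>] (0 : ℝ)) |> fun h =>
      Filter.mem_of_superset h fun x hx => hx.2
    obtain ⟨η, h6, h7, h8⟩ := (h3.and (h4.and h5)).exists
    exact ⟨η, h7, by linarith, h8⟩
  obtain ⟨V', hV', hret⟩ := bohr_return R.T φ hφ η hη
  obtain ⟨g, hg01, hg⟩ := approx hM R f hf01 φ w hfw hφ hw η hη
  obtain ⟨V, hV, hV1, hV2⟩ := IsBohr.inter (isBohr_near π ρ hρ) hV'
  set b : List G → G → ℝ := fun l x => ω x * (l.map fun y => f (x * y)).prod * g x ^ (k - 1 - l.length) with hb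
  have hb01 : ∀ l x, 0 ≤ b l x ∧ b l x ≤ 1 := fun l x =>
    mul01 (mul01 hω01 (prod01 l f hf01)) (pow01 hg01 _) x
  refine ⟨M, ω, V, fun l => {y : G | η < ‖(inner ℂ (R.ι fun x => (b l x : ℂ)) (R.T y w) : ℂ)‖}, hM, hω01,
    fun x hx => tent_pos_mem π ρ hρ x hx, hV, hV1, fun l => weak_null R.T _ w hw η hη, ?_⟩
  intro l hl hlV hlE
  rcases Nat.eq_zero_or_pos k with hk0 | hk
  · have hl0 : l = [] := List.length_eq_zero_iff.1 (by omega)
    subst hl0
    have h1 : c ≤ M.m fun x => ω x * (([] : List G).map fun y => ind B (x * y)).prod := by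
      refine M.mono (bd01 (mul01 hω01 hf01)) (bd01 (mul01 hω01 (prod01 [] (ind B) (ind01 B)))) fun x => ?_
      simp only [List.map_nil, List.prod_nil, mul_one]
      exact mul_le_of_le_one_right (hω01 x).1 (hf01 x).2
    exact lt_of_lt_of_le hcpos h1
  -- the telescoping sum
  set Y : ℕ → ℝ := fun d => M.m fun x => ω x * ((l.take d).map fun y => f (x * y)).prod * g x ^ (k - d) with hY
  have hstep : ∀ d < k, Y d - 3 * η ≤ Y (d + 1) := by
    intro d hd
    have hdl : d < l.length := by omega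
    set y : G := l[d] with hy
    have htake : l.take (d + 1) = l.take d ++ [y] := by
      rw [List.take_succ_eq_append_getElem hdl]
    have hlen : (l.take d).length = d := by rw [List.length_take]; omega
    have hbd : ∀ x, b (l.take d) x = ω x * ((l.take d).map fun y => f (x * y)).prod * g x ^ (k - 1 - d) := fun x => by
      simp only [hb, hlen]
    have hfy : Bd fun x => f (x * y) := (bd01 hf01).comp fun x => x * y
    have hbb : Bd (b (l.take d)) := bd01 (hb01 _)
    have h1 : Y (d + 1) = M.m fun x => b (l.take d) x * f (x * y) := by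
      simp only [hY]
      congr 1
      ext x
      rw [htake, List.map_append, List.prod_append, hbd]
      simp only [List.map_cons, List.map_nil, List.prod_cons, List.prod_nil, mul_one]
      rw [show k - (d + 1) = k - 1 - d by omega]
      ring
    have h2 : Y d = M.m fun x => b (l.take d) x * g x := by
      simp only [hY]
      congr 1
      ext x
      rw [hbd, show k - d = (k - 1 - d) + 1 by omega, pow_succ]
      ring
    -- the inner products
    have h3 : ((Y (d + 1) : ℝ) : ℂ) = inner ℂ (R.ι fun x => (b (l.take d) x : ℂ)) (R.T y (R.ι fun x => (f x : ℂ))) := by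
      rw [R.shift y _ (bdC_of (bd01 hf01)), h1]
      exact (R.re_inner _ _ hbb hfy).symm
    have h4 : ((Y d : ℝ) : ℂ) = inner ℂ (R.ι fun x => (b (l.take d) x : ℂ)) (R.ι fun x => (g x : ℂ)) := by
      rw [h2]
      exact (R.re_inner _ _ hbb (bd01 hg01)).symm
    have hbn : ‖R.ι fun x => (b (l.take d) x : ℂ)‖ ≤ 1 :=
      R.norm_le _ 1 zero_le_one fun x => by
        rw [Complex.norm_real, Real.norm_eq_abs, abs_of_nonneg (hb01 _ x).1]
        exact (hb01 _ x).2
    have h5 : ‖((Y (d + 1) - Y d : ℝ) : ℂ)‖ ≤ 3 * η := by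
      rw [Complex.ofReal_sub, h3, h4, hfw, map_add, inner_add_right]
      have e1 : inner ℂ (R.ι fun x => (b (l.take d) x : ℂ)) (R.T y φ) + inner ℂ (R.ι fun x => (b (l.take d) x : ℂ)) (R.T y w)
          - inner ℂ (R.ι fun x => (b (l.take d) x : ℂ)) (R.ι fun x => (g x : ℂ)) =
          inner ℂ (R.ι fun x => (b (l.take d) x : ℂ)) (R.T y w) +
          (inner ℂ (R.ι fun x => (b (l.take d) x : ℂ)) (R.T y φ - φ) -
          inner ℂ (R.ι fun x => (b (l.take d) x : ℂ)) ((R.ι fun x => (g x : ℂ)) - φ)) := by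
        rw [inner_sub_right, inner_sub_right]
        ring
      rw [e1]
      have h6 : ‖(inner ℂ (R.ι fun x => (b (l.take d) x : ℂ)) (R.T y w) : ℂ)‖ ≤ η := by
        have := hlE d hdl
        simp only [Set.mem_ofPred_eq, not_lt] at this
        exact this
      have h7 : ‖(inner ℂ (R.ι fun x => (b (l.take d) x : ℂ)) (R.T y φ - φ) : ℂ)‖ ≤ η := by
        refine (norm_inner_le_norm _ _).trans ?_
        have h8 := hret y (hV2 (hlV y (List.getElem_mem hdl)))
        calc _ ≤ 1 * η := mul_le_mul hbn h8 (norm_nonneg _) zero_le_one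
          _ = η := one_mul _
      have h9 : ‖(inner ℂ (R.ι fun x => (b (l.take d) x : ℂ)) ((R.ι fun x => (g x : ℂ)) - φ) : ℂ)‖ ≤ η := by
        refine (norm_inner_le_norm _ _).trans ?_
        calc _ ≤ 1 * η := mul_le_mul hbn hg (norm_nonneg _) zero_le_one
          _ = η := one_mul _
      calc _ ≤ η + (η + η) := (norm_add_le _ _).trans (add_le_add h6 ((norm_sub_le _ _).trans (add_le_add h7 h9)))
        _ = 3 * η := by ring
    rw [Complex.norm_real, Real.norm_eq_abs] at h5
    have := (abs_le.1 h5).1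
    linarith
  have hYk : ∀ d ≤ k, Y 0 - d * (3 * η) ≤ Y d := by
    intro d hd
    induction d with
    | zero => simp
    | succ d ih =>
      have h1 := ih (by omega)
      have h2 := hstep d (by omega)
      push_cast
      linarith
  have hY0 : (c - η) ^ k ≤ Y 0 := by
    have hgb := bd01 hg01
    have hωb := bd01 hω01
    -- M (ω g) ≥ c - η
    have h1 : c - η ≤ M.m fun x => ω x * g x := by
      have hte : (inner ℂ (R.ι fun x => (ω x : ℂ)) w : ℂ) = 0 := hw _ (tent_mem π R ρ hρ)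
      have h2 : (((M.m fun x => ω x * g x) - c : ℝ) : ℂ) =
          inner ℂ (R.ι fun x => (ω x : ℂ)) ((R.ι fun x => (g x : ℂ)) - φ) := by
        rw [Complex.ofReal_sub, ← R.re_inner _ _ hωb hgb, hc, ← R.re_inner _ _ hωb (bd01 hf01), hfw, inner_sub_right,
          inner_add_right, hte, add_zero]
      have hωn : ‖R.ι fun x => (ω x : ℂ)‖ ≤ 1 :=
        R.norm_le _ 1 zero_le_one fun x => by
          rw [Complex.norm_real, Real.norm_eq_abs, abs_of_nonneg (hω01 x).1]
          exact (hω01 x).2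
      have h3 : ‖(((M.m fun x => ω x * g x) - c : ℝ) : ℂ)‖ ≤ η := by
        rw [h2]
        refine (norm_inner_le_norm _ _).trans ?_
        calc _ ≤ 1 * η := mul_le_mul hωn hg (norm_nonneg _) zero_le_one
          _ = η := one_mul _
      rw [Complex.norm_real, Real.norm_eq_abs] at h3
      have := (abs_le.1 h3).1
      linarith
    have h5 : Y 0 = M.m fun x => ω x * g x ^ k := by
      simp only [hY]
      congr 1
      ext x
      simp
    rw [h5]
    exact (pow_le_pow_left₀ (by linarith [hηc.2]) h1 k).trans (M.jensen hω01 hg01 k hk)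
  have hfin := hYk k le_rfl
  have hYl : Y k = M.m fun x => ω x * (l.map fun y => ind B (x * y)).prod := by
    simp only [hY]
    congr 1
    ext x
    rw [List.take_of_length_le (by omega), Nat.sub_self, pow_zero, mul_one]
  rw [← hYl]
  linarith [hηc.1]

end Pool.Agent.StrG
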