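import Pool.Agent.StrG.Aff
import Pool.Agent.StrG.BohP

/-! STRUCTURE ON GROUPS (helper37): module TRN (finite dimensional unitary representations of the affine group are trivial on
translations). -/

set_option autoImplicit false

namespace Pool.Agent.StrG

open Finset Filter Topology

private theorem trn_entry {n : ℕ} (U W : Matrix.unitaryGroup (Fin n) ℂ) {ρ' : ℝ}
    (hU : ∀ i j, ‖(U : Matrix (Fin n) (Fin n) ℂ) i j - (1 : Matrix (Fin n) (Fin n) ℂ) i j‖ < ρ')
    (hW : ∀ i j, ‖(W : Matrix (Fin n) (Fin n) ℂ) i j - (1 : Matrix (Fin n) (Fin n) ℂ) i j‖ < ρ')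
    (i j : Fin n) :
    ‖((U⁻¹ * W : Matrix.unitaryGroup (Fin n) ℂ) : Matrix (Fin n) (Fin n) ℂ) i j -
      (1 : Matrix (Fin n) (Fin n) ℂ) i j‖ ≤ n * (2 * ρ') := by
  have h1 : ((U⁻¹ * W : Matrix.unitaryGroup (Fin n) ℂ) : Matrix (Fin n) (Fin n) ℂ) -
      (1 : Matrix (Fin n) (Fin n) ℂ) =
      ((U⁻¹ : Matrix.unitaryGroup (Fin n) ℂ) : Matrix (Fin n) (Fin n) ℂ) *
        ((W : Matrix (Fin n) (Fin n) ℂ) - (U : Matrix (Fin n) (Fin n) ℂ)) := by
    rw [mul_sub]
    congr 1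
    have h2 := congrArg (fun X : Matrix.unitaryGroup (Fin n) ℂ => (X : Matrix (Fin n) (Fin n) ℂ))
      (inv_mul_cancel U)
    exact h2.symm
  have h3 := congrFun (congrFun h1 i) j
  rw [Matrix.sub_apply] at h3
  rw [h3, Matrix.mul_apply]
  calc ‖∑ m, ((U⁻¹ : Matrix.unitaryGroup (Fin n) ℂ) : Matrix (Fin n) (Fin n) ℂ) i m *
        ((W : Matrix (Fin n) (Fin n) ℂ) - (U : Matrix (Fin n) (Fin n) ℂ)) m j‖
      ≤ ∑ m, ‖((U⁻¹ : Matrix.unitaryGroup (Fin n) ℂ) : Matrix (Fin n) (Fin n) ℂ) i m *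
        ((W : Matrix (Fin n) (Fin n) ℂ) - (U : Matrix (Fin n) (Fin n) ℂ)) m j‖ :=
        norm_sum_le _ _
    _ ≤ ∑ m : Fin n, (2 * ρ') := by
        refine Finset.sum_le_sum fun m _ => ?_
        rw [norm_mul]
        have e1 := entry_norm_bound_of_unitary (U⁻¹ : Matrix.unitaryGroup (Fin n) ℂ).2 i m
        have e2 : ‖((W : Matrix (Fin n) (Fin n) ℂ) - (U : Matrix (Fin n) (Fin n) ℂ)) m j‖ ≤
            2 * ρ' := by
          rw [Matrix.sub_apply]
          have e3 := norm_sub_le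
            ((W : Matrix (Fin n) (Fin n) ℂ) m j - (1 : Matrix (Fin n) (Fin n) ℂ) m j)
            ((U : Matrix (Fin n) (Fin n) ℂ) m j - (1 : Matrix (Fin n) (Fin n) ℂ) m j)
          rw [sub_sub_sub_cancel_right] at e3
          linarith [hU m j, hW m j]
        calc _ ≤ 1 * ‖((W : Matrix (Fin n) (Fin n) ℂ) - (U : Matrix (Fin n) (Fin n) ℂ)) m j‖ :=
              mul_le_mul_of_nonneg_right e1 (norm_nonneg _)
          _ ≤ 2 * ρ' := by rw [one_mul]; exact e2
    _ = n * (2 * ρ') := by rw [Finset.sum_const, Finset.card_univ, Fintype.card_fin, nsmul_eq_mul]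

/-- TRN1 (recurrence).  PROOF: `V = near π ρ`, `ρ' = ρ / (2 (n + 1))`, `exists_cover` for `near π ρ'`: for `k : ℕ` choose `y_k` in the finite set with
`y_k⁻¹ x^k ∈ near π ρ'`; pigeonhole gives `k < l` with `y_k = y_l = y`; `x^(l-k) = (y⁻¹ x^k)⁻¹ (y⁻¹ x^l)`, and for unitary `U, W` with entries of
`U - 1, W - 1` of norm `< ρ'` the entries of `Uᴴ W - 1 = (Uᴴ - 1) W + (W - 1)` have norm `≤ n ρ' + ρ' < ρ`. -/
theorem exists_pow_mem {G : Type} [Group G] {V : Set G} (hV : IsBohr V) (x : G) : ∃ s : ℕ, 0 < s ∧ x ^ s ∈ V := by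
  classical
  obtain ⟨n, π, ρ, hρ, rfl⟩ := hV
  have hn : (0 : ℝ) < 2 * (n + 1) := by positivity
  obtain ⟨s, hs⟩ := exists_cover (G := G) (V := near π (ρ / (2 * (n + 1))))
    ⟨n, π, _, div_pos hρ hn, rfl⟩
  choose y hy1 hy2 hy3 using fun k : ℕ => hs (x ^ k)
  obtain ⟨k, l, hkl, hyy⟩ := Finite.exists_ne_map_eq_of_infinite
    (fun k : ℕ => (⟨y k, hy1 k⟩ : s))
  have key : ∀ k l : ℕ, k < l → y k = y l → ∃ s : ℕ, 0 < s ∧ x ^ s ∈ near π ρ := by
    intro k l hkl hyy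
    refine ⟨l - k, by omega, ?_⟩
    have e1 : x ^ (l - k) = ((y k)⁻¹ * x ^ k)⁻¹ * ((y l)⁻¹ * x ^ l) := by
      have e2 : x ^ l = x ^ k * x ^ (l - k) := by rw [← pow_add]; congr 1; omega
      rw [e2, hyy]
      group
    intro i j
    rw [e1, map_mul, map_inv]
    refine (trn_entry _ _ (hy2 k) (hy2 l) i j).trans_lt ?_
    have e3 : (n : ℝ) * (2 * (ρ / (2 * (n + 1)))) = n / (n + 1) * ρ := by
      field_simp
    rw [e3]
    have e4 : (n : ℝ) / (n + 1) < 1 := by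
      rw [div_lt_one (by positivity)]
      linarith
    have e5 := mul_lt_mul_of_pos_right e4 hρ
    linarith
  have hyy' : y k = y l := congrArg Subtype.val hyy
  rcases lt_or_gt_of_ne hkl with h | h
  · exact key k l h hyy'
  · exact key l k h hyy'.symm

private theorem trn_hs {G : Type} [Group G] {κ : Type} [Fintype κ] [DecidableEq κ]
    (π : G →* Matrix.unitaryGroup κ ℂ) (x : G) :
    ((hs π x : ℝ) : ℂ) = Matrix.trace (Matrix.conjTranspose ((π x : Matrix κ κ ℂ) - 1) *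
      ((π x : Matrix κ κ ℂ) - 1)) := by
  unfold hs
  rw [Matrix.trace, Finset.sum_comm]
  push_cast
  refine Finset.sum_congr rfl fun j _ => ?_
  rw [Matrix.diag_apply, Matrix.mul_apply]
  refine Finset.sum_congr rfl fun i _ => ?_
  rw [Matrix.conjTranspose_apply, Matrix.sub_apply, ← Complex.conj_mul']
  rfl

/-- TRN2.  PROOF: `hs π x = 2 n - 2 Re tr (π x)`, the trace is invariant under conjugation; or the Frobenius norm is unitarily
invariant. -/
theorem hs_conj {G : Type} [Group G] {κ : Type} [Fintype κ] [DecidableEq κ] (π : G →* Matrix.unitaryGroup κ ℂ) (x y : G) :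
    hs π (y * x * y⁻¹) = hs π x := by
  have h1 : ((π (y * x * y⁻¹) : Matrix.unitaryGroup κ ℂ) : Matrix κ κ ℂ) - 1 =
      ((π y : Matrix.unitaryGroup κ ℂ) : Matrix κ κ ℂ) *
        (((π x : Matrix.unitaryGroup κ ℂ) : Matrix κ κ ℂ) - 1) *
        Matrix.conjTranspose ((π y : Matrix.unitaryGroup κ ℂ) : Matrix κ κ ℂ) := by
    rw [map_mul, map_mul, map_inv, mul_sub, sub_mul, mul_one]
    have h2 : ((π y : Matrix.unitaryGroup κ ℂ) : Matrix κ κ ℂ) *
        Matrix.conjTranspose ((π y : Matrix.unitaryGroup κ ℂ) : Matrix κ κ ℂ) = 1 :=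
      Matrix.mem_unitaryGroup_iff.1 (π y).2
    rw [h2]
    rfl
  have h3 : Matrix.conjTranspose ((π y : Matrix.unitaryGroup κ ℂ) : Matrix κ κ ℂ) *
      ((π y : Matrix.unitaryGroup κ ℂ) : Matrix κ κ ℂ) = 1 :=
    Matrix.mem_unitaryGroup_iff'.1 (π y).2
  have h4 : ((hs π (y * x * y⁻¹) : ℝ) : ℂ) = ((hs π x : ℝ) : ℂ) := by
    rw [trn_hs, trn_hs, h1]
    set Y := ((π y : Matrix.unitaryGroup κ ℂ) : Matrix κ κ ℂ)
    set A := ((π x : Matrix.unitaryGroup κ ℂ) : Matrix κ κ ℂ) - 1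
    rw [Matrix.conjTranspose_mul, Matrix.conjTranspose_mul, Matrix.conjTranspose_conjTranspose]
    have h5 : Y * (Matrix.conjTranspose A * Matrix.conjTranspose Y) *
        (Y * A * Matrix.conjTranspose Y) =
        Y * (Matrix.conjTranspose A * A) * Matrix.conjTranspose Y := by
      calc _ = Y * Matrix.conjTranspose A * (Matrix.conjTranspose Y * Y) * A *
            Matrix.conjTranspose Y := by simp only [Matrix.mul_assoc]
        _ = _ := by rw [h3, Matrix.mul_one]; simp only [Matrix.mul_assoc]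
    rw [h5, Matrix.trace_mul_comm, ← Matrix.mul_assoc, h3, Matrix.one_mul]
  exact_mod_cast h4

/-- TRN3.  PROOF: `tau ^ s = dil s * tau * (dil s)⁻¹` (`tau_pow`, ext), so `hs π tau = hs π (tau ^ s)` for all `s ≥ 1` (TRN2); by TRN1 for
`near π ρ`, `ρ` small, `hs π tau ≤ n² ρ²`, so `hs π tau = 0`, `π tau = 1`. -/
theorem tau_one {κ : Type} [Fintype κ] [DecidableEq κ] (π : Af →* Matrix.unitaryGroup κ ℂ) : π tau = 1 := by
  have h1 : ∀ (s : ℕ) (hs' : 0 < s), tau ^ s = dil s hs' * tau * (dil s hs')⁻¹ := by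
    intro s hs'
    rw [tau_pow]
    have h2 : (s : ℚ) ≠ 0 := by exact_mod_cast hs'.ne'
    ext
    · simp [dil, tau]
    · simp [dil, tau, h2]
  have h2 : ∀ ρ : ℝ, 0 < ρ → hs π tau ≤ (Fintype.card κ : ℝ) ^ 2 * ρ ^ 2 := by
    intro ρ hρ
    obtain ⟨s, hs', hmem⟩ := exists_pow_mem (isBohr_near π ρ hρ) tau
    have h3 : hs π tau = hs π (tau ^ s) := by rw [h1 s hs', hs_conj]
    rw [h3]
    unfold hs
    calc _ ≤ ∑ _i : κ, ∑ _j : κ, ρ ^ 2 := by
          refine Finset.sum_le_sum fun i _ => Finset.sum_le_sum fun j _ => ?_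
          exact pow_le_pow_left₀ (norm_nonneg _) (hmem i j).le 2
      _ = (Fintype.card κ : ℝ) ^ 2 * ρ ^ 2 := by
          rw [Finset.sum_const, Finset.sum_const, Finset.card_univ, nsmul_eq_mul, nsmul_eq_mul]
          ring
  have h3 : hs π tau ≤ 0 := by
    by_contra hcon
    push Not at hcon
    have h4 : (0 : ℝ) < (Fintype.card κ : ℝ) ^ 2 + 1 := by positivity
    have h5 := h2 (Real.sqrt (hs π tau / ((Fintype.card κ : ℝ) ^ 2 + 1)))
      (Real.sqrt_pos.2 (div_pos hcon h4))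
    rw [Real.sq_sqrt (div_pos hcon h4).le, ← mul_div_assoc, le_div_iff₀ h4] at h5
    nlinarith
  have h4 : ∀ i j, ‖(π tau : Matrix κ κ ℂ) i j - (1 : Matrix κ κ ℂ) i j‖ ^ 2 = 0 := by
    have h5 : hs π tau = 0 := le_antisymm h3 (Finset.sum_nonneg fun i _ =>
      Finset.sum_nonneg fun j _ => sq_nonneg _)
    unfold hs at h5
    rw [Finset.sum_eq_zero_iff_of_nonneg (fun i _ => Finset.sum_nonneg fun j _ => sq_nonneg _)]
      at h5
    intro i j
    have h6 := h5 i (Finset.mem_univ i)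
    rw [Finset.sum_eq_zero_iff_of_nonneg (fun j _ => sq_nonneg _)] at h6
    exact h6 j (Finset.mem_univ j)
  refine Subtype.ext ?_
  ext i j
  have h5 := h4 i j
  rw [sq_eq_zero_iff, norm_eq_zero, sub_eq_zero] at h5
  exact h5

/-- TRN4.  PROOF: `mp a d = tau ^ a * dil d` (integer power), TRN3. -/
theorem rep_slope {κ : Type} [Fintype κ] [DecidableEq κ] (π : Af →* Matrix.unitaryGroup κ ℂ) (a : ℤ) (d : ℕ) (hd : 0 < d) :
    π (mp a d hd) = π (dil d hd) := by
  have h1 : ∀ n : ℕ, π (⟨(n : ℚ), 1, one_pos⟩ : Af) = 1 := by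
    intro n
    rw [← tau_pow, map_pow, tau_one, one_pow]
  have h2 : π (⟨(a : ℚ), 1, one_pos⟩ : Af) = 1 := by
    rcases Int.natAbs_eq a with h | h
    · have h3 := h1 a.natAbs
      have h4 : ((a.natAbs : ℕ) : ℚ) = (a : ℚ) := by
        have h5 : (((a.natAbs : ℕ) : ℤ) : ℚ) = (a : ℚ) := by rw [← h]
        rwa [Int.cast_natCast] at h5
      rwa [h4] at h3
    · have h3 := h1 a.natAbs
      have h4 : (⟨(a : ℚ), 1, one_pos⟩ : Af) = (⟨((a.natAbs : ℕ) : ℚ), 1, one_pos⟩ : Af)⁻¹ := by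
        have h5 : (a : ℚ) = -((a.natAbs : ℕ) : ℚ) := by
          have h6 : ((-((a.natAbs : ℕ) : ℤ) : ℤ) : ℚ) = (a : ℚ) := by rw [← h]
          rw [Int.cast_neg, Int.cast_natCast] at h6
          exact h6.symm
        ext
        · simp only [Af.inv_a, inv_one, one_mul]
          exact h5
        · simp
      rw [h4, map_inv, h3, inv_one]
  have h3 : mp a d hd = (⟨(a : ℚ), 1, one_pos⟩ : Af) * dil d hd := by
    ext
    · simp [mp, dil]
    · simp [mp, dil]
  rw [h3, map_mul, h2, one_mul]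

/-- TRN5.  Bohr sets of the affine group depend only on the slope. -/
theorem bohr_slope {V : Set Af} (hV : IsBohr V) (a : ℤ) (d : ℕ) (hd : 0 < d) : mp a d hd ∈ V ↔ dil d hd ∈ V := by
  obtain ⟨n, π, ρ, hρ, rfl⟩ := hV
  have e := rep_slope π a d hd
  constructor
  · intro h i j
    have h' := h i j
    rw [e] at h'
    exact h'
  · intro h i j
    rw [e]
    exact h i j

end Pool.Agent.StrG
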