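import Pool.Agent.StrG.Sem
import Pool.Agent.StrG.Ntf

/-! STRUCTURE ON GROUPS (helper37): Theorem X (semigroups of maps `q ↦ a + q d`). -/

set_option autoImplicit false

namespace Pool.Agent.StrG

open Finset Filter Topology

/-- THEOREM X. -/
theorem thmX (R : ℕ) (hT : TP R) (S : Set (ℤ × ℕ)) (hS : ∀ s ∈ S, 0 < s.2 ∧ Int.gcd s.1 s.2 = 1)
    (hcl : ∀ s ∈ S, ∀ t ∈ S, (s.1 + s.2 * t.1, s.2 * t.2) ∈ S) :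
    ∃ (n : ℕ) (π : ℤ × ℕ → Matrix (Fin n) (Fin n) ℂ) (ρ c : ℝ), 0 < ρ ∧ 0 < c ∧
      (∀ s ∈ S, π s ∈ Matrix.unitaryGroup (Fin n) ℂ) ∧
      (∀ s ∈ S, ∀ t ∈ S, π (s.1 + s.2 * t.1, s.2 * t.2) = π s * π t) ∧
      ∀ ε : ℝ, 0 < ε → ∃ (F : Finset (ℤ × ℕ)) (δ : ℝ), (↑F : Set (ℤ × ℕ)) ⊆ S ∧ 0 < δ ∧
        ∀ Φ : Finset (ℤ × ℕ), Φ.Nonempty → (↑Φ : Set (ℤ × ℕ)) ⊆ S →
          (∀ g ∈ F, (({s : ℤ × ℕ | s ∈ Φ ∧ (s.1 + s.2 * g.1, s.2 * g.2) ∉ Φ}.ncard : ℕ) : ℝ) ≤ δ * Φ.card) →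
          c * Φ.card ≤ ({s : ℤ × ℕ | s ∈ Φ ∧ ∀ i j, ‖π s i j - (1 : Matrix (Fin n) (Fin n) ℂ) i j‖ < ρ}.ncard : ℝ) ∧
          (1 - ε) * ({s : ℤ × ℕ | s ∈ Φ ∧ ∀ i j, ‖π s i j - (1 : Matrix (Fin n) (Fin n) ℂ) i j‖ < ρ}.ncard : ℝ) ≤
            ({s : ℤ × ℕ | s ∈ Φ ∧ (∀ i j, ‖π s i j - (1 : Matrix (Fin n) (Fin n) ℂ) i j‖ < ρ) ∧
              GI s.1 s.2}.ncard : ℝ) := by
  classical
  obtain ⟨R', hR'⟩ := no_clique R hT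
  obtain ⟨e, he⟩ : ∃ e : ℤ × ℕ → Af, ∀ s : ℤ × ℕ, ∀ h : 0 < s.2, e s = mp s.1 s.2 h :=
    ⟨fun s => if h : 0 < s.2 then mp s.1 s.2 h else 1, fun s h => by simp [h]⟩
  obtain ⟨n, π, ρ, c, hρ, hc, h1, h2, h3⟩ := semigroup_bohr S (fun s t => (s.1 + s.2 * t.1, s.2 * t.2)) e
    (fun s hs t ht hst => by
      rw [he s (hS s hs).1, he t (hS t ht).1] at hst
      have h := mp_inj hst
      exact Prod.ext h.1 h.2)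
    (fun s hs t ht => ⟨hcl s hs t ht, by
      rw [he s (hS s hs).1, he t (hS t ht).1, mp_mul, he _ (Nat.mul_pos (hS s hs).1 (hS t ht).1)]⟩)
    {s | ¬ GI s.1 s.2} R' (fun x => by
      obtain ⟨i, j, hij, h⟩ := hR' x
      refine ⟨i, j, hij, fun h' => h ?_⟩
      obtain ⟨s, ⟨hs, hsb⟩, hse⟩ := h'
      exact ⟨s.1, s.2, (hS s hs).1, by rw [← hse, he s (hS s hs).1], (hS s hs).2, hsb⟩)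
  refine ⟨n, π, ρ, c, hρ, hc, h1, h2, fun ε hε => ?_⟩
  obtain ⟨F, δ, hF, hδ, h4⟩ := h3 ε hε
  refine ⟨F, δ, hF, hδ, fun Φ hΦ hΦS hinv => ?_⟩
  obtain ⟨h5, h6⟩ := h4 Φ hΦ hΦS hinv
  refine ⟨h5, ?_⟩
  have h7 : {s : ℤ × ℕ | s ∈ Φ ∧ ∀ i j, ‖π s i j - (1 : Matrix (Fin n) (Fin n) ℂ) i j‖ < ρ}.ncard ≤
      {s : ℤ × ℕ | s ∈ Φ ∧ (∀ i j, ‖π s i j - (1 : Matrix (Fin n) (Fin n) ℂ) i j‖ < ρ) ∧ GI s.1 s.2}.ncard +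
      {s : ℤ × ℕ | s ∈ Φ ∧ (∀ i j, ‖π s i j - (1 : Matrix (Fin n) (Fin n) ℂ) i j‖ < ρ) ∧
        s ∈ {s : ℤ × ℕ | ¬ GI s.1 s.2}}.ncard := by
    refine le_trans (Set.ncard_le_ncard ?_ ?_) (Set.ncard_union_le _ _)
    · rintro s ⟨ha, hb⟩
      by_cases hg : GI s.1 s.2
      · exact Or.inl ⟨ha, hb, hg⟩
      · exact Or.inr ⟨ha, hb, hg⟩
    · exact (Φ.finite_toSet.subset fun s hs => hs.1).union (Φ.finite_toSet.subset fun s hs => hs.1)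
  have h8 : ({s : ℤ × ℕ | s ∈ Φ ∧ ∀ i j, ‖π s i j - (1 : Matrix (Fin n) (Fin n) ℂ) i j‖ < ρ}.ncard : ℝ) ≤
      ({s : ℤ × ℕ | s ∈ Φ ∧ (∀ i j, ‖π s i j - (1 : Matrix (Fin n) (Fin n) ℂ) i j‖ < ρ) ∧ GI s.1 s.2}.ncard : ℝ) +
      ({s : ℤ × ℕ | s ∈ Φ ∧ (∀ i j, ‖π s i j - (1 : Matrix (Fin n) (Fin n) ℂ) i j‖ < ρ) ∧
        s ∈ {s : ℤ × ℕ | ¬ GI s.1 s.2}}.ncard : ℝ) := by exact_mod_cast h7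
  linarith

end Pool.Agent.StrG
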